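import Pool.Agent.Run7.h432.AC.Stm

/-!
# Piece ANL of project AC (helper432), by helper544: abstract Newton lemma by Zorn
-/

set_option autoImplicit false

namespace Run7.h432.AC

theorem isPWO_of_seq {s : Set ℚ} (h : ∀ f : ℕ → ℚ, (∀ n, f n ∈ s) → ∃ m n, m < n ∧ f m ≤ f n) :
    s.IsPWO := by
  intro f
  obtain ⟨m, n, hmn, hle⟩ := h (fun n => (f n : ℚ)) (fun n => (f n).2)
  exact ⟨m, n, hmn, hle⟩

theorem seq_of_isPWO {s : Set ℚ} (h : s.IsPWO) (f : ℕ → ℚ) (hf : ∀ n, f n ∈ s) :
    ∃ m n, m < n ∧ f m ≤ f n := by
  obtain ⟨m, n, hmn, hle⟩ := h (fun n => ⟨f n, hf n⟩)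
  exact ⟨m, n, hmn, hle⟩

theorem p_ANL : S_ANL := by
  intro E _ F rad ord h0 ha hb hc
  by_contra hcon
  push Not at hcon
  -- the strict relation
  set lt : HahnSeries ℚ E → HahnSeries ℚ E → Prop := fun x x' =>
    (∀ q < rad x, (x' - x).coeff q = 0) ∧ ord x < ord x' with hlt
  -- small facts
  have hord : ∀ x q, (∀ p < q, (F x).coeff p = 0) → q ≤ ord x := by
    intro x q h
    by_contra hq
    exact (h0 x (hcon x)).1 (h _ (not_le.1 hq))
  have hord' : ∀ x q, (∀ p ≤ q, (F x).coeff p = 0) → q < ord x := by
    intro x q h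
    by_contra hq
    exact (h0 x (hcon x)).1 (h _ (not_lt.1 hq))
  have hrad : ∀ x x', lt x x' → rad x ≤ rad x' := by
    intro x x' h
    have h1 := hc x (x' - x) (hcon x) (hcon _) h.1 (by
      intro q hq
      rw [add_sub_cancel]
      exact (h0 x' (hcon x')).2 q (lt_of_le_of_lt hq h.2))
    rwa [add_sub_cancel] at h1
  have htr : ∀ x y z, lt x y → lt y z → lt x z := by
    intro x y z hxy hyz
    refine ⟨fun q hq => ?_, hxy.2.trans hyz.2⟩
    have h1 := hxy.1 q hq
    have h2 := hyz.1 q (lt_of_lt_of_le hq (hrad x y hxy))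
    have h3 : z - x = (z - y) + (y - x) := by abel
    rw [h3, HahnSeries.coeff_add, h1, h2, add_zero]
  -- Zorn
  obtain ⟨m, hm⟩ := exists_maximal_of_chains_bounded
    (r := fun x x' : HahnSeries ℚ E => x = x' ∨ lt x x') (by
      intro c hchain
      by_cases hmax : ∃ u, ∀ a ∈ c, a = u ∨ lt a u
      · exact hmax
      push Not at hmax
      -- every element of the chain has something strictly above
      have habove : ∀ x ∈ c, ∃ x' ∈ c, lt x x' := by
        intro x hx
        obtain ⟨a, hac, hax, hnlt⟩ := hmax x
        refine ⟨a, hac, ?_⟩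
        rcases hchain hac hx hax with h | h
        · rcases h with h | h
          · exact absurd h hax
          · exact absurd h hnlt
        · rcases h with h | h
          · exact absurd h.symm hax
          · exact h
      have hcons : ∀ x ∈ c, ∀ x' ∈ c, ∀ q, q < rad x → q < rad x' → x.coeff q = x'.coeff q := by
        intro x hx x' hx' q hq hq'
        by_cases hxx : x = x'
        · rw [hxx]
        rcases hchain hx hx' hxx with h | h
        · rcases h with h | h
          · exact absurd h hxx
          · have := h.1 q hq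
            rw [HahnSeries.coeff_sub, sub_eq_zero] at this
            exact this.symm
        · rcases h with h | h
          · exact absurd h.symm hxx
          · have := h.1 q hq'
            rw [HahnSeries.coeff_sub, sub_eq_zero] at this
            exact this
      classical
      let g : ℚ → E := fun q => if h : ∃ x ∈ c, q < rad x then h.choose.coeff q else 0
      have hg : ∀ x ∈ c, ∀ q < rad x, g q = x.coeff q := by
        intro x hx q hq
        have h : ∃ x ∈ c, q < rad x := ⟨x, hx, hq⟩
        have e : g q = h.choose.coeff q := dif_pos h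
        rw [e]
        exact hcons _ h.choose_spec.1 x hx q h.choose_spec.2 hq
      have hsupp : (Function.support g).IsPWO := by
        refine isPWO_of_seq fun f hf => ?_
        have h : ∃ x ∈ c, f 0 < rad x := by
          by_contra hno
          exact hf 0 (dif_neg hno)
        obtain ⟨x, hx, hx0⟩ := h
        by_cases hbig : ∃ n, 0 < n ∧ f 0 ≤ f n
        · obtain ⟨n, hn, hle⟩ := hbig
          exact ⟨0, n, hn, hle⟩
        push Not at hbig
        have hlt0 : ∀ n, f n < rad x := by
          intro n
          rcases Nat.eq_zero_or_pos n with h | h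
          · rw [h]; exact hx0
          · exact (hbig n h).trans hx0
        refine seq_of_isPWO x.isPWO_support f fun n => ?_
        have h1 := hf n
        rw [Function.mem_support, hg x hx _ (hlt0 n)] at h1
        exact h1
      refine ⟨⟨g, hsupp⟩, fun x hx => Or.inr ?_⟩
      have hz : ∀ x ∈ c, ∀ q < rad x, ((⟨g, hsupp⟩ : HahnSeries ℚ E) - x).coeff q = 0 := by
        intro x hx q hq
        rw [HahnSeries.coeff_sub, sub_eq_zero]
        exact hg x hx q hq
      refine ⟨hz x hx, ?_⟩
      obtain ⟨x', hx', hlt'⟩ := habove x hx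
      refine lt_of_lt_of_le hlt'.2 (hord _ _ fun q hq => ?_)
      have h1 := ha x' ((⟨g, hsupp⟩ : HahnSeries ℚ E) - x') (hcon x') (hz x' hx') q hq
      rwa [add_sub_cancel] at h1)
    (by
      intro a b c hab hbc
      rcases hab with h | h
      · rw [h]; exact hbc
      · rcases hbc with h' | h'
        · rw [← h']; exact Or.inr h
        · exact Or.inr (htr _ _ _ h h'))
  obtain ⟨y, hy⟩ := hb m (hcon m)
  have hlt1 : lt m (m + HahnSeries.single (rad m) y) := by
    refine ⟨fun q hq => ?_, hord' _ _ hy⟩
    rw [add_sub_cancel_left]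
    exact HahnSeries.coeff_single_of_ne hq.ne
  rcases hm _ (Or.inr hlt1) with h | h
  · have := hlt1.2
    rw [h] at this
    exact lt_irrefl _ this
  · exact lt_irrefl _ (hlt1.2.trans h.2)

end Run7.h432.AC
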