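import Pool.Agent.Run7.h432.AC.Stm2

/-!
# MP_4b1745_al, piece CENTER
-/

set_option autoImplicit false

namespace Run7.h432.AC.CENTER

theorem step {E : Type} [Field E] [CharZero E] [DD E] (c : MR E)
    (hc : ∀ x : MR E, c * x = x * c) (s : ℚ)
    (hs : ∀ q < s, DD.d1 (cf c q) = 0 ∧ DD.d2 (cf c q) = 0) (v : E) :
    DD.d2 (cf c s) * DD.d1 v = DD.d2 v * DD.d1 (cf c s) := by
  obtain ⟨m, hm⟩ := exists_Ge c
  obtain ⟨M, hM⟩ := exists_nat_gt (s + 1 - (m + 0))
  have h1 : cf (c * mono 0 v) (s + 1) = cf (mono 0 v * c) (s + 1) := by rw [hc]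
  rw [cf_mul_mono hm 0 v (N := M + 2) (by push_cast; linarith),
    cf_mono_mul hm 0 v (N := M + 2) (by push_cast; linarith)] at h1
  rw [Finset.sum_range_succ', Finset.sum_range_succ', Finset.sum_range_succ',
    Finset.sum_range_succ'] at h1
  have hz1 : ∀ k : ℕ, (DD.d1 : E →+ E)^[k + 1 + 1] (cf c (s + 1 - 0 - ((k + 1 + 1 : ℕ) : ℚ))) = 0 := by
    intro k
    rw [Function.iterate_succ_apply, (hs _ (by push_cast; linarith [(Nat.cast_nonneg k : (0:ℚ) ≤ k)])).1,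
      iterate_map_zero]
  have hz2 : ∀ k : ℕ, (DD.d2 : E →+ E)^[k + 1 + 1] (cf c (s + 1 - 0 - ((k + 1 + 1 : ℕ) : ℚ))) = 0 := by
    intro k
    rw [Function.iterate_succ_apply, (hs _ (by push_cast; linarith [(Nat.cast_nonneg k : (0:ℚ) ≤ k)])).2,
      iterate_map_zero]
  have e1 : ∑ k ∈ Finset.range M, rf (k + 1 + 1) •
      ((DD.d2 : E →+ E)^[k + 1 + 1] (cf c (s + 1 - 0 - ((k + 1 + 1 : ℕ) : ℚ))) *
        (DD.d1 : E →+ E)^[k + 1 + 1] v) = 0 :=
    Finset.sum_eq_zero fun k _ => by rw [hz2, zero_mul, smul_zero]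
  have e2 : ∑ k ∈ Finset.range M, rf (k + 1 + 1) •
      ((DD.d2 : E →+ E)^[k + 1 + 1] v *
        (DD.d1 : E →+ E)^[k + 1 + 1] (cf c (s + 1 - 0 - ((k + 1 + 1 : ℕ) : ℚ)))) = 0 :=
    Finset.sum_eq_zero fun k _ => by rw [hz1, mul_zero, smul_zero]
  rw [e1, e2] at h1
  have hs1 : s + 1 - 0 - ((0 + 1 : ℕ) : ℚ) = s := by push_cast; ring
  have hr : rf 1 = 1 := by simp [rf]
  rw [hs1] at h1
  simp only [zero_add, hr, one_smul, Function.iterate_one, rf_zero, Function.iterate_zero, id_eq] at h1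
  rw [mul_comm (cf c (s + 1 - 0 - _)) v] at h1
  exact add_right_cancel h1

theorem p_CENTER : S_CENTER := by
  intro E _ _ _ a b hab c hc q
  by_contra hq
  set S : Set ℚ := {q | ¬ (DD.d1 (cf c q) = 0 ∧ DD.d2 (cf c q) = 0)} with hS
  have hsub : S ⊆ c.s.support := by
    intro r hr
    rw [HahnSeries.mem_support]
    intro h0
    apply hr
    have h1 : cf c r = 0 := h0
    rw [h1, map_zero, map_zero]
    exact ⟨rfl, rfl⟩
  have hWF : S.IsWF := c.s.isWF_support.mono hsub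
  have hne : S.Nonempty := ⟨q, hq⟩
  have hmin := hWF.min_mem hne
  set s := hWF.min hne with hsdef
  have hlt : ∀ q < s, DD.d1 (cf c q) = 0 ∧ DD.d2 (cf c q) = 0 := by
    intro r hr
    by_contra h
    exact hWF.not_lt_min hne h hr
  have ha := step c hc s hlt a
  have hb := step c hc s hlt b
  apply hmin
  constructor
  · have : DD.d1 (cf c s) * (DD.d1 a * DD.d2 b - DD.d2 a * DD.d1 b) = 0 := by
      linear_combination DD.d1 b * ha - DD.d1 a * hb
    exact (mul_eq_zero.mp this).resolve_right hab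
  · have : DD.d2 (cf c s) * (DD.d1 a * DD.d2 b - DD.d2 a * DD.d1 b) = 0 := by
      linear_combination DD.d2 b * ha - DD.d2 a * hb
    exact (mul_eq_zero.mp this).resolve_right hab

end Run7.h432.AC.CENTER
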