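import Pool.Agent.Run7.h432.AC.Stm2

/-!
# MP_4b1745_al, piece DEC
-/

set_option autoImplicit false

namespace Run7.h432.AC.DEC

open MvPolynomial

theorem dpDer_hom {A : Type*} [CommRing A] {σ : Type*} (d : A →+ A) (hd : IsDer d) (nx : σ → σ)
    {P : MvPolynomial σ A} {n : ℕ} (h : P.IsHomogeneous n) :
    (dpDer d hd nx P).IsHomogeneous n := by
  have key : ∀ (m : σ →₀ ℕ) (a : A), ∃ k : ℕ, (monomial m a : MvPolynomial σ A).IsHomogeneous k ∧
      (dpDer d hd nx (monomial m a)).IsHomogeneous k := by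
    intro m a
    refine MvPolynomial.induction_on_monomial (motive := fun P : MvPolynomial σ A =>
      ∃ k : ℕ, P.IsHomogeneous k ∧ (dpDer d hd nx P).IsHomogeneous k) ?_ ?_ m a
    · intro a
      exact ⟨0, isHomogeneous_C _ _, by rw [dpDer_C]; exact isHomogeneous_C _ _⟩
    · intro p v ih
      obtain ⟨k, h1, h2⟩ := ih
      refine ⟨k + 1, h1.mul (isHomogeneous_X _ _), ?_⟩
      rw [dpDer_der d hd nx p (X v), dpDer_X]
      refine (h1.mul (isHomogeneous_X _ _)).add ?_
      rw [add_comm k 1]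
      exact (isHomogeneous_X _ _).mul h2
  rw [P.as_sum, map_sum]
  refine IsHomogeneous.sum _ _ _ fun m hm => ?_
  obtain ⟨k, h1, h2⟩ := key m (coeff m P)
  have h3 : coeff m P ≠ 0 := mem_support_iff.mp hm
  have h4 : m.degree = n := by
    by_contra hne
    exact h3 (h.coeff_eq_zero hne)
  have h5 : (monomial m (coeff m P) : MvPolynomial σ A).IsHomogeneous n :=
    isHomogeneous_monomial _ h4
  have h6 : (monomial m (coeff m P) : MvPolynomial σ A) ≠ 0 := by
    intro h0; exact h3 (by simpa using h0)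
  rw [← h1.inj_right h5 h6]; exact h2

section
variable {E : Type} [Field E] [CharZero E] [DD E]

theorem d1_hom {P : DP E Unit} {n : ℕ} (h : P.IsHomogeneous n) :
    (DD.d1 P : DP E Unit).IsHomogeneous n := dpDer_hom _ _ _ h

theorem d2_hom {P : DP E Unit} {n : ℕ} (h : P.IsHomogeneous n) :
    (DD.d2 P : DP E Unit).IsHomogeneous n := dpDer_hom _ _ _ h

theorem d1_iter {P : DP E Unit} {n : ℕ} (h : P.IsHomogeneous n) (k : ℕ) :
    ((DD.d1 : DP E Unit →+ DP E Unit)^[k] P).IsHomogeneous n := by
  induction k with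
  | zero => exact h
  | succ k ih => rw [Function.iterate_succ_apply']; exact d1_hom ih

theorem d2_iter {P : DP E Unit} {n : ℕ} (h : P.IsHomogeneous n) (k : ℕ) :
    ((DD.d2 : DP E Unit →+ DP E Unit)^[k] P).IsHomogeneous n := by
  induction k with
  | zero => exact h
  | succ k ih => rw [Function.iterate_succ_apply']; exact d2_hom ih

/-- All coefficients are homogeneous of degree `n`. -/
def Hm (n : ℕ) (z : MR (DP E Unit)) : Prop := ∀ q, (cf z q).IsHomogeneous n

theorem Hm.add {n : ℕ} {z w : MR (DP E Unit)} (hz : Hm n z) (hw : Hm n w) : Hm n (z + w) :=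
  fun q => by rw [cf_add]; exact (hz q).add (hw q)

theorem Hm_zero (n : ℕ) : Hm n (0 : MR (DP E Unit)) :=
  fun q => by rw [cf_zero]; exact isHomogeneous_zero _ _ _

theorem Hm_sum {n : ℕ} {ι : Type*} (s : Finset ι) (g : ι → MR (DP E Unit))
    (h : ∀ i ∈ s, Hm n (g i)) : Hm n (∑ i ∈ s, g i) := by
  classical
  induction s using Finset.induction_on with
  | empty => rw [Finset.sum_empty]; exact Hm_zero n
  | insert a s ha ih =>
    rw [Finset.sum_insert ha]
    exact (h a (Finset.mem_insert_self _ _)).add (ih fun i hi => h i (Finset.mem_insert_of_mem hi))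

theorem Hm.mul {n m : ℕ} {z w : MR (DP E Unit)} (hz : Hm n z) (hw : Hm m w) :
    Hm (n + m) (z * w) := by
  intro q
  have := cf_mul_mem (homogeneousSubmodule (Unit × ℕ × ℕ) E (n + m)).toAddSubgroup z w
    (fun s r k => by
      have h1 : ((DD.d2 : DP E Unit →+ DP E Unit)^[k] (cf z s) *
          (DD.d1 : DP E Unit →+ DP E Unit)^[k] (cf w r)).IsHomogeneous (n + m) :=
        (d2_iter (hz s) k).mul (d1_iter (hw r) k)
      have h2 : rf k • ((DD.d2 : DP E Unit →+ DP E Unit)^[k] (cf z s) *
          (DD.d1 : DP E Unit →+ DP E Unit)^[k] (cf w r)) =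
          C (algebraMap ℚ E (rf k)) * ((DD.d2 : DP E Unit →+ DP E Unit)^[k] (cf z s) *
          (DD.d1 : DP E Unit →+ DP E Unit)^[k] (cf w r)) := by
        rw [Algebra.smul_def]; rfl
      rw [h2]
      exact h1.C_mul _) q
  exact this

theorem Hm_jC (z : MR E) : Hm 0 (jC E Unit z) := fun q => by
  rw [jC, cf_mp]; exact isHomogeneous_C _ _

theorem Hm_y : Hm 1 (mono 0 (X ((), 0, 0)) : MR (DP E Unit)) := fun q => by
  rw [cf_mono]
  split_ifs
  · exact isHomogeneous_X _ _
  · exact isHomogeneous_zero _ _ _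

theorem aux (f : Syn (MR E)) (x : MR E) : ∃ P : Polynomial (MR (DP E Unit)),
    (∀ n, Hm n (P.coeff n)) ∧ P.coeff 0 = jC E Unit (va f x) ∧
    ∀ r : ℚ, ev (jC E Unit) (jC E Unit x + mono r (X ((), 0, 0))) f = P.eval (mono r 1) := by
  induction f using FreeAlgebra.induction with
  | grade0 k =>
    have h0 : (k : MR (DP E Unit)) = jC E Unit (k : MR E) := by rw [map_intCast]
    refine ⟨Polynomial.C (k : MR (DP E Unit)), fun n => ?_, ?_, fun r => ?_⟩
    · rw [Polynomial.coeff_C]
      split_ifs with h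
      · rw [h, h0]; exact Hm_jC _
      · exact Hm_zero n
    · rw [Polynomial.coeff_C_zero, h0]
      congr 1
      rw [va]; simp
    · rw [Polynomial.eval_C]; simp
  | grade1 o =>
    rcases o with a | a
    · refine ⟨Polynomial.C (jC E Unit a), fun n => ?_, ?_, fun r => ?_⟩
      · rw [Polynomial.coeff_C]
        split_ifs with h
        · rw [h]; exact Hm_jC _
        · exact Hm_zero n
      · rw [Polynomial.coeff_C_zero, va, ev_inl]
      · rw [Polynomial.eval_C, ev_inl]
    · refine ⟨Polynomial.C (jC E Unit x) +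
        Polynomial.C (mono 0 (X ((), 0, 0))) * Polynomial.X, fun n => ?_, ?_, fun r => ?_⟩
      · rw [Polynomial.coeff_add]
        refine Hm.add ?_ ?_
        · rw [Polynomial.coeff_C]
          split_ifs with h
          · rw [h]; exact Hm_jC _
          · exact Hm_zero n
        · rw [Polynomial.coeff_C_mul, Polynomial.coeff_X]
          split_ifs with h
          · rw [← h, mul_one]; exact Hm_y
          · rw [mul_zero]; exact Hm_zero n
      · simp [va, ev_inr]
      · rw [ev_inr, Polynomial.eval_add, Polynomial.eval_C, Polynomial.eval_mul_X,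
          Polynomial.eval_C, ← h_central, ← mono_eq]
  | mul f g hf hg =>
    obtain ⟨P, hP, hP0, hPe⟩ := hf
    obtain ⟨Q, hQ, hQ0, hQe⟩ := hg
    refine ⟨P * Q, fun n => ?_, ?_, fun r => ?_⟩
    · rw [Polynomial.coeff_mul]
      refine Hm_sum _ _ fun i hi => ?_
      have := (hP i.1).mul (hQ i.2)
      rwa [Finset.HasAntidiagonal.mem_antidiagonal.mp hi] at this
    · rw [Polynomial.mul_coeff_zero, hP0, hQ0, ← map_mul]
      congr 1
      simp only [va, map_mul]
    · rw [map_mul, hPe, hQe]
      exact (Polynomial.eval₂_mul_noncomm (RingHom.id _) (mono r 1)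
        (fun k => (h_central r (Q.coeff k)).symm)).symm
  | add f g hf hg =>
    obtain ⟨P, hP, hP0, hPe⟩ := hf
    obtain ⟨Q, hQ, hQ0, hQe⟩ := hg
    refine ⟨P + Q, fun n => ?_, ?_, fun r => ?_⟩
    · rw [Polynomial.coeff_add]; exact (hP n).add (hQ n)
    · rw [Polynomial.coeff_add, hP0, hQ0, ← map_add]
      congr 1
      simp only [va, map_add]
    · rw [map_add, hPe, hQe, Polynomial.eval_add]

end

theorem p_DEC : S_DEC := by
  intro E _ _ _ f x
  obtain ⟨P, hP, hP0, hPe⟩ := aux f x
  refine ⟨P.natDegree + 1, P.coeff, Nat.le_add_left _ _, fun n hn => ?_, hP, hP0, fun r => ?_⟩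
  · exact Polynomial.coeff_eq_zero_of_natDegree_lt hn
  · rw [hPe, Polynomial.eval_eq_sum_range]
    refine Finset.sum_congr rfl fun n _ => ?_
    rw [h_pow, h_central]

end Run7.h432.AC.DEC
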