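import Pool.Agent.Run7.h432.AC.Stm2
import Pool.Agent.Run7.h432.AC.P_ANL

/-!
# Piece DIV of project AC (helper432), by helper834: the Moyal ring is a division ring
-/

set_option autoImplicit false
set_option linter.all false

namespace Run7.h432.AC

theorem p_DIV : S_DIV := by
  intro E _ _ _ a ha
  have has : a.s ≠ 0 := fun h => ha (MR.s_inj h)
  have ha1 : Ge a.s.order a := fun q hq => HahnSeries.coeff_eq_zero_of_lt_order hq
  have ha2 : cf a a.s.order ≠ 0 := fun h => has (HahnSeries.coeff_order_eq_zero.mp h)
  let F : HahnSeries ℚ E → HahnSeries ℚ E := fun x => (a * ⟨x⟩ - 1 : MR E).s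
  have hF : ∀ x z, F (x + z) = F x + (a * ⟨z⟩ : MR E).s := by
    intro x z
    have h0 : (a * ⟨x + z⟩ - 1 : MR E) = (a * ⟨x⟩ - 1) + a * ⟨z⟩ := by
      have h : (⟨x + z⟩ : MR E) = ⟨x⟩ + ⟨z⟩ := rfl
      rw [h, mul_add]; abel
    change (a * ⟨x + z⟩ - 1 : MR E).s = _
    rw [h0]; rfl
  have hlt : ∀ (x : HahnSeries ℚ E) (q : ℚ), q < (F x).order → (F x).coeff q = 0 :=
    fun x q hq => HahnSeries.coeff_eq_zero_of_lt_order hq
  obtain ⟨x, hx⟩ := p_ANL E F (fun x => (F x).order - a.s.order) (fun x => (F x).order)
    (by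
      intro x hx
      exact ⟨fun h => hx (HahnSeries.coeff_order_eq_zero.mp h), hlt x⟩)
    (by
      intro x z hx hz q hq
      rw [hF, HahnSeries.coeff_add, hlt x q hq, zero_add]
      have h1 : Ge ((F x).order - a.s.order) (⟨z⟩ : MR E) := hz
      exact (ha1.mul h1) q (by linarith))
    (by
      intro x hx
      refine ⟨-(F x).coeff (F x).order / cf a a.s.order, ?_⟩
      intro q hq
      have hz : Ge ((F x).order - a.s.order) (⟨HahnSeries.single ((F x).order - a.s.order)
          (-(F x).coeff (F x).order / cf a a.s.order)⟩ : MR E) := by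
        intro r hr
        exact HahnSeries.coeff_single_of_ne (ne_of_lt hr)
      rw [hF, HahnSeries.coeff_add]
      rcases lt_or_eq_of_le hq with h | h
      · rw [hlt x q h, zero_add]
        exact (ha1.mul hz) q (by linarith)
      · have h3 := cf_mul_lead ha1 hz
        have h4 : a.s.order + ((F x).order - a.s.order) = (F x).order := by ring
        rw [h4] at h3
        rw [h]
        have h5 : cf (⟨HahnSeries.single ((F x).order - a.s.order)
          (-(F x).coeff (F x).order / cf a a.s.order)⟩ : MR E) ((F x).order - a.s.order) =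
            -(F x).coeff (F x).order / cf a a.s.order := HahnSeries.coeff_single_same _ _
        rw [h5, mul_div_cancel₀ _ ha2] at h3
        change (F x).coeff (F x).order + cf (a * _) _ = 0
        rw [h3, add_neg_cancel])
    (by
      intro x z hx hz1 hz h
      have h1 : (F x).order ≤ (F (x + z)).order := by
        by_contra hcon
        exact hz1 (HahnSeries.coeff_order_eq_zero.mp (h _ (not_le.mp hcon).le))
      linarith)
  refine ⟨⟨x⟩, ?_⟩
  have h0 : (a * ⟨x⟩ - 1 : MR E) = 0 := MR.s_inj hx
  exact sub_eq_zero.mp h0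

end Run7.h432.AC
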