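import Pool.Agent.Run7.h432.AC.Stm

/-!
# MP_4b1745_al, piece POLY
-/

set_option autoImplicit false

namespace Run7.h432.AC.POLY

open Run7.h432.AC

theorem ev_inl {R B : Type*} [Ring B] (j : R → B) (b : B) (a : R) :
    ev j b (FreeAlgebra.ι ℤ (Sum.inl a)) = j a := by
  simp [ev]

theorem ev_inr {R B : Type*} [Ring B] (j : R → B) (b : B) (a : Unit) :
    ev j b (FreeAlgebra.ι ℤ (Sum.inr a)) = b := by
  simp [ev]

theorem poly_aux (R B : Type) [Ring B] (j : R → B) (b0 b1 : B) (f : Syn R) :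
    ∃ P : Polynomial B, ∀ c : B, (∀ x, c * x = x * c) →
      ev j (b0 + c * b1) f = P.eval c := by
  induction f using FreeAlgebra.induction with
  | grade0 r =>
    refine ⟨Polynomial.C (r : B), fun c _ => ?_⟩
    rw [Polynomial.eval_C]
    simp
  | grade1 x =>
    rcases x with a | a
    · refine ⟨Polynomial.C (j a), fun c _ => ?_⟩
      rw [Polynomial.eval_C, ev_inl]
    · refine ⟨Polynomial.C b0 + Polynomial.C b1 * Polynomial.X, fun c hc => ?_⟩
      rw [Polynomial.eval_add, Polynomial.eval_C, Polynomial.eval_mul_X, Polynomial.eval_C,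
        ev_inr, hc b1]
  | mul f g hf hg =>
    obtain ⟨P, hP⟩ := hf
    obtain ⟨Q, hQ⟩ := hg
    refine ⟨P * Q, fun c hc => ?_⟩
    rw [map_mul, hP c hc, hQ c hc]
    exact (Polynomial.eval₂_mul_noncomm (RingHom.id B) c (fun k => (hc _).symm)).symm
  | add f g hf hg =>
    obtain ⟨P, hP⟩ := hf
    obtain ⟨Q, hQ⟩ := hg
    refine ⟨P + Q, fun c hc => ?_⟩
    rw [map_add, hP c hc, hQ c hc, Polynomial.eval_add]

theorem p_POLY : S_POLY := by
  intro R B _ j b0 b1 f
  obtain ⟨P, hP⟩ := poly_aux R B j b0 b1 f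
  refine ⟨P.natDegree + 1, P.coeff, fun c hc => ?_⟩
  rw [hP c hc, Polynomial.eval_eq_sum_range]
  refine Finset.sum_congr rfl fun n _ => ?_
  have h : Commute (P.coeff n) c := (hc _).symm
  exact (h.pow_right n)

end Run7.h432.AC.POLY
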