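import Pool.Agent.Run7.h432.AC.Stm

/-!
# Piece VAND of project AC (helper432), by helper544
-/

set_option autoImplicit false

namespace Run7.h432.AC

theorem p_VAND : S_VAND := by
  intro B _ _ M N p h n hn
  let V : Matrix (Fin N) (Fin N) ℚ := Matrix.vandermonde (fun k : Fin N => ((k : ℕ) : ℚ))
  have hdet : V.det ≠ 0 := by
    rw [Matrix.det_vandermonde_ne_zero_iff]
    intro a b hab
    have : ((a : ℕ) : ℚ) = ((b : ℕ) : ℚ) := hab
    exact Fin.ext (by exact_mod_cast this)
  have hinv : V⁻¹ * V = 1 := Matrix.nonsing_inv_mul V (Ne.isUnit hdet)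
  have key : p n = ∑ k : Fin N, (V⁻¹ ⟨n, hn⟩ k) • ∑ m ∈ Finset.range N, (((k : ℕ) : ℚ) ^ m) • p m := by
    have e1 : ∀ k : Fin N, ∑ m ∈ Finset.range N, (((k : ℕ) : ℚ) ^ m) • p m =
        ∑ m : Fin N, V k m • p m := by
      intro k
      rw [Finset.sum_range]
      rfl
    simp only [e1, Finset.smul_sum, smul_smul]
    rw [Finset.sum_comm]
    simp only [← Finset.sum_smul]
    have e2 : ∀ m : Fin N, ∑ k : Fin N, V⁻¹ ⟨n, hn⟩ k * V k m = if (⟨n, hn⟩ : Fin N) = m then 1 else 0 := by
      intro m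
      have := congrFun (congrFun hinv ⟨n, hn⟩) m
      rw [Matrix.mul_apply] at this
      rw [this, Matrix.one_apply]
    simp only [e2, ite_smul, one_smul, zero_smul]
    simp
  rw [key]
  exact Submodule.sum_mem _ fun k _ => Submodule.smul_mem _ _ (h k)

end Run7.h432.AC
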