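import Pool.Agent.Run7.h432.AC.Stm2
import Pool.Agent.Run7.h432.AC.P_POLY
import Pool.Agent.Run7.h432.AC.P_VAND

/-!
# MP_4b1745_al, piece FIN (helper847)
-/

set_option autoImplicit false

namespace Run7.h432.AC

open MvPolynomial TensorProduct

section
variable {A : Type*} [CommRing A] [Algebra ℚ A]

theorem Ge.mono_le {m m' : ℚ} {x : MR A} (h : Ge m x) (hm : m' ≤ m) : Ge m' x :=
  fun q hq => h q (lt_of_lt_of_le hq hm)

/-- The elements without coefficients below `m`. -/
noncomputable def GeS (A : Type*) [CommRing A] [Algebra ℚ A] (m : ℚ) : Submodule ℚ (MR A) where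
  carrier := {x | Ge m x}
  add_mem' := fun {x y} hx hy q hq => by
    rw [cf_add, hx q hq, hy q hq, add_zero]
  zero_mem' := fun q _ => cf_zero q
  smul_mem' := fun c x hx q hq => by
    rw [cf_smul, hx q hq, smul_zero]

theorem mem_GeS {m : ℚ} {x : MR A} : x ∈ GeS A m ↔ Ge m x := Iff.rfl

variable [DD A]

theorem cast_smul (k : ℕ) (x : MR A) : (k : MR A) * x = (k : ℚ) • x := by
  rw [← nsmul_eq_mul, Nat.cast_smul_eq_nsmul]

theorem Ge.h_mul {m δ : ℚ} {x : MR A} (h : Ge m x) : Ge (m + δ) (mono δ 1 * x) := by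
  intro q hq
  rw [cf_h_mul]
  exact h _ (by linarith)

end

theorem Ge.mp {A B : Type*} [CommRing A] [CommRing B] [Algebra ℚ A] [Algebra ℚ B] [DD A] [DD B]
    {φ : A →+* B} (hφ : IsDD φ) {m : ℚ} {x : MR A} (h : Ge m x) : Ge m (AC.mp φ hφ x) := by
  intro q hq
  rw [cf_mp, h q hq, map_zero]

theorem mp_comp_jC {A B : Type*} [CommRing A] [CommRing B] [Algebra ℚ A] [Algebra ℚ B] [DD A]
    [DD B] (S : Type*) (i : A →+* B) (hi : IsDD i) (y : S → B) (a : MR A) :
    mp (subst i y) (subst_isDD i hi y) (jC A S a) = mp i hi a :=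
  MR.ext fun q => by
    rw [cf_mp, cf_mp]
    show subst i y (cf (jC A S a) q) = _
    rw [jC, cf_mp, subst_C]

theorem jC_eq {A : Type*} [CommRing A] [Algebra ℚ A] [DD A] (S : Type*) :
    jC A S = mp C (C_isDD A S) := rfl

section
variable {E : Type} [Field E] [CharZero E] [DD E]

/-- good families -/
def Good (f : Syn (MR E)) (x : MR E) (m : ℚ) {S : Type} (F : Finset S)
    (b : S → MR (DP E S)) : Prop :=
  ∀ k : S → ℕ, Ge m (ev (jC E S) (jC E S x + ∑ s ∈ F, (k s : MR (DP E S)) * b s) f -
    jC E S (va f x))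

theorem good_one (f : Syn (MR E)) (x : MR E) (r m : ℚ) (h : Ge m (gg f x r)) {S : Type}
    (F : Finset S) : Good f x m F (fun s => mono r (X (s, 0, 0))) := by
  intro k
  set φ : DP E Unit →+* DP E S := subst C (fun _ : Unit => ∑ s ∈ F, (k s : DP E S) * X (s, 0, 0))
    with hφ
  have hD : IsDD φ := subst_isDD C (C_isDD E S) _
  have h1 := h.mp hD
  have h2 : mp φ hD (gg f x r) = ev (jC E S)
      (jC E S x + ∑ s ∈ F, (k s : MR (DP E S)) * mono r (X (s, 0, 0))) f - jC E S (va f x) := by
    have hj : ∀ a : MR E, mp φ hD (jC E Unit a) = jC E S a := fun a =>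
      mp_comp_jC Unit C (C_isDD E S) _ a
    have hX : mp φ hD (mono r (X ((), 0, 0))) =
        ∑ s ∈ F, (k s : MR (DP E S)) * mono r (X (s, 0, 0)) := by
      rw [mp_mono, hφ, subst_X]
      have hsum : ∀ G : Finset S, mono r (∑ s ∈ G, (k s : DP E S) * X (s, 0, 0)) =
          ∑ s ∈ G, (k s : MR (DP E S)) * mono r (X (s, 0, 0)) := by
        intro G
        classical
        induction G using Finset.induction_on with
        | empty => rw [Finset.sum_empty, Finset.sum_empty, mono_zero]
        | insert s G hs ih =>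
          rw [Finset.sum_insert hs, Finset.sum_insert hs, mono_add, ih]
          congr 1
          rw [cast_smul]
          refine MR.ext fun q => ?_
          rw [cf_smul, cf_mono, cf_mono]
          split_ifs
          · rw [← nsmul_eq_mul, Nat.cast_smul_eq_nsmul]
          · rw [smul_zero]
      exact hsum F
    unfold gg
    rw [map_sub, ev_hom, map_add, hj, hX]
    have hj' : (fun a => mp φ hD (jC E Unit a)) = (jC E S : MR E → MR (DP E S)) := funext hj
    rw [hj', hj]
  rw [← h2]
  exact h1

theorem good_step (f : Syn (MR E)) (x : MR E) (m : ℚ) {S : Type} (F : Finset S)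
    (b b' : S → MR (DP E S)) (t : S) (ht : t ∈ F) (δ : ℚ) (hδ : 0 ≤ δ)
    (hb : ∀ s, s ≠ t → b' s = b s) (hbt : b' t = mono δ 1 * b t) (h : Good f x m F b) :
    Good f x m F b' := by
  classical
  intro k
  set v := jC E S (va f x) with hv
  set y0 := jC E S x + ∑ s ∈ F.erase t, (k s : MR (DP E S)) * b s with hy0
  obtain ⟨N, p, hp⟩ := POLY.p_POLY (MR E) (MR (DP E S)) (jC E S) y0 (b t) f
  have hcast : ∀ k' : ℕ, ∀ z : MR (DP E S), (k' : MR (DP E S)) * z = z * (k' : MR (DP E S)) :=
    fun k' z => (Nat.cast_commute k' z).eq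
  set p' : ℕ → MR (DP E S) := fun n => (if n < N then p n else 0) - (if n = 0 then v else 0)
    with hp'
  have hsumc : ∀ c : MR (DP E S), (∀ z, c * z = z * c) →
      ev (jC E S) (y0 + c * b t) f - v = ∑ n ∈ Finset.range (N + 1), c ^ n * p' n := by
    intro c hc
    rw [hp c hc]
    have e1 : ∑ n ∈ Finset.range (N + 1), c ^ n * p' n =
        ∑ n ∈ Finset.range (N + 1), c ^ n * (if n < N then p n else 0) -
          ∑ n ∈ Finset.range (N + 1), c ^ n * (if n = 0 then v else 0) := by
      rw [← Finset.sum_sub_distrib]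
      exact Finset.sum_congr rfl fun n _ => by rw [hp', mul_sub]
    rw [e1]
    congr 1
    · rw [Finset.sum_range_succ, if_neg (lt_irrefl N), mul_zero, add_zero]
      exact Finset.sum_congr rfl fun n hn => by rw [if_pos (Finset.mem_range.1 hn)]
    · rw [Finset.sum_eq_single 0]
      · rw [if_pos rfl, pow_zero, one_mul]
      · intro n _ hn
        rw [if_neg hn, mul_zero]
      · intro hn
        exact absurd (Finset.mem_range.2 (Nat.succ_pos N)) hn
  have hpm : ∀ n < N + 1, p' n ∈ GeS (DP E S) m := by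
    refine p_VAND (MR (DP E S)) (GeS (DP E S) m) (N + 1) p' fun k' => ?_
    have h1 := h (Function.update k t k')
    have h2 : jC E S x + ∑ s ∈ F, ((Function.update k t k' s : ℕ) : MR (DP E S)) * b s =
        y0 + (k' : MR (DP E S)) * b t := by
      rw [← Finset.add_sum_erase _ _ ht, Function.update_self, hy0]
      have : ∑ s ∈ F.erase t, ((Function.update k t k' s : ℕ) : MR (DP E S)) * b s =
          ∑ s ∈ F.erase t, (k s : MR (DP E S)) * b s :=
        Finset.sum_congr rfl fun s hs => by
          rw [Function.update_of_ne (Finset.ne_of_mem_erase hs)]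
      rw [this]
      abel
    rw [h2, hsumc _ (hcast k')] at h1
    have h3 : ∑ n ∈ Finset.range (N + 1), ((k' : ℚ) ^ n) • p' n =
        ∑ n ∈ Finset.range (N + 1), (k' : MR (DP E S)) ^ n * p' n :=
      Finset.sum_congr rfl fun n _ => by
        have e := cast_smul (k' ^ n) (p' n)
        rw [Nat.cast_pow, Nat.cast_pow] at e
        exact e.symm
    rw [h3]
    exact h1
  have hfin : jC E S x + ∑ s ∈ F, (k s : MR (DP E S)) * b' s =
      y0 + ((k t : MR (DP E S)) * mono δ 1) * b t := by
    rw [← Finset.add_sum_erase _ _ ht, hbt, hy0]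
    have : ∑ s ∈ F.erase t, (k s : MR (DP E S)) * b' s =
        ∑ s ∈ F.erase t, (k s : MR (DP E S)) * b s :=
      Finset.sum_congr rfl fun s hs => by rw [hb s (Finset.ne_of_mem_erase hs)]
    rw [this, mul_assoc]
    abel
  have hcc : ∀ z : MR (DP E S), ((k t : MR (DP E S)) * mono δ 1) * z =
      z * ((k t : MR (DP E S)) * mono δ 1) := by
    intro z
    have c1 : Commute (k t : MR (DP E S)) z := Nat.cast_commute _ _
    have c2 : Commute (mono δ 1 : MR (DP E S)) z := h_central δ z
    exact (c1.mul_left c2).eq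
  rw [hfin, hsumc _ hcc]
  show _ ∈ GeS (DP E S) m
  refine Submodule.sum_mem _ fun n hn => ?_
  have c1 : Commute (k t : MR (DP E S)) (mono δ 1) := Nat.cast_commute _ _
  rw [c1.mul_pow, ← Nat.cast_pow, mul_assoc, cast_smul, h_pow]
  refine Submodule.smul_mem _ _ ?_
  have h4 : Ge m (p' n) := hpm n (Finset.mem_range.1 hn)
  exact (h4.h_mul (δ := n * δ)).mono_le (by
    have : (0 : ℚ) ≤ n * δ := mul_nonneg (Nat.cast_nonneg n) hδ
    linarith)

end

theorem p_FIN : S_FIN := by
  classical
  intro E _ _ _ f x r m h S F e he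
  have key : ∀ G : Finset S, G ⊆ F →
      Good f x m F (fun s => if s ∈ G then mono (e s) (X (s, 0, 0)) else mono r (X (s, 0, 0))) := by
    intro G
    induction G using Finset.induction_on with
    | empty =>
      intro _
      simpa using good_one f x r m h F
    | insert t G ht ih =>
      intro hG
      have htF : t ∈ F := hG (Finset.mem_insert_self _ _)
      refine good_step f x m F _ _ t htF (e t - r) (by have := he t htF; linarith) ?_ ?_
        (ih fun s hs => hG (Finset.mem_insert_of_mem hs))
      · intro s hs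
        simp only [Finset.mem_insert]
        have : (s = t ∨ s ∈ G) ↔ s ∈ G := by
          constructor
          · rintro (h | h)
            · exact absurd h hs
            · exact h
          · exact Or.inr
        simp only [this]
      · simp only [Finset.mem_insert_self, if_true, if_neg ht]
        rw [mono_eq (e t), mono_eq r, ← mul_assoc, h_mul_h]
        congr 2
        ring
  have h1 := key F (Finset.Subset.refl F) (fun _ => 1)
  have h2 : ∑ s ∈ F, ((1 : ℕ) : MR (DP E S)) *
      (if s ∈ F then mono (e s) (X (s, 0, 0)) else mono r (X (s, 0, 0))) =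
      ∑ s ∈ F, mono (e s) (X (s, 0, 0)) :=
    Finset.sum_congr rfl fun s hs => by rw [if_pos hs, Nat.cast_one, one_mul]
  rw [h2] at h1
  exact h1

end Run7.h432.AC
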