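import Pool.Agent.Run7.h432.AC.Stm2
import Pool.Agent.Run7.h432.AC.P_VAND

/-!
# Piece INJ: no generalised polynomial identities
-/

set_option autoImplicit false

namespace Run7.h432.AC.INJ

open TensorProduct
open Pool.Agent.Results.MP_4b1745_al.OneVariable

section polyf

variable {B : Type} [Ring B]

/-- `φ` is a polynomial function of `k` with the first coefficients `c0`, `c1`. -/
def PolyF (φ : ℕ → B) (c0 c1 : B) : Prop :=
  ∃ (N : ℕ) (p : ℕ → B), 2 ≤ N ∧ p 0 = c0 ∧ p 1 = c1 ∧
    ∀ M, N ≤ M → ∀ k : ℕ, φ k = ∑ n ∈ Finset.range M, (k : B) ^ n * p n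

theorem PolyF.of {φ : ℕ → B} {N : ℕ} {p : ℕ → B} (hN : 2 ≤ N)
    (h : ∀ k : ℕ, φ k = ∑ n ∈ Finset.range N, (k : B) ^ n * p n) : PolyF φ (p 0) (p 1) := by
  refine ⟨N, fun n => if n < N then p n else 0, hN, if_pos (by omega), if_pos (by omega), ?_⟩
  intro M hM k
  rw [h k, ← Finset.sum_subset (Finset.range_mono hM)]
  · refine Finset.sum_congr rfl fun n hn => ?_
    simp only [if_pos (Finset.mem_range.1 hn)]
  · intro n _ hn
    have h1 : ¬ n < N := fun h => hn (Finset.mem_range.2 h)
    simp only [if_neg h1, mul_zero]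

theorem PolyF.zero : PolyF (fun _ => (0 : B)) 0 0 :=
  ⟨2, fun _ => 0, le_rfl, rfl, rfl, fun M _ k => by simp⟩

theorem PolyF.add {φ ψ : ℕ → B} {c0 c1 d0 d1 : B} (h : PolyF φ c0 c1) (h' : PolyF ψ d0 d1) :
    PolyF (fun k => φ k + ψ k) (c0 + d0) (c1 + d1) := by
  obtain ⟨N, p, hN, h0, h1, hp⟩ := h
  obtain ⟨N', p', hN', h0', h1', hp'⟩ := h'
  refine ⟨max N N', fun n => p n + p' n, le_trans hN (le_max_left _ _), by simp only [h0, h0'],
    by simp only [h1, h1'], ?_⟩
  intro M hM k
  change φ k + ψ k = _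
  rw [hp M (le_trans (le_max_left _ _) hM) k, hp' M (le_trans (le_max_right _ _) hM) k,
    ← Finset.sum_add_distrib]
  exact Finset.sum_congr rfl fun n _ => (mul_add _ _ _).symm

theorem PolyF.sum {ι : Type} (s : Finset ι) {φ : ι → ℕ → B} {c0 c1 : ι → B}
    (h : ∀ i ∈ s, PolyF (φ i) (c0 i) (c1 i)) :
    PolyF (fun k => ∑ i ∈ s, φ i k) (∑ i ∈ s, c0 i) (∑ i ∈ s, c1 i) := by
  classical
  induction s using Finset.induction_on with
  | empty => simpa using PolyF.zero
  | insert a s ha ih =>
    have h1 := (h a (Finset.mem_insert_self a s)).add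
      (ih fun i hi => h i (Finset.mem_insert_of_mem hi))
    simp only [Finset.sum_insert ha]
    exact h1

theorem PolyF.left {φ : ℕ → B} {c0 c1 : B} (h : PolyF φ c0 c1) (a : B) :
    PolyF (fun k => a * φ k) (a * c0) (a * c1) := by
  obtain ⟨N, p, hN, h0, h1, hp⟩ := h
  refine ⟨N, fun n => a * p n, hN, by simp only [h0], by simp only [h1], ?_⟩
  intro M hM k
  change a * φ k = _
  rw [hp M hM k, Finset.mul_sum]
  refine Finset.sum_congr rfl fun n _ => ?_
  rw [← mul_assoc, ← mul_assoc]
  congr 1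
  rw [← Nat.cast_pow]
  exact (Nat.cast_commute _ _).symm.eq

theorem PolyF.mulX {φ : ℕ → B} {c0 c1 : B} (h : PolyF φ c0 c1) (u z : B) :
    PolyF (fun k => (u + (k : B) * z) * φ k) (u * c0) (u * c1 + z * c0) := by
  obtain ⟨N, p, hN, h0, h1, hp⟩ := h
  refine ⟨N + 1, fun n => Nat.casesOn n (u * p 0) fun n => u * p (n + 1) + z * p n, by omega,
    by simp [h0], by simp [h0, h1], ?_⟩
  intro M hM k
  obtain ⟨M, rfl⟩ : ∃ M', M = M' + 1 := ⟨M - 1, by omega⟩
  change (u + (k : B) * z) * φ k = _
  have hc : ∀ (m : ℕ) (x : B), (k : B) ^ m * x = x * (k : B) ^ m := by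
    intro m x
    rw [← Nat.cast_pow]
    exact (Nat.cast_commute _ _).eq
  have e1 : u * φ k = ∑ n ∈ Finset.range (M + 1), (k : B) ^ n * (u * p n) := by
    rw [hp (M + 1) (by omega) k, Finset.mul_sum]
    refine Finset.sum_congr rfl fun n _ => ?_
    rw [← mul_assoc, ← mul_assoc, hc]
  have e2 : (k : B) * z * φ k = ∑ n ∈ Finset.range M, (k : B) ^ (n + 1) * (z * p n) := by
    rw [hp M (by omega) k, Finset.mul_sum]
    refine Finset.sum_congr rfl fun n _ => ?_
    rw [pow_succ', mul_assoc, mul_assoc, ← mul_assoc z, ← hc, mul_assoc]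
  rw [add_mul, e1, e2, Finset.sum_range_succ', Finset.sum_range_succ' _ M]
  simp only [pow_zero, one_mul]
  have e3 : ∀ n, (k : B) ^ (n + 1) * (u * p (n + 1) + z * p n) =
      (k : B) ^ (n + 1) * (u * p (n + 1)) + (k : B) ^ (n + 1) * (z * p n) := fun n => mul_add _ _ _
  simp only [e3, Finset.sum_add_distrib]
  exact add_right_comm _ _ _

end polyf

theorem PolyF.eq_zero {B : Type} [DivisionRing B] [CharZero B] {φ : ℕ → B} {c0 c1 : B}
    (h : PolyF φ c0 c1) (h0 : ∀ k, φ k = 0) : c1 = 0 := by
  obtain ⟨N, p, hN, -, h1, hp⟩ := h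
  have h2 := p_VAND B ⊥ N p (fun k => by
    rw [Submodule.mem_bot, ← h0 k, hp N le_rfl k]
    refine Finset.sum_congr rfl fun n _ => ?_
    rw [Algebra.smul_def, map_pow, map_natCast]) 1 (by omega)
  rw [Submodule.mem_bot] at h2
  rw [← h1, h2]

section tensor

variable {P B : Type} [Field P] [DivisionRing B] [Algebra P B]

theorem opz_left (z a : B) (τ : B ⊗[P] B) :
    opz P z (LinearMap.rTensor B (LinearMap.mulLeft P a) τ) = a * opz P z τ := by
  induction τ using TensorProduct.induction_on with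
  | zero => simp
  | tmul p q => simp [opz_tmul, mul_assoc]
  | add x y hx hy => rw [map_add, map_add, hx, hy, map_add, mul_add]

end tensor

section hn

variable {P R : Type} [Field P] [Ring R] [Algebra P R]

theorem exists_rep {ι : Type} (β : Module.Basis ι P R) (n : ℕ) (f : FreeOver P R Unit)
    (hf : f ∈ Hn P R (n + 1)) : ∃ G : ι →₀ FreeOver P R Unit, (∀ i, G i ∈ Hn P R n) ∧
      f = ∑ i ∈ G.support, const P R Unit (β i) * var P R Unit () * G i := by
  classical
  have key : ∀ G : ι →₀ FreeOver P R Unit, ∀ s : Finset ι, G.support ⊆ s →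
      ∑ i ∈ G.support, const P R Unit (β i) * var P R Unit () * G i =
      ∑ i ∈ s, const P R Unit (β i) * var P R Unit () * G i := by
    intro G s hs
    refine Finset.sum_subset hs fun i _ hi => ?_
    rw [Finsupp.notMem_support_iff.1 hi, mul_zero]
  unfold Hn at hf
  refine Submodule.span_induction (p := fun f _ => ∃ G : ι →₀ FreeOver P R Unit,
    (∀ i, G i ∈ Hn P R n) ∧ f = ∑ i ∈ G.support, const P R Unit (β i) * var P R Unit () * G i)
    ?_ ?_ ?_ ?_ hf
  · rintro _ ⟨a, g, hg, rfl⟩
    let G : ι →₀ FreeOver P R Unit :=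
      Finsupp.mapRange (fun c : P => c • g) (zero_smul P g) (β.repr a)
    have hG : ∀ i, G i = β.repr a i • g := fun i => Finsupp.mapRange_apply
    refine ⟨G, fun i => ?_, ?_⟩
    · rw [hG]
      exact Submodule.smul_mem _ _ hg
    · rw [key G (β.repr a).support Finsupp.support_mapRange]
      have h1 : const P R Unit a = ∑ i ∈ (β.repr a).support, β.repr a i • const P R Unit (β i) := by
        conv_lhs => rw [← β.linearCombination_repr a, Finsupp.linearCombination_apply, Finsupp.sum,
          map_sum]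
        simp only [map_smul]
      rw [h1, Finset.sum_mul, Finset.sum_mul]
      refine Finset.sum_congr rfl fun i _ => ?_
      rw [hG, mul_smul_comm, smul_mul_assoc, smul_mul_assoc]
  · exact ⟨0, fun i => Submodule.zero_mem _, by simp⟩
  · rintro x y _ _ ⟨G, hG, rfl⟩ ⟨G', hG', rfl⟩
    refine ⟨G + G', fun i => Submodule.add_mem _ (hG i) (hG' i), ?_⟩
    rw [key G (G.support ∪ G'.support) Finset.subset_union_left,
      key G' (G.support ∪ G'.support) Finset.subset_union_right,
      key (G + G') (G.support ∪ G'.support) Finsupp.support_add, ← Finset.sum_add_distrib]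
    refine Finset.sum_congr rfl fun i _ => ?_
    rw [Finsupp.add_apply, mul_add]
  · rintro c x _ ⟨G, hG, rfl⟩
    refine ⟨c • G, fun i => Submodule.smul_mem _ _ (hG i), ?_⟩
    rw [key (c • G) G.support Finsupp.support_smul, Finset.smul_sum]
    refine Finset.sum_congr rfl fun i _ => ?_
    rw [Finsupp.smul_apply, mul_smul_comm]

end hn

theorem p_INJ : S_INJ := by
  classical
  intro hLT hINJ1 P R B _ _ _ _ _ _ j u Pos hj hcen hRP hu hRPos hPos hid n
  induction n with
  | zero =>
    intro f hf hfu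
    obtain ⟨a, rfl⟩ := hf
    change lift j (fun _ => u) (const P R Unit a) = 0 at hfu
    rw [lift_const] at hfu
    have h1 : a = 0 := hj (hfu.trans (map_zero j).symm)
    change const P R Unit a = 0
    rw [h1, map_zero]
  | succ n ih =>
    intro f hf hfu
    have hfw := hid (n + 1) (by omega) f hf hfu
    let β := Module.Basis.ofVectorSpace P R
    obtain ⟨G, hG, hfG⟩ := exists_rep β n f hf
    let D : Submodule P B := LinearMap.range j.toLinearMap ⊔ Pos
    have hjD : ∀ a : R, j a ∈ D := fun a => Submodule.mem_sup_left ⟨a, rfl⟩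
    have hPD : Pos ≤ D := le_sup_right
    have hD : ∀ d ∈ D, ∃ a : R, ∃ p ∈ Pos, d = j a + p := by
      intro d hd
      obtain ⟨_, ⟨a, rfl⟩, p, hp, rfl⟩ := Submodule.mem_sup.1 hd
      exact ⟨a, p, hp, rfl⟩
    have hDD : ∀ p ∈ D, ∀ q ∈ D, p * q ∈ D := by
      intro p hp q hq
      obtain ⟨a, p', hp', rfl⟩ := hD p hp
      obtain ⟨b, q', hq', rfl⟩ := hD q hq
      have h1 : (j a + p') * (j b + q') = j (a * b) + (j a * q' + p' * j b + p' * q') := by
        rw [map_mul]
        noncomm_ring
      rw [h1]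
      exact Submodule.add_mem _ (hjD _) (hPD (Submodule.add_mem _ (Submodule.add_mem _
        (hRPos a q' hq').1 (hRPos b p' hp').2) (hPos p' hp' q' hq')))
    have hI := fun i => hINJ1 P R B j u D hjD (hPD hu) hDD (G i)
    choose hgD τ hτ hz using hI
    let t : B ⊗[P] B := ∑ i ∈ G.support, (j (β i) ⊗ₜ[P] (lift j (fun _ => u) (G i)) +
      LinearMap.rTensor B (LinearMap.mulLeft P (j (β i) * u)) (τ i))
    have ht : t = 0 := by
      apply hLT P B hcen
      intro z
      have h1 : ∀ i ∈ G.support, PolyF (fun k : ℕ => j (β i) * ((u + (k : B) * z) *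
          lift j (fun _ => u + (k : B) * z) (G i)))
          (j (β i) * (u * lift j (fun _ => u) (G i)))
          (j (β i) * (u * opz P z (τ i) + z * lift j (fun _ => u) (G i))) := by
        intro i _
        obtain ⟨N, p, hN, hp0, hp1, hp⟩ := hz i z
        rw [← hp0, ← hp1]
        exact ((PolyF.of hN hp).mulX u z).left _
      have h2 := PolyF.sum G.support h1
      have h3 := h2.eq_zero (fun k => by
        have h4 := hfw (u + (k : B) * z)
        rw [hfG, map_sum] at h4
        rw [← h4]
        refine Finset.sum_congr rfl fun i _ => ?_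
        rw [map_mul, map_mul, lift_const, lift_var, mul_assoc])
      rw [← h3, map_sum]
      refine Finset.sum_congr rfl fun i _ => ?_
      rw [map_add, opz_tmul, opz_left]
      noncomm_ring
    have hzero : ∀ i ∈ G.support, G i = 0 := by
      intro i₀ hi₀
      apply ih (G i₀) (hG i₀)
      -- the linear form
      let ρ : R →ₗ[P] B ⧸ Pos := Pos.mkQ ∘ₗ j.toLinearMap
      have hρ : LinearMap.ker ρ = ⊥ := by
        rw [LinearMap.ker_eq_bot']
        intro a ha
        apply hRP a
        exact (Submodule.Quotient.mk_eq_zero Pos).1 ha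
      obtain ⟨ψ, hψ⟩ := ρ.exists_leftInverse_of_injective hρ
      let φ : B →ₗ[P] P := β.coord i₀ ∘ₗ ψ ∘ₗ Pos.mkQ
      have hφj : ∀ a : R, φ (j a) = β.coord i₀ a := by
        intro a
        change β.coord i₀ (ψ (ρ a)) = _
        have h1 := LinearMap.congr_fun hψ a
        change ψ (ρ a) = a at h1
        rw [h1]
      have hφP : ∀ p ∈ Pos, φ p = 0 := by
        intro p hp
        change β.coord i₀ (ψ (Submodule.Quotient.mk p)) = 0
        rw [(Submodule.Quotient.mk_eq_zero Pos).2 hp, map_zero, map_zero]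
      let Φ : B ⊗[P] B →ₗ[P] B := (TensorProduct.lid P B).toLinearMap ∘ₗ LinearMap.rTensor B φ
      have hΦ : ∀ p q : B, Φ (p ⊗ₜ[P] q) = φ p • q := fun p q => by simp [Φ]
      have hΦτ : ∀ i, Φ (LinearMap.rTensor B (LinearMap.mulLeft P (j (β i) * u)) (τ i)) = 0 := by
        intro i
        refine Submodule.span_induction (p := fun τ _ =>
          Φ (LinearMap.rTensor B (LinearMap.mulLeft P (j (β i) * u)) τ) = 0) ?_ ?_ ?_ ?_ (hτ i)
        · rintro _ ⟨p, hp, q, rfl⟩
          rw [LinearMap.rTensor_tmul, LinearMap.mulLeft_apply, hΦ, hφP, zero_smul]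
          obtain ⟨a, p', hp', rfl⟩ := hD p hp
          have h1 : j (β i) * u ∈ Pos := (hRPos _ _ hu).1
          rw [mul_add]
          exact Submodule.add_mem _ (hRPos a _ h1).2 (hPos _ h1 p' hp')
        · rw [map_zero, map_zero]
        · intro x y _ _ hx hy
          rw [map_add, map_add, hx, hy, add_zero]
        · intro c x _ hx
          rw [map_smul, map_smul, hx, smul_zero]
      have h1 := congrArg Φ ht
      rw [map_zero, map_sum, Finset.sum_eq_single i₀] at h1
      · rw [map_add, hΦτ, add_zero, hΦ, hφj, Module.Basis.coord_apply, Module.Basis.repr_self,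
          Finsupp.single_eq_same, one_smul] at h1
        exact h1
      · intro i _ hi
        rw [map_add, hΦτ, add_zero, hΦ, hφj, Module.Basis.coord_apply, Module.Basis.repr_self,
          Finsupp.single_eq_of_ne (Ne.symm hi), zero_smul]
      · intro h
        exact absurd hi₀ h
    rw [hfG]
    refine Finset.sum_eq_zero fun i hi => ?_
    rw [hzero i hi, mul_zero]

end Run7.h432.AC.INJ
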