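import Pool.Agent.Run7.h432.AC.Stm2

/-!
# Piece INJ1 of project AC (helper432), by helper834: the derivative of a generalised polynomial
-/

set_option autoImplicit false
set_option linter.all false

namespace Run7.h432.AC

open MvPolynomial TensorProduct

theorem opz_lT (P : Type) {B : Type} [Field P] [Ring B] [Algebra P B] (z b : B) (τ : B ⊗[P] B) :
    opz P z ((LinearMap.mulRight P b).lTensor B τ) = opz P z τ * b := by
  induction τ using TensorProduct.induction_on with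
  | zero => simp
  | tmul p q =>
    rw [LinearMap.lTensor_tmul, LinearMap.mulRight_apply, opz_tmul, opz_tmul, mul_assoc (p * z)]
  | add x y hx hy => rw [map_add, map_add, map_add, add_mul, hx, hy]

theorem opz_rT (P : Type) {B : Type} [Field P] [Ring B] [Algebra P B] (z b : B) (τ : B ⊗[P] B) :
    opz P z ((LinearMap.mulLeft P b).rTensor B τ) = b * opz P z τ := by
  induction τ using TensorProduct.induction_on with
  | zero => simp
  | tmul p q =>
    rw [LinearMap.rTensor_tmul, LinearMap.mulLeft_apply, opz_tmul, opz_tmul, mul_assoc, mul_assoc,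
      mul_assoc]
  | add x y hx hy => rw [map_add, map_add, map_add, mul_add, hx, hy]

theorem lT_mem (P : Type) {B : Type} [Field P] [Ring B] [Algebra P B] (D : Submodule P B)
    (b : B) (τ : B ⊗[P] B)
    (h : τ ∈ Submodule.span P {t : B ⊗[P] B | ∃ p ∈ D, ∃ q : B, t = p ⊗ₜ[P] q}) :
    (LinearMap.mulRight P b).lTensor B τ ∈
      Submodule.span P {t : B ⊗[P] B | ∃ p ∈ D, ∃ q : B, t = p ⊗ₜ[P] q} := by
  induction h using Submodule.span_induction with
  | mem x hx =>
    obtain ⟨p, hp, q, rfl⟩ := hx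
    rw [LinearMap.lTensor_tmul]
    exact Submodule.subset_span ⟨p, hp, _, rfl⟩
  | zero => rw [map_zero]; exact zero_mem _
  | add x y _ _ hx hy => rw [map_add]; exact add_mem hx hy
  | smul c x _ hx => rw [map_smul]; exact Submodule.smul_mem _ _ hx

theorem rT_mem (P : Type) {B : Type} [Field P] [Ring B] [Algebra P B] (D : Submodule P B)
    (hD : ∀ p ∈ D, ∀ q ∈ D, p * q ∈ D) (b : B) (hb : b ∈ D) (τ : B ⊗[P] B)
    (h : τ ∈ Submodule.span P {t : B ⊗[P] B | ∃ p ∈ D, ∃ q : B, t = p ⊗ₜ[P] q}) :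
    (LinearMap.mulLeft P b).rTensor B τ ∈
      Submodule.span P {t : B ⊗[P] B | ∃ p ∈ D, ∃ q : B, t = p ⊗ₜ[P] q} := by
  induction h using Submodule.span_induction with
  | mem x hx =>
    obtain ⟨p, hp, q, rfl⟩ := hx
    rw [LinearMap.rTensor_tmul]
    exact Submodule.subset_span ⟨b * p, hD b hb p hp, _, rfl⟩
  | zero => rw [map_zero]; exact zero_mem _
  | add x y _ _ hx hy => rw [map_add]; exact add_mem hx hy
  | smul c x _ hx => rw [map_smul]; exact Submodule.smul_mem _ _ hx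

open Pool.Agent.Results.MP_4b1745_al.OneVariable in
theorem inj1_aux (P R B : Type) [Field P] [Ring R] [Algebra P R] [DivisionRing B]
    [CharZero B] [Algebra P B] (j : R →ₐ[P] B) (u : B) (D : Submodule P B)
    (hjD : ∀ a : R, j a ∈ D) (huD : u ∈ D) (hDD : ∀ p ∈ D, ∀ q ∈ D, p * q ∈ D)
    (g : FreeOver P R Unit) : lift j (fun _ => u) g ∈ D ∧
    ∃ τ ∈ Submodule.span P {t : B ⊗[P] B | ∃ p ∈ D, ∃ q : B, t = p ⊗ₜ[P] q},
      ∀ z : B, ∃ p : Polynomial B, p.coeff 0 = lift j (fun _ => u) g ∧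
        p.coeff 1 = opz P z τ ∧
        ∀ k : ℕ, lift j (fun _ => u + (k : B) * z) g = p.eval₂ (RingHom.id B) (k : B) := by
  have h1D : (1 : B) ∈ D := by
    have := hjD 1
    rwa [map_one] at this
  induction g using induct with
  | hc a =>
    refine ⟨by rw [lift_const]; exact hjD a, 0, zero_mem _, fun z =>
      ⟨Polynomial.C (j a), ?_, ?_, ?_⟩⟩
    · rw [lift_const, Polynomial.coeff_C_zero]
    · rw [map_zero, Polynomial.coeff_C_succ]
    · intro k
      rw [lift_const, Polynomial.eval₂_C]; rfl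
  | hv i =>
    refine ⟨by rw [lift_var]; exact huD, 1 ⊗ₜ 1, Submodule.subset_span ⟨1, h1D, 1, rfl⟩, fun z =>
      ⟨Polynomial.C u + Polynomial.C z * Polynomial.X, ?_, ?_, ?_⟩⟩
    · rw [lift_var]; simp
    · rw [opz_tmul]; simp [Polynomial.coeff_C]
    · intro k
      rw [lift_var, Polynomial.eval₂_add, Polynomial.eval₂_C, Polynomial.eval₂_mul_X,
        Polynomial.eval₂_C, (Nat.cast_commute k z).eq]
      rfl
  | hadd f g hf hg =>
    obtain ⟨hf1, τ, hτ, hf2⟩ := hf
    obtain ⟨hg1, σ, hσ, hg2⟩ := hg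
    refine ⟨by rw [map_add]; exact D.add_mem hf1 hg1, τ + σ, add_mem hτ hσ, fun z => ?_⟩
    obtain ⟨p, hp0, hp1, hp⟩ := hf2 z
    obtain ⟨q, hq0, hq1, hq⟩ := hg2 z
    refine ⟨p + q, ?_, ?_, ?_⟩
    · rw [map_add, Polynomial.coeff_add, hp0, hq0]
    · rw [map_add, Polynomial.coeff_add, hp1, hq1]
    · intro k
      rw [map_add, hp k, hq k, Polynomial.eval₂_add]
  | hmul f g hf hg =>
    obtain ⟨hf1, τ, hτ, hf2⟩ := hf
    obtain ⟨hg1, σ, hσ, hg2⟩ := hg
    refine ⟨by rw [map_mul]; exact hDD _ hf1 _ hg1,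
      (LinearMap.mulRight P (lift j (fun _ => u) g)).lTensor B τ +
        (LinearMap.mulLeft P (lift j (fun _ => u) f)).rTensor B σ,
      add_mem (lT_mem P D _ τ hτ) (rT_mem P D hDD _ hf1 σ hσ), fun z => ?_⟩
    obtain ⟨p, hp0, hp1, hp⟩ := hf2 z
    obtain ⟨q, hq0, hq1, hq⟩ := hg2 z
    refine ⟨p * q, ?_, ?_, ?_⟩
    · rw [map_mul, Polynomial.mul_coeff_zero, hp0, hq0]
    · rw [Polynomial.mul_coeff_one, hp0, hp1, hq0, hq1, map_add, opz_lT, opz_rT, add_comm]
    · intro k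
      rw [map_mul, hp k, hq k, Polynomial.eval₂_mul_noncomm]
      intro n
      exact (Nat.cast_commute k _).symm

theorem p_INJ1 : S_INJ1 := by
  intro P R B _ _ _ _ _ _ j u D hjD huD hDD g
  obtain ⟨h1, τ, hτ, h2⟩ := inj1_aux P R B j u D hjD huD hDD g
  refine ⟨h1, τ, hτ, fun z => ?_⟩
  obtain ⟨p, hp0, hp1, hp⟩ := h2 z
  refine ⟨p.natDegree + 2, p.coeff, by omega, hp0, hp1, fun k => ?_⟩
  rw [hp k, Polynomial.eval₂_eq_sum_range' (RingHom.id B) (by omega : p.natDegree < p.natDegree + 2)]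
  apply Finset.sum_congr rfl
  intro n _
  rw [RingHom.id_apply, ((Nat.cast_commute k (p.coeff n)).pow_left n).eq]

end Run7.h432.AC
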