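import Pool.Agent.Run7.h432.AC.Stm

/-!
# Piece LIM: the direct limit of the differential closure steps (helper324)
-/

set_option autoImplicit false

namespace Run7.h432.AC

open MvPolynomial

namespace Lim

section

variable (E : ℕ → DF) (φ : ∀ n, (E n).K →+* (E (n + 1)).K)

/-- The composed transition maps. -/
noncomputable def tr (m n : ℕ) (h : m ≤ n) : (E m).K →+* (E n).K :=
  Nat.leRecOn (C := fun k => (E m).K →+* (E k).K) h
    (fun {k} (g : (E m).K →+* (E k).K) => (φ k).comp g) (RingHom.id _)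

theorem tr_self (m : ℕ) (h : m ≤ m) : tr E φ m m h = RingHom.id _ := by
  unfold tr
  exact Nat.leRecOn_self _

theorem tr_succ (m n : ℕ) (h : m ≤ n) (h' : m ≤ n + 1) :
    tr E φ m (n + 1) h' = (φ n).comp (tr E φ m n h) := by
  unfold tr
  exact Nat.leRecOn_succ (C := fun k => (E m).K →+* (E k).K) h _

theorem tr_trans (l m n : ℕ) (h : l ≤ m) (h' : m ≤ n) (x : (E l).K) :
    tr E φ m n h' (tr E φ l m h x) = tr E φ l n (h.trans h') x := by
  induction n, h' using Nat.le_induction with
  | base => rw [tr_self]; rfl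
  | succ n hmn ih =>
    rw [tr_succ E φ m n hmn, tr_succ E φ l n (h.trans hmn)]
    simp only [RingHom.comp_apply]
    rw [ih]

instance : DirectedSystem (fun n => (E n).K) (fun m n h => tr E φ m n h) where
  map_self := fun {i} x => by rw [tr_self]; rfl
  map_map := fun {k j i} h h' x => tr_trans E φ _ _ _ h h' x

theorem tr_dd (hφ : ∀ n, IsDD (φ n)) (m n : ℕ) (h : m ≤ n) : IsDD (tr E φ m n h) := by
  induction n, h using Nat.le_induction with
  | base => rw [tr_self]; exact IsDD.id _
  | succ n hmn ih => rw [tr_succ E φ m n hmn]; exact IsDD.comp (hφ n) ih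

/-- The direct limit. -/
abbrev L : Type := DirectLimit (fun n => (E n).K) (fun m n h => tr E φ m n h)

noncomputable instance instField : Field (L E φ) := inferInstance

/-- The maps into the limit. -/
noncomputable def incl (n : ℕ) : (E n).K →+* L E φ where
  toFun x := ⟦⟨n, x⟩⟧
  map_one' := (DirectLimit.one_def (f := fun m n h => tr E φ m n h) n).symm
  map_zero' := (DirectLimit.zero_def (f := fun m n h => tr E φ m n h) n).symm
  map_add' x y := (DirectLimit.add_def (f := fun m n h => tr E φ m n h) n x y).symm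
  map_mul' x y := (DirectLimit.mul_def (f := fun m n h => tr E φ m n h) n x y).symm

theorem incl_apply (n : ℕ) (x : (E n).K) : incl E φ n x = ⟦⟨n, x⟩⟧ := rfl

theorem incl_tr (m n : ℕ) (h : m ≤ n) (x : (E m).K) :
    incl E φ n (tr E φ m n h x) = incl E φ m x := by
  apply Quotient.sound
  exact ⟨n, le_rfl, h, by simp only [tr_self]; rfl⟩

theorem incl_step (n : ℕ) (x : (E n).K) : incl E φ (n + 1) (φ n x) = incl E φ n x := by
  have h := incl_tr E φ n (n + 1) (Nat.le_succ n) x
  rw [tr_succ E φ n n le_rfl, tr_self] at h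
  exact h

theorem incl_surj (z : L E φ) : ∃ n x, z = incl E φ n x :=
  DirectLimit.exists_eq_mk (fun m n h => tr E φ m n h) z

theorem incl_surj₂ (z w : L E φ) : ∃ n x y, z = incl E φ n x ∧ w = incl E φ n y :=
  DirectLimit.exists_eq_mk₂ (fun m n h => tr E φ m n h) z w

instance : CharZero (L E φ) :=
  charZero_of_injective_ringHom (f := incl E φ 0) (RingHom.injective _)

/-- The limit of a compatible family of derivations. -/
noncomputable def limDer (d : ∀ n, (E n).K →+ (E n).K)
    (hd : ∀ m n h x, tr E φ m n h (d m x) = d n (tr E φ m n h x)) : L E φ →+ L E φ where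
  toFun := DirectLimit.map (fun m n h => tr E φ m n h) (fun m n h => tr E φ m n h)
    (fun n x => d n x) hd
  map_zero' := by
    have h0 : (0 : L E φ) = incl E φ 0 0 := (map_zero _).symm
    rw [h0]
    change incl E φ 0 (d 0 0) = incl E φ 0 0
    rw [map_zero]
  map_add' := by
    intro z w
    obtain ⟨n, x, y, rfl, rfl⟩ := incl_surj₂ E φ z w
    rw [← map_add]
    change incl E φ n (d n (x + y)) = incl E φ n (d n x) + incl E φ n (d n y)
    rw [map_add, map_add]

theorem limDer_incl (d : ∀ n, (E n).K →+ (E n).K)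
    (hd : ∀ m n h x, tr E φ m n h (d m x) = d n (tr E φ m n h x)) (n : ℕ) (x : (E n).K) :
    limDer E φ d hd (incl E φ n x) = incl E φ n (d n x) := rfl

theorem limDer_der (d : ∀ n, (E n).K →+ (E n).K)
    (hd : ∀ m n h x, tr E φ m n h (d m x) = d n (tr E φ m n h x)) (hder : ∀ n, IsDer (d n)) :
    IsDer (limDer E φ d hd) := by
  intro z w
  obtain ⟨n, x, y, rfl, rfl⟩ := incl_surj₂ E φ z w
  rw [← map_mul, limDer_incl, limDer_incl, limDer_incl, hder n, map_add, map_mul, map_mul]

/-- The two derivations of the limit. -/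
@[instance_reducible] noncomputable def limDD (hφ : ∀ n, IsDD (φ n)) : DD (L E φ) where
  d1 := limDer E φ (fun n => DD.d1) (fun m n h x => (tr_dd E φ hφ m n h).1 x)
  d2 := limDer E φ (fun n => DD.d2) (fun m n h x => (tr_dd E φ hφ m n h).2 x)
  mul1 := limDer_der E φ _ _ (fun n => DD.mul1)
  mul2 := limDer_der E φ _ _ (fun n => DD.mul2)
  comm := by
    intro z
    obtain ⟨n, x, rfl⟩ := incl_surj E φ z
    rw [limDer_incl, limDer_incl, limDer_incl, limDer_incl, DD.comm]

/-- A polynomial over the limit comes from a finite stage. -/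
theorem exists_stage {σ : Type} (P : MvPolynomial σ (L E φ)) :
    ∃ (n : ℕ) (P' : MvPolynomial σ (E n).K), P = map (incl E φ n) P' := by
  induction P using MvPolynomial.induction_on with
  | C a =>
    obtain ⟨n, x, rfl⟩ := incl_surj E φ a
    exact ⟨n, C x, by simp⟩
  | add p q hp hq =>
    obtain ⟨m, p', rfl⟩ := hp
    obtain ⟨n, q', rfl⟩ := hq
    have key : ∀ (i j : ℕ) (h : i ≤ j) (r : MvPolynomial σ (E i).K),
        map (incl E φ i) r = map (incl E φ j) (map (tr E φ i j h) r) := by
      intro i j h r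
      rw [map_map]
      congr 1
      congr 1
      ext x
      exact (incl_tr E φ i j h x).symm
    refine ⟨max m n, map (tr E φ m _ (le_max_left _ _)) p' +
      map (tr E φ n _ (le_max_right _ _)) q', ?_⟩
    rw [key m (max m n) (le_max_left _ _), key n (max m n) (le_max_right _ _), map_add]
  | mul_X p v hp =>
    obtain ⟨n, p', rfl⟩ := hp
    exact ⟨n, p' * X v, by simp⟩

end

theorem jets_map {A B : Type} [CommRing A] [CommRing B] [DD A] [DD B] (ψ : A →+* B)
    (hψ : IsDD ψ) (y : A) (v : Unit × ℕ × ℕ) :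
    ψ (jets (fun _ : Unit => y) v) = jets (fun _ : Unit => ψ y) v := by
  obtain ⟨s, i, j⟩ := v
  unfold jets
  simp only
  have h2 : ∀ j, ψ ((DD.d2 : A →+ A)^[j] y) = (DD.d2 : B →+ B)^[j] (ψ y) := by
    intro j
    induction j with
    | zero => rfl
    | succ j ih => rw [Function.iterate_succ_apply', hψ.2, ih, Function.iterate_succ_apply']
  have h1 : ∀ i x, ψ ((DD.d1 : A →+ A)^[i] x) = (DD.d1 : B →+ B)^[i] (ψ x) := by
    intro i x
    induction i with
    | zero => rfl
    | succ i ih => rw [Function.iterate_succ_apply', hψ.1, ih, Function.iterate_succ_apply']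
  rw [h1, h2]

theorem main (E : ℕ → DF) (ψ : ∀ n, (E n).K →+* (E (n + 1)).K) (hψ : ∀ n, IsDD (ψ n))
    (hz : ∀ n, ∀ P : DP (E n).K Unit, P ∉ Set.range (C : (E n).K → DP (E n).K Unit) →
      ∃ y : (E (n + 1)).K, subst (ψ n) (fun _ : Unit => y) P = 0) :
    ∃ F : DF, DClosed F.K := by
  letI dd : DD (L E ψ) := limDD E ψ hψ
  have hincl : ∀ n, IsDD (incl E ψ n) := fun n => ⟨fun a => rfl, fun a => rfl⟩
  refine ⟨⟨L E ψ⟩, ?_⟩
  intro P hP
  obtain ⟨n, P', rfl⟩ := exists_stage E ψ P
  have hP' : P' ∉ Set.range (C : (E n).K → DP (E n).K Unit) := by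
    rintro ⟨a, rfl⟩
    exact hP ⟨incl E ψ n a, by simp⟩
  obtain ⟨y, hy⟩ := hz n P' hP'
  refine ⟨incl E ψ (n + 1) y, ?_⟩
  have h1 : incl E ψ (n + 1) (subst (ψ n) (fun _ : Unit => y) P') = 0 := by
    rw [hy, map_zero]
  rw [← h1, eval_map]
  unfold subst
  rw [coe_eval₂Hom, hom_eval₂]
  congr 1
  · ext x
    exact (incl_step E ψ n x).symm
  · funext v
    exact (jets_map (incl E ψ (n + 1)) (hincl (n + 1)) y v).symm

end Lim

/-- LIM. -/
theorem p_LIM : S_LIM := by
  intro hstep
  choose E' φ hφ hz using hstep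
  let E0 : DF :=
    { K := ℚ
      d :=
        { d1 := 0
          d2 := 0
          mul1 := fun a b => by simp
          mul2 := fun a b => by simp
          comm := fun a => rfl } }
  exact Lim.main (fun n => Nat.rec E0 (fun _ F => E' F) n) (fun n => φ _) (fun n => hφ _)
    (fun n => hz _)

end Run7.h432.AC
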