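import Pool.Agent.Run7.h432.AC.Stm2
import Pool.Agent.Run7.h432.AC.P_ANL

/-!
# Piece NEWT of project AC (helper432), by helper648
-/

set_option autoImplicit false

namespace Run7.h432.AC

open MvPolynomial Finset

namespace NEWT

section
variable {E : Type} [Field E] [CharZero E] [DD E]

theorem mp_id (x : MR E) : mp (RingHom.id E) (IsDD.id E) x = x :=
  MR.ext fun q => by rw [cf_mp]; rfl

theorem sup_id (hS : Sup) (f : Syn (MR E)) (x b : MR E) (r m : ℚ) (h : Ge m (gg f x r))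
    (hb : Ge r b) : Ge m (va f (x + b) - va f x) := by
  have h1 := hS E E (RingHom.id E) (IsDD.id E) f x r m h b hb
  have h2 : (fun a : MR E => a) = (mp (RingHom.id E) (IsDD.id E) : MR E → MR E) := by
    funext a; rw [mp_id]
  rw [mp_id, mp_id] at h1
  rw [va, h2]
  rw [va, h2] at h1
  exact h1

theorem subst_jC (y : E) (x : MR E) :
    mp (subst (RingHom.id E) (fun _ : Unit => y)) (subst_isDD _ (IsDD.id E) _)
      (jC E Unit x) = x :=
  MR.ext fun q => by
    rw [cf_mp, jC, cf_mp, subst_C]; rfl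

theorem subst_gg (f : Syn (MR E)) (x : MR E) (r : ℚ) (y : E) :
    mp (subst (RingHom.id E) (fun _ : Unit => y)) (subst_isDD _ (IsDD.id E) _) (gg f x r) =
      va f (x + mono r y) - va f x := by
  rw [gg, map_sub, Run7.h432.AC.ev_hom, map_add, mp_mono, subst_X, subst_jC, subst_jC]
  have h2 : (fun a : MR E => mp (subst (RingHom.id E) (fun _ : Unit => y))
      (subst_isDD _ (IsDD.id E) _) (jC E Unit a)) = fun a : MR E => a := by
    funext a; rw [subst_jC]
  rw [h2]; rfl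

end

end NEWT

open NEWT in
theorem p_NEWT : S_NEWT := by
  intro hS hP1 hP3 hR E _ _ _ hE f hne
  have hR' : ∀ (x : MR E) (ρ : ℚ), ∃ r : ℚ, Ge ρ (gg f x r) ∧ cf (gg f x r) ρ ≠ 0 ∧
    constantCoeff (cf (gg f x r) ρ) = 0 := hR E f hne
  choose R hR1 hR2 hR3 using hR'
  obtain ⟨x, hx⟩ := p_ANL E (fun x => (va f (⟨x⟩ : MR E)).s)
    (fun x => R ⟨x⟩ ((va f (⟨x⟩ : MR E)).s.order)) (fun x => (va f (⟨x⟩ : MR E)).s.order)
    (by
      intro x hx
      exact ⟨fun h => hx (HahnSeries.coeff_order_eq_zero.mp h),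
        fun q hq => HahnSeries.coeff_eq_zero_of_lt_order hq⟩)
    (by
      intro x z hx hz q hq
      have h1 := sup_id hS f ⟨x⟩ ⟨z⟩ _ _ (hR1 ⟨x⟩ ((va f (⟨x⟩ : MR E)).s.order)) hz q hq
      rw [cf_sub] at h1
      have h2 : cf (va f (⟨x⟩ : MR E)) q = 0 := HahnSeries.coeff_eq_zero_of_lt_order hq
      rw [h2, sub_zero] at h1
      exact h1)
    (by
      intro x hx
      set ρ := (va f (⟨x⟩ : MR E)).s.order with hρ
      set r := R ⟨x⟩ ρ with hr
      set P : DP E Unit := cf (gg f ⟨x⟩ r) ρ + C (cf (va f (⟨x⟩ : MR E)) ρ) with hP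
      have hPC : P ∉ Set.range (C : E → DP E Unit) := by
        rintro ⟨c, hc⟩
        have h1 : cf (gg f ⟨x⟩ r) ρ = C (c - cf (va f (⟨x⟩ : MR E)) ρ) := by
          rw [map_sub, hc, hP]; ring
        have h2 := hR3 ⟨x⟩ ρ
        rw [← hr, h1, constantCoeff_C] at h2
        rw [h2, map_zero] at h1
        exact hR2 ⟨x⟩ ρ h1
      obtain ⟨y, hy⟩ := hE P hPC
      refine ⟨y, fun q hq => ?_⟩
      have h1 := congrArg (fun w => cf w q) (subst_gg f ⟨x⟩ r y)
      simp only [cf_mp, cf_sub] at h1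
      change cf (va f (⟨x⟩ + mono r y)) q = 0
      rcases lt_or_eq_of_le hq with hq | hq
      · rw [hR1 ⟨x⟩ ρ q hq, map_zero] at h1
        have h2 : cf (va f (⟨x⟩ : MR E)) q = 0 := HahnSeries.coeff_eq_zero_of_lt_order hq
        rw [h2, sub_zero] at h1
        exact h1.symm
      · rw [hq] at h1 ⊢
        have h3 : subst (RingHom.id E) (fun _ : Unit => y) P = 0 := hy
        rw [hP, map_add, subst_C, h1] at h3
        simpa using h3)
    (by
      intro x z hx hxz hz hlow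
      set ρ := (va f (⟨x⟩ : MR E)).s.order with hρ
      set ρ' := (va f (⟨x + z⟩ : MR E)).s.order with hρ'
      by_contra hlt
      rw [not_le] at hlt
      have hρρ' : ρ < ρ' := by
        by_contra h
        rw [not_lt] at h
        exact hxz (HahnSeries.coeff_order_eq_zero.mp (hlow ρ' h))
      have h1 := hP1 E f ⟨x + z⟩ _ _ (R ⟨x⟩ ρ - R ⟨x + z⟩ ρ') (by linarith) (hR1 ⟨x + z⟩ ρ')
      have h2 : R ⟨x + z⟩ ρ' + (R ⟨x⟩ ρ - R ⟨x + z⟩ ρ') = R ⟨x⟩ ρ := by ring
      rw [h2] at h1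
      have h3 := hP3 E f ⟨x + z⟩ (-⟨z⟩) _ _ (by
        intro q hq
        rw [cf_neg]
        have : cf (⟨z⟩ : MR E) q = 0 := hz q hq
        rw [this, neg_zero]) h1
      have h4 : (⟨x + z⟩ : MR E) + -⟨z⟩ = ⟨x⟩ := by
        have : (⟨x + z⟩ : MR E) = ⟨x⟩ + ⟨z⟩ := rfl
        rw [this]; abel
      rw [h4] at h3
      exact hR2 ⟨x⟩ ρ (h3 ρ (by linarith)))
  exact ⟨⟨x⟩, MR.s_inj hx⟩

end Run7.h432.AC
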