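import Pool.Agent.Run7.h432.AC.Stm2

/-!
# Piece RAD of project AC (helper432), by helper648
-/

set_option autoImplicit false

namespace Run7.h432.AC

open MvPolynomial Finset

namespace RAD

section
variable {E : Type} [Field E] [CharZero E] [DD E]

theorem cf_sum {A : Type} [CommRing A] {ι : Type} (s : Finset ι) (g : ι → MR A) (q : ℚ) :
    cf (∑ i ∈ s, g i) q = ∑ i ∈ s, cf (g i) q := by
  classical
  induction s using Finset.induction_on with
  | empty => simp
  | insert a s ha ih => rw [Finset.sum_insert ha, Finset.sum_insert ha, cf_add, ih]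

/-- The homogeneous components of the coefficients. -/
theorem comp (f : Syn (MR E)) (x : MR E) (N : ℕ) (p : ℕ → MR (DP E Unit)) (hN : 1 ≤ N)
    (hz : ∀ n ≥ N, p n = 0) (hh : ∀ n q, (cf (p n) q).IsHomogeneous n)
    (h0 : p 0 = jC E Unit (va f x))
    (hs : ∀ r : ℚ, ev (jC E Unit) (jC E Unit x + mono r (X ((), 0, 0))) f =
      ∑ n ∈ Finset.range N, mono (n * r) 1 * p n) (r q : ℚ) :
    cf (gg f x r) q = ∑ n ∈ Finset.range (N - 1), cf (p (n + 1)) (q - ((n + 1 : ℕ) : ℚ) * r) ∧
    ∀ n : ℕ, homogeneousComponent n (cf (gg f x r) q) =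
      if n = 0 then 0 else cf (p n) (q - n * r) := by
  have h1 : cf (gg f x r) q =
      ∑ n ∈ Finset.range (N - 1), cf (p (n + 1)) (q - ((n + 1 : ℕ) : ℚ) * r) := by
    obtain ⟨M, rfl⟩ : ∃ M, N = M + 1 := ⟨N - 1, by omega⟩
    rw [gg, hs r, Finset.sum_range_succ', ← h0]
    simp only [Nat.add_sub_cancel, cf_sub, cf_add, cf_sum, cf_h_mul]
    simp
  refine ⟨h1, fun n => ?_⟩
  rw [h1, map_sum]
  by_cases hn : n = 0
  · subst hn
    rw [if_pos rfl]
    apply Finset.sum_eq_zero
    intro k _
    rw [homogeneousComponent_of_mem (hh _ _), if_neg (by omega)]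
  · rw [if_neg hn]
    by_cases hn2 : n < N
    · rw [Finset.sum_eq_single (n - 1)]
      · rw [homogeneousComponent_of_mem (hh _ _), if_pos (by omega)]
        have : n - 1 + 1 = n := by omega
        rw [this]
      · intro k _ hk
        rw [homogeneousComponent_of_mem (hh _ _), if_neg (by omega)]
      · intro hk
        exfalso; apply hk; rw [Finset.mem_range]; omega
    · rw [hz n (by omega), cf_zero]
      apply Finset.sum_eq_zero
      intro k hk
      rw [Finset.mem_range] at hk
      rw [homogeneousComponent_of_mem (hh _ _), if_neg (by omega)]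

theorem mr_ne {A : Type} [CommRing A] {x : MR A} (h : x ≠ 0) : x.s ≠ 0 :=
  fun h1 => h (MR.ext fun q => by
    change x.s.coeff q = (0 : HahnSeries ℚ A).coeff q
    rw [h1])

end

end RAD

open RAD in
theorem p_RAD : S_RAD := by
  intro hDEC hP3 E _ _ _ f hne
  -- vanishing for one `r` is vanishing for all `r`
  have key : ∀ (x : MR E) (r r' : ℚ), gg f x r = 0 → gg f x r' = 0 := by
    intro x r r' h
    obtain ⟨N, p, hN, hz, hh, h0, hs⟩ := hDEC E f x
    have hp : ∀ n q, 1 ≤ n → cf (p n) q = 0 := by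
      intro n q hn
      have h1 := (comp f x N p hN hz hh h0 hs r (q + n * r)).2 n
      rw [h, cf_zero, map_zero, if_neg (by omega)] at h1
      rw [h1]; congr 1; ring
    apply MR.ext
    intro q
    rw [(comp f x N p hN hz hh h0 hs r' q).1, cf_zero]
    exact Finset.sum_eq_zero fun k _ => hp _ _ (by omega)
  have hne2 : ∀ (x : MR E) (r : ℚ), gg f x r ≠ 0 := by
    intro x r h
    apply hne
    obtain ⟨r₁, hr₁⟩ := exists_Ge x
    have h1 := key x r r₁ h
    have h2 : ∀ m, Ge m (gg f (x + -x) r₁) := by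
      intro m
      apply hP3 E f x (-x) r₁ m
      · intro q hq; rw [cf_neg, hr₁ q hq, neg_zero]
      · intro q _; rw [h1, cf_zero]
    rw [add_neg_cancel] at h2
    apply key 0 r₁ 0
    apply MR.ext
    intro q
    rw [cf_zero]
    exact h2 (q + 1) q (by linarith)
  intro x ρ
  obtain ⟨N, p, hN, hz, hh, h0, hs⟩ := hDEC E f x
  have hc := comp f x N p hN hz hh h0 hs
  classical
  set J : Finset ℕ := (Finset.Ico 1 N).filter (fun n => p n ≠ 0) with hJ
  have hJne : J.Nonempty := by
    by_contra hJe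
    rw [Finset.not_nonempty_iff_eq_empty] at hJe
    apply hne2 x 0
    apply MR.ext
    intro q
    rw [(hc 0 q).1, cf_zero]
    apply Finset.sum_eq_zero
    intro k hk
    rw [Finset.mem_range] at hk
    have h1 : k + 1 ∉ J := by rw [hJe]; simp
    rw [hJ, Finset.mem_filter, Finset.mem_Ico] at h1
    have h2 : p (k + 1) = 0 := by
      by_contra h3
      exact h1 ⟨⟨by omega, by omega⟩, h3⟩
    rw [h2, cf_zero]
  obtain ⟨n₀, hn₀, hmax⟩ := Finset.exists_max_image J
    (fun n => (ρ - (p n).s.order) / (n : ℚ)) hJne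
  set r : ℚ := (ρ - (p n₀).s.order) / (n₀ : ℚ) with hr
  have hn₀' := hn₀
  rw [hJ, Finset.mem_filter, Finset.mem_Ico] at hn₀'
  have hn₀pos : (0 : ℚ) < n₀ := by
    have : 0 < n₀ := by omega
    exact_mod_cast this
  have hlow : ∀ q ≤ ρ, ∀ n : ℕ, 1 ≤ n → q - (n : ℚ) * r < (p n).s.order →
      cf (p n) (q - n * r) = 0 := by
    intro q _ n _ h
    exact HahnSeries.coeff_eq_zero_of_lt_order h
  have hge : ∀ n : ℕ, 1 ≤ n → p n ≠ 0 → ρ - (n : ℚ) * r ≤ (p n).s.order := by
    intro n hn hpn
    have hnN : n < N := by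
      by_contra h
      exact hpn (hz n (by omega))
    have h1 := hmax n (by rw [hJ, Finset.mem_filter, Finset.mem_Ico]; exact ⟨⟨hn, hnN⟩, hpn⟩)
    have hnpos : (0 : ℚ) < n := by exact_mod_cast hn
    have h3 : (ρ - (p n).s.order) / (n : ℚ) ≤ r := h1
    rw [div_le_iff₀ hnpos] at h3
    linarith
  refine ⟨r, ?_, ?_, ?_⟩
  · intro q hq
    rw [(hc r q).1]
    apply Finset.sum_eq_zero
    intro k _
    by_cases hpk : p (k + 1) = 0
    · rw [hpk, cf_zero]
    · apply hlow q hq.le (k + 1) (by omega)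
      have := hge (k + 1) (by omega) hpk
      linarith
  · intro h
    have h1 := (hc r ρ).2 n₀
    rw [h, map_zero, if_neg (show ¬ n₀ = 0 by omega)] at h1
    have h2 : ρ - (n₀ : ℚ) * r = (p n₀).s.order := by
      rw [hr]; field_simp; ring
    rw [h2] at h1
    exact (mr_ne hn₀'.2) (HahnSeries.coeff_order_eq_zero.mp h1.symm)
  · have h1 := (hc r ρ).2 0
    rw [if_pos rfl, homogeneousComponent_zero] at h1
    have h2 : coeff 0 (cf (gg f x r) ρ) = 0 := by
      have := congrArg (coeff 0) h1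
      simpa using this
    rw [← h2]; rfl

end Run7.h432.AC
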