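import Pool.Agent.Run7.h432.AC.Stm

/-!
# Piece REC (MP_4b1745_al): all derivatives of a differential polynomial vanish at a point
-/

set_option autoImplicit false

namespace Run7.h432.AC.REC

open MvPolynomial Run7.h432.AC

/-- the variables -/
abbrev V : Type := Unit × ℕ × ℕ

/-- the ranking -/
def lt (v w : V) : Prop :=
  v.2.1 + v.2.2 < w.2.1 + w.2.2 ∨ (v.2.1 + v.2.2 = w.2.1 + w.2.2 ∧ v.2.1 < w.2.1)

/-- a numerical form of the ranking -/
def rk (v : V) : ℕ := (v.2.1 + v.2.2) * (v.2.1 + v.2.2) + v.2.1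

lemma rk_lt {v w : V} (h : lt v w) : rk v < rk w := by
  unfold rk
  obtain ⟨_, i, j⟩ := v
  obtain ⟨_, k, l⟩ := w
  rcases h with h | ⟨h, h'⟩
  · simp only at h ⊢
    have h1 : i + j + 1 ≤ k + l := h
    have h2 : (i + j + 1) * (i + j + 1) ≤ (k + l) * (k + l) := Nat.mul_le_mul h1 h1
    nlinarith
  · simp only at h h' ⊢
    rw [h]
    omega

lemma lt_total (v w : V) : lt v w ∨ v = w ∨ lt w v := by
  obtain ⟨_, i, j⟩ := v
  obtain ⟨_, k, l⟩ := w
  unfold lt
  simp only [Prod.mk.injEq, true_and]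
  omega

lemma lt_wf : WellFounded lt :=
  Subrelation.wf (fun {_ _} h => rk_lt h) (measure rk).wf

lemma lt_irrefl (v : V) : ¬ lt v v := fun h => Nat.lt_irrefl _ (rk_lt h)

lemma lt_trans {u v w : V} (h : lt u v) (h' : lt v w) : lt u w := by
  unfold lt at *
  omega

/-- the first shift -/
def s1 (v : V) : V := (v.1, v.2.1 + 1, v.2.2)

/-- the second shift -/
def s2 (v : V) : V := (v.1, v.2.1, v.2.2 + 1)

/-- the variable `θ + α` -/
def sv (θ : V) (i j : ℕ) : V := ((), θ.2.1 + i, θ.2.2 + j)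

lemma s1_sv (θ : V) (i j : ℕ) : s1 (sv θ i j) = sv θ (i + 1) j := rfl

lemma s2_sv (θ : V) (i j : ℕ) : s2 (sv θ i j) = sv θ i (j + 1) := rfl

lemma s1_eq (θ : V) : s1 θ = sv θ 1 0 := rfl

lemma s2_eq (θ : V) : s2 θ = sv θ 0 1 := rfl

section alg

variable {E : Type} [Field E]

/-- the polynomials in the variables below `ρ` -/
noncomputable def Low (E : Type) [Field E] (ρ : V) : Subalgebra E (DP E Unit) := supported E {σ | lt σ ρ}

/-- the polynomials in the variables up to `ρ` -/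
noncomputable def Le (E : Type) [Field E] (ρ : V) : Subalgebra E (DP E Unit) := supported E {σ | lt σ ρ ∨ σ = ρ}

lemma Low_mono {ρ ρ' : V} (h : lt ρ ρ') : Low E ρ ≤ Low E ρ' :=
  supported_mono fun _ hσ => lt_trans hσ h

lemma Le_low {ρ ρ' : V} (h : lt ρ ρ') : Le E ρ ≤ Low E ρ' :=
  supported_mono fun σ hσ => by
    rcases hσ with hσ | hσ
    · exact lt_trans hσ h
    · rw [hσ]; exact h

lemma X_low {σ ρ : V} (h : lt σ ρ) : (X σ : DP E Unit) ∈ Low E ρ :=
  Algebra.subset_adjoin ⟨σ, h, rfl⟩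

lemma pderiv_le {θ : V} {A : DP E Unit} (hA : A ∈ Le E θ) : pderiv θ A ∈ Le E θ := by
  unfold Le supported at hA ⊢
  induction hA using Algebra.adjoin_induction with
  | mem y hy =>
    obtain ⟨σ, hσ, rfl⟩ := hy
    by_cases h : σ = θ
    · subst h
      rw [pderiv_X_self]
      exact Subalgebra.one_mem _
    · rw [pderiv_X_of_ne h]
      exact Subalgebra.zero_mem _
  | algebraMap r =>
    change pderiv θ (C r) ∈ _
    rw [pderiv_C]
    exact Subalgebra.zero_mem _
  | add a b _ _ ha hb => rw [map_add]; exact Subalgebra.add_mem _ ha hb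
  | mul a b ha' hb' ha hb =>
    rw [pderiv_mul]
    exact Subalgebra.add_mem _ (Subalgebra.mul_mem _ ha hb') (Subalgebra.mul_mem _ ha' hb)

variable [DD E]

/-- a derivation which shifts the variables -/
structure Sh (D : DP E Unit →+ DP E Unit) (sh : V → V) : Prop where
  der : IsDer D
  C : ∀ a : E, ∃ b : E, D (MvPolynomial.C a) = MvPolynomial.C b
  X : ∀ v, D (MvPolynomial.X v) = MvPolynomial.X (sh v)
  mono : ∀ v w, lt v w → lt (sh v) (sh w)
  up : ∀ v, lt v (sh v)

variable {D : DP E Unit →+ DP E Unit} {sh : V → V}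

lemma Sh.low (h : Sh D sh) {ρ : V} {Q : DP E Unit} (hQ : Q ∈ Low E ρ) : D Q ∈ Low E (sh ρ) := by
  have key : D Q ∈ Low E (sh ρ) := by
    unfold Low supported at hQ
    induction hQ using Algebra.adjoin_induction with
    | mem y hy =>
      obtain ⟨σ, hσ, rfl⟩ := hy
      rw [h.X]
      exact X_low (h.mono _ _ hσ)
    | algebraMap r =>
      obtain ⟨b, hb⟩ := h.C r
      change D (MvPolynomial.C r) ∈ _
      rw [hb]
      exact (Low E (sh ρ)).algebraMap_mem b
    | add a b _ _ ha hb => rw [map_add]; exact Subalgebra.add_mem _ ha hb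
    | mul a b ha' hb' ha hb =>
      rw [h.der]
      exact Subalgebra.add_mem _ (Subalgebra.mul_mem _ (Low_mono (h.up ρ) ha') hb)
        (Subalgebra.mul_mem _ (Low_mono (h.up ρ) hb') ha)
  exact key

lemma Sh.first (h : Sh D sh) {θ : V} {Q : DP E Unit} (hQ : Q ∈ Le E θ) :
    D Q - pderiv θ Q * MvPolynomial.X (sh θ) ∈ Low E (sh θ) := by
  unfold Le supported at hQ
  induction hQ using Algebra.adjoin_induction with
  | mem y hy =>
    obtain ⟨σ, hσ, rfl⟩ := hy
    rw [h.X]
    by_cases hσθ : σ = θ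
    · subst hσθ
      rw [pderiv_X_self, one_mul, sub_self]
      exact Subalgebra.zero_mem _
    · rw [pderiv_X_of_ne hσθ, zero_mul, sub_zero]
      rcases hσ with hσ | hσ
      · exact X_low (h.mono _ _ hσ)
      · exact absurd hσ hσθ
  | algebraMap r =>
    obtain ⟨b, hb⟩ := h.C r
    change D (MvPolynomial.C r) - pderiv θ (MvPolynomial.C r) * _ ∈ _
    rw [hb, pderiv_C, zero_mul, sub_zero]
    exact (Low E (sh θ)).algebraMap_mem b
  | add a b _ _ ha hb =>
    have e : D (a + b) - pderiv θ (a + b) * MvPolynomial.X (sh θ) =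
        (D a - pderiv θ a * MvPolynomial.X (sh θ)) + (D b - pderiv θ b * MvPolynomial.X (sh θ)) := by
      rw [map_add, map_add]; ring
    rw [e]
    exact Subalgebra.add_mem _ ha hb
  | mul a b ha' hb' ha hb =>
    have e : D (a * b) - pderiv θ (a * b) * MvPolynomial.X (sh θ) =
        a * (D b - pderiv θ b * MvPolynomial.X (sh θ)) +
          b * (D a - pderiv θ a * MvPolynomial.X (sh θ)) := by
      rw [h.der, pderiv_mul]; ring
    rw [e]
    exact Subalgebra.add_mem _ (Subalgebra.mul_mem _ (Le_low (h.up θ) ha') hb)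
      (Subalgebra.mul_mem _ (Le_low (h.up θ) hb') ha)

lemma Sh.next (h : Sh D sh) {θ ρ : V} (hθρ : lt θ ρ) {S Q : DP E Unit} (hS : S ∈ Le E θ)
    (hQ : Q - S * MvPolynomial.X ρ ∈ Low E ρ) :
    D Q - S * MvPolynomial.X (sh ρ) ∈ Low E (sh ρ) := by
  have e : D Q - S * MvPolynomial.X (sh ρ) =
      MvPolynomial.X ρ * D S + D (Q - S * MvPolynomial.X ρ) := by
    have e1 : Q = S * MvPolynomial.X ρ + (Q - S * MvPolynomial.X ρ) := by ring
    have e2 : D Q = D (S * MvPolynomial.X ρ) + D (Q - S * MvPolynomial.X ρ) := by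
      rw [← map_add, ← e1]
    rw [e2, h.der, h.X]
    ring
  rw [e]
  exact Subalgebra.add_mem _ (Subalgebra.mul_mem _ (X_low (h.up ρ)) (h.low (Le_low hθρ hS))) (h.low hQ)

lemma sh1 : Sh (E := E) (DD.d1 : DP E Unit →+ DP E Unit) s1 where
  der := DD.mul1
  C a := ⟨DD.d1 a, dp_d1_C a⟩
  X v := by obtain ⟨s, i, j⟩ := v; exact dp_d1_X s i j
  mono v w h := by unfold s1 lt at *; simp only; omega
  up v := by unfold s1 lt; simp only; omega

lemma sh2 : Sh (E := E) (DD.d2 : DP E Unit →+ DP E Unit) s2 where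
  der := DD.mul2
  C a := ⟨DD.d2 a, dp_d2_C a⟩
  X v := by obtain ⟨s, i, j⟩ := v; exact dp_d2_X s i j
  mono v w h := by unfold s2 lt at *; simp only; omega
  up v := by unfold s2 lt; simp only; omega

/-- the derivatives of `A` -/
theorem deriv_low {A : DP E Unit} {θ : V} (hA : A ∈ Le E θ) (hS : pderiv θ A ∈ Le E θ) (i j : ℕ)
    (hij : 0 < i + j) :
    (DD.d1 : DP E Unit →+ DP E Unit)^[i] ((DD.d2 : DP E Unit →+ DP E Unit)^[j] A) -
      pderiv θ A * X (sv θ i j) ∈ Low E (sv θ i j) := by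
  have hlt : ∀ i j : ℕ, 0 < i + j → lt θ (sv θ i j) := by
    intro i j h
    unfold lt sv
    simp only
    omega
  have h0 : ∀ j : ℕ, 0 < j → (DD.d2 : DP E Unit →+ DP E Unit)^[j] A -
      pderiv θ A * X (sv θ 0 j) ∈ Low E (sv θ 0 j) := by
    intro j
    induction j with
    | zero => intro h; omega
    | succ j ih =>
      intro _
      rw [Function.iterate_succ_apply']
      rcases Nat.eq_zero_or_pos j with hj | hj
      · subst hj
        have h := sh2.first hA
        rw [s2_eq] at h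
        rw [Function.iterate_zero_apply]
        exact h
      · have h := sh2.next (hlt 0 j (by omega)) hS (ih hj)
        rw [s2_sv] at h
        exact h
  induction i with
  | zero =>
    rw [Function.iterate_zero_apply]
    exact h0 j (by omega)
  | succ i ih =>
    rw [Function.iterate_succ_apply']
    rcases Nat.eq_zero_or_pos (i + j) with h | h
    · obtain ⟨rfl, rfl⟩ : i = 0 ∧ j = 0 := by omega
      have h := sh1.first hA
      rw [s1_eq] at h
      rw [Function.iterate_zero_apply, Function.iterate_zero_apply]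
      exact h
    · have h' := sh1.next (hlt i j h) hS (ih h)
      rw [s1_sv] at h'
      exact h'

end alg

section eval

variable {E L : Type} [Field E] [Field L] (ι : E →+* L)

lemma eval_congr {c c' : V → L} {s : Set V} {Q : DP E Unit} (hQ : Q ∈ supported E s)
    (h : ∀ σ ∈ s, c σ = c' σ) : eval₂ ι c Q = eval₂ ι c' Q := by
  have hv := mem_supported.1 hQ
  exact eval₂Hom_congr' (f₁ := ι) (f₂ := ι) rfl (fun σ hσ _ => h σ (hv hσ)) rfl

end eval

theorem p_REC : S_REC := by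
  classical
  intro E L _ _ _ _ ι A hA hc
  obtain ⟨θ, hθ, hmax⟩ := Finset.exists_max_image A.vars rk hA
  obtain ⟨c0, hc0, hc0'⟩ := hc θ hθ
  have hAle : A ∈ Le E θ := by
    refine mem_supported.2 fun σ hσ => ?_
    rcases lt_total σ θ with h | h | h
    · exact Or.inl h
    · exact Or.inr h
    · exact absurd (rk_lt h) (not_lt.2 (hmax σ hσ))
  have hSle : pderiv θ A ∈ Le E θ := pderiv_le hAle
  set S : DP E Unit := pderiv θ A with hSdef
  -- the remainders
  let Rm : V → DP E Unit := fun ρ =>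
    (DD.d1 : DP E Unit →+ DP E Unit)^[ρ.2.1 - θ.2.1]
      ((DD.d2 : DP E Unit →+ DP E Unit)^[ρ.2.2 - θ.2.2] A) - S * X ρ
  let Dv : V → Prop := fun ρ => θ.2.1 ≤ ρ.2.1 ∧ θ.2.2 ≤ ρ.2.2 ∧ ρ ≠ θ
  let G : (ρ : V) → ((σ : V) → lt σ ρ → L) → L := fun ρ prev =>
    if Dv ρ then -(eval₂ ι (fun σ => if h : lt σ ρ then prev σ h else 0) (Rm ρ)) / eval₂ ι c0 S
    else c0 ρ
  let c : V → L := lt_wf.fix G
  have hcG : ∀ ρ, c ρ = G ρ fun σ _ => c σ := fun ρ => lt_wf.fix_eq G ρ
  have hcn : ∀ ρ, ¬ Dv ρ → c ρ = c0 ρ := fun ρ h => by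
    rw [hcG]
    exact if_neg h
  have hlow : ∀ σ ∈ {σ | lt σ θ ∨ σ = θ}, c σ = c0 σ := by
    intro σ hσ
    apply hcn
    rintro ⟨h1, h2, h3⟩
    rcases hσ with h | h
    · unfold lt at h
      omega
    · exact h3 h
  have hAc : eval₂ ι c A = 0 := by
    rw [eval_congr ι hAle hlow, hc0]
  have hSc : eval₂ ι c S = eval₂ ι c0 S := eval_congr ι hSle hlow
  refine ⟨c, fun i j => ?_⟩
  rcases Nat.eq_zero_or_pos (i + j) with h | h
  · obtain ⟨rfl, rfl⟩ : i = 0 ∧ j = 0 := by omega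
    exact hAc
  · set ρ : V := sv θ i j with hρ
    have h1 := deriv_low hAle hSle i j h
    have hD : Dv ρ := by
      refine ⟨Nat.le_add_right _ _, Nat.le_add_right _ _, fun h2 => ?_⟩
      have h3 : θ.2.1 + i = θ.2.1 := congrArg (fun v : V => v.2.1) h2
      have h4 : θ.2.2 + j = θ.2.2 := congrArg (fun v : V => v.2.2) h2
      omega
    have hRm : Rm ρ = (DD.d1 : DP E Unit →+ DP E Unit)^[i]
        ((DD.d2 : DP E Unit →+ DP E Unit)^[j] A) - S * X ρ := by
      change (DD.d1 : DP E Unit →+ DP E Unit)^[θ.2.1 + i - θ.2.1]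
        ((DD.d2 : DP E Unit →+ DP E Unit)^[θ.2.2 + j - θ.2.2] A) - S * X ρ = _
      rw [Nat.add_sub_cancel_left, Nat.add_sub_cancel_left]
    have h2 : c ρ = -(eval₂ ι c (Rm ρ)) / eval₂ ι c0 S := by
      rw [hcG]
      change (if Dv ρ then -(eval₂ ι (fun σ => if h : lt σ ρ then c σ else 0) (Rm ρ)) / eval₂ ι c0 S
        else c0 ρ) = _
      rw [if_pos hD]
      congr 2
      refine eval_congr ι (s := {σ | lt σ ρ}) (by rw [hRm]; exact h1) fun σ hσ => ?_
      exact dif_pos hσ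
    have h3 : (DD.d1 : DP E Unit →+ DP E Unit)^[i] ((DD.d2 : DP E Unit →+ DP E Unit)^[j] A) =
        Rm ρ + S * X ρ := by rw [hRm]; ring
    rw [h3, eval₂_add, eval₂_mul, eval₂_X, h2, hSc, mul_div_cancel₀ _ hc0']
    ring

end Run7.h432.AC.REC
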