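import Pool.Agent.Run7.h432.AC.P_FIN

/-!
# MP_4b1745_al, pieces SUP and P1 (helper847)
-/

set_option autoImplicit false

namespace Run7.h432.AC

open MvPolynomial TensorProduct

theorem jets_X {E : Type} [CommRing E] [DD E] {S : Type} (s : S) (i j : ℕ) :
    (DD.d1 : DP E S →+ DP E S)^[i] ((DD.d2 : DP E S →+ DP E S)^[j] (X (s, 0, 0))) =
      X (s, i, j) := by
  have h1 : (DD.d2 : DP E S →+ DP E S)^[j] (X (s, 0, 0)) = X (s, 0, j) := by
    induction j with
    | zero => rfl
    | succ j ih => rw [Function.iterate_succ_apply', ih, dp_d2_X]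
  rw [h1]
  induction i with
  | zero => rfl
  | succ i ih => rw [Function.iterate_succ_apply', ih, dp_d1_X]

theorem p_SUP : S_SUP := by
  classical
  intro hFIN E _ _ _ A' _ _ _ i hi f x r m h b hb
  -- the generic series
  let S : Type := {s : ℚ // s ∈ b.s.support}
  let yh : MR (DP E S) := ⟨{
    coeff := fun q => if hq : q ∈ b.s.support then X ((⟨q, hq⟩ : S), 0, 0) else 0
    isPWO_support' := b.s.isPWO_support.mono fun q hq => by
      by_contra hcon
      exact hq (dif_neg hcon) }⟩
  have hyh : ∀ q : ℚ, cf yh q = if hq : q ∈ b.s.support then X ((⟨q, hq⟩ : S), 0, 0) else 0 :=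
    fun q => rfl
  have hbs : ∀ q : ℚ, q ∉ b.s.support → cf b q = 0 := fun q hq => by
    by_contra hcon
    exact hq hcon
  set D : MR (DP E S) := ev (jC E S) (jC E S x + yh) f - jC E S (va f x) with hD
  -- the generic statement
  have hDm : Ge m D := by
    intro q hq
    set c := cf D q with hc
    set F : Finset S := c.vars.image Prod.fst with hF
    set y : S → DP E S := fun s => if s ∈ F then X (s, 0, 0) else 0 with hy
    set κ : DP E S →+* DP E S := subst C y with hκ
    have hκD : IsDD κ := subst_isDD C (C_isDD E S) y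
    have hκc : κ c = c := by
      have h1 : eval₂Hom C (jets y) c = eval₂Hom C X c := by
        refine eval₂Hom_congr' rfl (fun v hv _ => ?_) rfl
        obtain ⟨s, i', j'⟩ := v
        have hs : s ∈ F := Finset.mem_image.2 ⟨_, hv, rfl⟩
        show (DD.d1 : DP E S →+ DP E S)^[i'] ((DD.d2 : DP E S →+ DP E S)^[j'] (y s)) = _
        rw [hy]
        simp only
        rw [if_pos hs, jets_X]
      rw [hκ]
      show eval₂Hom C (jets y) c = c
      rw [h1]
      exact eval₂_eta c
    have hyF : mp κ hκD yh = ∑ s ∈ F, mono s.1 (X (s, 0, 0)) := by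
      refine MR.ext fun q' => ?_
      have hcfsum : ∀ (G : Finset S) (g : S → MR (DP E S)),
          cf (∑ s ∈ G, g s) q' = ∑ s ∈ G, cf (g s) q' := by
        intro G g
        induction G using Finset.induction_on with
        | empty => simp
        | insert s G hs ih => rw [Finset.sum_insert hs, Finset.sum_insert hs, cf_add, ih]
      rw [cf_mp, hcfsum, hyh]
      by_cases hq' : q' ∈ b.s.support
      · rw [dif_pos hq', hκ, subst_X, hy]
        simp only
        by_cases hs : (⟨q', hq'⟩ : S) ∈ F
        · rw [if_pos hs, Finset.sum_eq_single (⟨q', hq'⟩ : S)]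
          · rw [cf_mono, if_pos rfl]
          · intro s _ hne
            rw [cf_mono, if_neg]
            intro heq
            exact hne (Subtype.ext heq.symm)
          · intro hcon
            exact absurd hs hcon
        · rw [if_neg hs, Finset.sum_eq_zero]
          intro s hsF
          rw [cf_mono, if_neg]
          intro heq
          apply hs
          have : (⟨q', hq'⟩ : S) = s := Subtype.ext heq
          rw [this]
          exact hsF
      · rw [dif_neg hq', map_zero, Finset.sum_eq_zero]
        intro s _
        rw [cf_mono, if_neg]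
        intro heq
        apply hq'
        rw [heq]
        exact s.2
    have hj : ∀ a : MR E, mp κ hκD (jC E S a) = jC E S a := fun a =>
      mp_comp_jC S C (C_isDD E S) y a
    have hj' : (fun a => mp κ hκD (jC E S a)) = (jC E S : MR E → MR (DP E S)) := funext hj
    have h2 : mp κ hκD D = ev (jC E S) (jC E S x + ∑ s ∈ F, mono s.1 (X (s, 0, 0))) f -
        jC E S (va f x) := by
      rw [hD, map_sub, ev_hom, map_add, hj, hj, hj', hyF]
    have h3 := hFIN E f x r m h S F (fun s => s.1) (fun s _ => by
      by_contra hcon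
      push Not at hcon
      exact s.2 (hb s.1 hcon))
    have h4 := h3 q hq
    rw [← h2, cf_mp, ← hc, hκc] at h4
    exact h4
  -- specialise
  set φ : DP E S →+* A' := subst i (fun s : S => cf b s.1) with hφ
  have hφD : IsDD φ := subst_isDD i hi _
  have hj : ∀ a : MR E, mp φ hφD (jC E S a) = mp i hi a := fun a =>
    mp_comp_jC S i hi _ a
  have hj' : (fun a => mp φ hφD (jC E S a)) = (mp i hi : MR E → MR A') := funext hj
  have hyb : mp φ hφD yh = b := by
    refine MR.ext fun q => ?_
    rw [cf_mp, hyh]
    by_cases hq : q ∈ b.s.support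
    · rw [dif_pos hq, hφ, subst_X]
    · rw [dif_neg hq, map_zero, hbs q hq]
  have h5 : mp φ hφD D = ev (mp i hi) (mp i hi x + b) f - mp i hi (va f x) := by
    rw [hD, map_sub, ev_hom, map_add, hj, hj, hj', hyb]
  rw [← h5]
  exact hDm.mp hφD

theorem p_P1 : S_P1 := by
  classical
  intro hDEC E _ _ _ f x r m δ hδ h
  obtain ⟨N, p, hN, -, hhom, hp0, hp⟩ := hDEC E f x
  have hgg : ∀ (r q : ℚ), cf (gg f x r) q =
      ∑ n ∈ (Finset.range N).erase 0, cf (p n) (q - n * r) := by
    intro r q
    have hcfsum : ∀ (G : Finset ℕ) (g : ℕ → MR (DP E Unit)),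
        cf (∑ s ∈ G, g s) q = ∑ s ∈ G, cf (g s) q := by
      intro G g
      induction G using Finset.induction_on with
      | empty => simp
      | insert s G hs ih => rw [Finset.sum_insert hs, Finset.sum_insert hs, cf_add, ih]
    unfold gg
    rw [hp r, ← hp0, cf_sub, hcfsum, ← Finset.add_sum_erase _ _ (Finset.mem_range.2 hN)]
    have e0 : cf (mono (((0 : ℕ) : ℚ) * r) 1 * p 0) q = cf (p 0) q := by
      rw [cf_h_mul]; simp
    rw [e0, add_sub_cancel_left]
    exact Finset.sum_congr rfl fun n _ => cf_h_mul _ _ _
  have key : ∀ q < m, ∀ n ∈ (Finset.range N).erase 0, cf (p n) (q - n * r) = 0 := by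
    intro q hq n hn
    have h1 := h q hq
    rw [hgg] at h1
    have h2 := congrArg (homogeneousComponent n) h1
    rw [map_sum, map_zero, Finset.sum_eq_single n] at h2
    · rw [homogeneousComponent_of_mem ((mem_homogeneousSubmodule _ _).2 (hhom n _)),
        if_pos rfl] at h2
      exact h2
    · intro n' _ hne
      rw [homogeneousComponent_of_mem ((mem_homogeneousSubmodule _ _).2 (hhom n' _)),
        if_neg (Ne.symm hne)]
    · intro hcon
      exact absurd hn hcon
  intro q hq
  rw [hgg]
  refine Finset.sum_eq_zero fun n hn => ?_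
  have hn1 : (1 : ℚ) ≤ n := by
    have : n ≠ 0 := (Finset.mem_erase.1 hn).1
    exact_mod_cast Nat.one_le_iff_ne_zero.2 this
  have h3 : q - n * (r + δ) = (q - n * δ) - n * r := by ring
  rw [h3]
  refine key _ ?_ n hn
  nlinarith

end Run7.h432.AC
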