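import Mathlib

/-!
# Differential rings with two commuting derivations, differential polynomials
-/

set_option autoImplicit false

namespace Run7.h432.AC

open MvPolynomial TensorProduct

/-- The Leibniz rule. -/
def IsDer {A : Type*} [CommRing A] (d : A →+ A) : Prop :=
  ∀ a b, d (a * b) = a * d b + b * d a

/-- A commutative ring with two commuting derivations. -/
class DD (A : Type*) [CommRing A] where
  d1 : A →+ A
  d2 : A →+ A
  mul1 : IsDer d1
  mul2 : IsDer d2
  comm : ∀ a, d1 (d2 a) = d2 (d1 a)

/-- `φ` commutes with the two derivations. -/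
def IsDD {A B : Type*} [CommRing A] [CommRing B] [DD A] [DD B] (φ : A →+* B) : Prop :=
  (∀ a, φ (DD.d1 a) = DD.d1 (φ a)) ∧ (∀ a, φ (DD.d2 a) = DD.d2 (φ a))

theorem IsDD.comp {A B C : Type*} [CommRing A] [CommRing B] [CommRing C] [DD A] [DD B] [DD C]
    {φ : A →+* B} {ψ : B →+* C} (h' : IsDD ψ) (h : IsDD φ) : IsDD (ψ.comp φ) :=
  ⟨fun a => by simp [h.1, h'.1], fun a => by simp [h.2, h'.2]⟩

theorem IsDD.id (A : Type*) [CommRing A] [DD A] : IsDD (RingHom.id A) :=
  ⟨fun _ => rfl, fun _ => rfl⟩

/-- The derivation given by a ring homomorphism `b ↦ b + d(b) ε` to the dual numbers. -/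
noncomputable def ofDual {B : Type*} [CommRing B] (Φ : B →+* TrivSqZeroExt B B) : B →+ B where
  toFun := fun b => (Φ b).snd
  map_zero' := by simp
  map_add' := fun a b => by simp

theorem ofDual_der {B : Type*} [CommRing B] (Φ : B →+* TrivSqZeroExt B B)
    (h : ∀ b, (Φ b).fst = b) : IsDer (ofDual Φ) := by
  intro a b
  change (Φ (a * b)).snd = a * (Φ b).snd + b * (Φ a).snd
  rw [map_mul, TrivSqZeroExt.snd_mul, h, h]
  simp [mul_comm]

theorem ofDual_apply {B : Type*} [CommRing B] (Φ : B →+* TrivSqZeroExt B B)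
    (b : B) : ofDual Φ b = (Φ b).snd := rfl

/-- The ring homomorphism `a ↦ j(a) + j(d a) ε`. -/
noncomputable def toDual {A B : Type*} [CommRing A] [CommRing B] (j : A →+* B)
    (d : A →+ A) (hd : IsDer d) : A →+* TrivSqZeroExt B B where
  toFun a := TrivSqZeroExt.inl (j a) + TrivSqZeroExt.inr (j (d a))
  map_one' := by
    have h := hd 1 1
    have h1 : d 1 = 0 := by simpa using h
    simp [h1]
  map_zero' := by simp
  map_add' a b := by
    rw [map_add, map_add, map_add, TrivSqZeroExt.inl_add, TrivSqZeroExt.inr_add]; abel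
  map_mul' a b := by
    ext
    · simp
    · simp [hd a b]; ring

theorem toDual_fst {A B : Type*} [CommRing A] [CommRing B] (j : A →+* B)
    (d : A →+ A) (hd : IsDer d) (a : A) : (toDual j d hd a).fst = j a := by
  change (TrivSqZeroExt.inl (j a) + TrivSqZeroExt.inr (j (d a)) : TrivSqZeroExt B B).fst = _
  simp

theorem toDual_snd {A B : Type*} [CommRing A] [CommRing B] (j : A →+* B)
    (d : A →+ A) (hd : IsDer d) (a : A) : (toDual j d hd a).snd = j (d a) := by
  change (TrivSqZeroExt.inl (j a) + TrivSqZeroExt.inr (j (d a)) : TrivSqZeroExt B B).snd = _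
  simp

/-! ## Differential polynomials -/

/-- Differential polynomials over `A` in the unknowns `y_s` (`s ∈ S`); the variable `(s, i, j)`
stands for `d1^i d2^j y_s`. -/
abbrev DP (A : Type*) [CommRing A] (S : Type*) : Type _ := MvPolynomial (S × ℕ × ℕ) A

section dp
variable {A : Type*} [CommRing A] {σ : Type*}

/-- A derivation `d` of `A` and a self-map `nx` of the variables give a derivation. -/
noncomputable def dpHom (d : A →+ A) (hd : IsDer d) (nx : σ → σ) :
    MvPolynomial σ A →+* TrivSqZeroExt (MvPolynomial σ A) (MvPolynomial σ A) :=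
  eval₂Hom (toDual C d hd) (fun v => TrivSqZeroExt.inl (X v) + TrivSqZeroExt.inr (X (nx v)))

theorem dpHom_C (d : A →+ A) (hd : IsDer d) (nx : σ → σ) (a : A) :
    dpHom d hd nx (C a) = toDual C d hd a := eval₂Hom_C _ _ _

theorem dpHom_X (d : A →+ A) (hd : IsDer d) (nx : σ → σ) (v : σ) :
    dpHom d hd nx (X v) = TrivSqZeroExt.inl (X v) + TrivSqZeroExt.inr (X (nx v)) :=
  eval₂Hom_X' _ _ _

theorem dpHom_fst (d : A →+ A) (hd : IsDer d) (nx : σ → σ) (P : MvPolynomial σ A) :
    (dpHom d hd nx P).fst = P := by
  induction P using MvPolynomial.induction_on with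
  | C a => rw [dpHom_C, toDual_fst]
  | add p q hp hq => rw [map_add, TrivSqZeroExt.fst_add, hp, hq]
  | mul_X p n hp => rw [map_mul, TrivSqZeroExt.fst_mul, hp, dpHom_X]; simp

/-- The derivation of `MvPolynomial σ A` extending `d` with `X v ↦ X (nx v)`. -/
noncomputable def dpDer (d : A →+ A) (hd : IsDer d) (nx : σ → σ) :
    MvPolynomial σ A →+ MvPolynomial σ A :=
  ofDual (dpHom d hd nx)

theorem dpDer_der (d : A →+ A) (hd : IsDer d) (nx : σ → σ) : IsDer (dpDer d hd nx) :=
  ofDual_der _ (dpHom_fst d hd nx)

@[simp] theorem dpDer_C (d : A →+ A) (hd : IsDer d) (nx : σ → σ) (a : A) :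
    dpDer d hd nx (C a) = C (d a) := by rw [dpDer, ofDual_apply, dpHom_C, toDual_snd]

@[simp] theorem dpDer_X (d : A →+ A) (hd : IsDer d) (nx : σ → σ) (v : σ) :
    dpDer d hd nx (X v) = X (nx v) := by
  rw [dpDer, ofDual_apply, dpHom_X]; simp

/-- Two derivations which commute on the generators commute. -/
theorem der_comm (D D' : MvPolynomial σ A →+ MvPolynomial σ A) (h : IsDer D) (h' : IsDer D')
    (hC : ∀ a, D (D' (C a)) = D' (D (C a))) (hX : ∀ v, D (D' (X v)) = D' (D (X v)))
    (P : MvPolynomial σ A) : D (D' P) = D' (D P) := by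
  induction P using MvPolynomial.induction_on with
  | C a => exact hC a
  | add p q hp hq => simp only [map_add, hp, hq]
  | mul_X p n hp =>
    rw [h' p (X n), h p (X n), map_add, map_add, h p, h (X n), h' p, h' (X n), hp, hX]
    ring

variable {S : Type*} [DD A]

noncomputable instance : DD (DP A S) where
  d1 := dpDer DD.d1 DD.mul1 (fun v => (v.1, v.2.1 + 1, v.2.2))
  d2 := dpDer DD.d2 DD.mul2 (fun v => (v.1, v.2.1, v.2.2 + 1))
  mul1 := dpDer_der _ _ _
  mul2 := dpDer_der _ _ _
  comm P := by
    apply der_comm _ _ (dpDer_der _ _ _) (dpDer_der _ _ _)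
    · intro a; simp [DD.comm]
    · intro v; simp

@[simp] theorem dp_d1_C (a : A) : DD.d1 (C a : DP A S) = C (DD.d1 a) := dpDer_C _ _ _ _
@[simp] theorem dp_d2_C (a : A) : DD.d2 (C a : DP A S) = C (DD.d2 a) := dpDer_C _ _ _ _
@[simp] theorem dp_d1_X (s : S) (i j : ℕ) :
    DD.d1 (X (s, i, j) : DP A S) = X (s, i + 1, j) := dpDer_X _ _ _ _
@[simp] theorem dp_d2_X (s : S) (i j : ℕ) :
    DD.d2 (X (s, i, j) : DP A S) = X (s, i, j + 1) := dpDer_X _ _ _ _

end dp

/-- The jets of a family of elements: `(s, i, j) ↦ d1^i d2^j y_s`. -/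
def jets {A : Type*} [CommRing A] [DD A] {S : Type*} (y : S → A) : S × ℕ × ℕ → A :=
  fun v => (DD.d1 : A →+ A)^[v.2.1] ((DD.d2 : A →+ A)^[v.2.2] (y v.1))

/-- Every nonconstant differential polynomial in one unknown has a zero. -/
def DClosed (E : Type*) [Field E] [DD E] : Prop :=
  ∀ P : DP E Unit, P ∉ Set.range (C : E → DP E Unit) →
    ∃ y : E, eval (jets (fun _ : Unit => y)) P = 0

/-- Substitution of `y_s := y s` in differential polynomials, over `φ : A → B`. -/
noncomputable def subst {A B : Type*} [CommRing A] [CommRing B] [DD B] {S : Type*}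
    (φ : A →+* B) (y : S → B) : DP A S →+* B := eval₂Hom φ (jets y)

@[simp] theorem subst_C {A B : Type*} [CommRing A] [CommRing B] [DD B] {S : Type*}
    (φ : A →+* B) (y : S → B) (a : A) : subst φ y (C a) = φ a := by simp [subst]

@[simp] theorem subst_X {A B : Type*} [CommRing A] [CommRing B] [DD B] {S : Type*}
    (φ : A →+* B) (y : S → B) (s : S) : subst φ y (X (s, 0, 0)) = y s := by simp [subst, jets]

theorem subst_isDD {A B : Type*} [CommRing A] [CommRing B] [DD A] [DD B] {S : Type*}
    (φ : A →+* B) (hφ : IsDD φ) (y : S → B) : IsDD (subst φ y) := by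
  have hcomm : ∀ (i : ℕ) (b : B), (DD.d1 : B →+ B)^[i] (DD.d2 b) =
      DD.d2 ((DD.d1 : B →+ B)^[i] b) := by
    intro i b
    induction i with
    | zero => rfl
    | succ i ih => rw [Function.iterate_succ_apply', ih, DD.comm, Function.iterate_succ_apply']
  constructor
  · intro P
    induction P using MvPolynomial.induction_on with
    | C a => simp [hφ.1]
    | add p q hp hq => simp only [map_add, hp, hq]
    | mul_X p n hp =>
      obtain ⟨s, i, j⟩ := n
      have h1 : subst φ y (X (s, i + 1, j)) = DD.d1 (subst φ y (X (s, i, j))) := by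
        simp [subst, jets, Function.iterate_succ_apply']
      rw [DD.mul1 p, map_add, map_mul, map_mul, hp, map_mul, DD.mul1, dp_d1_X, h1]
  · intro P
    induction P using MvPolynomial.induction_on with
    | C a => simp [hφ.2]
    | add p q hp hq => simp only [map_add, hp, hq]
    | mul_X p n hp =>
      obtain ⟨s, i, j⟩ := n
      have h1 : subst φ y (X (s, i, j + 1)) = DD.d2 (subst φ y (X (s, i, j))) := by
        simp [subst, jets, Function.iterate_succ_apply', hcomm]
      rw [DD.mul2 p, map_add, map_mul, map_mul, hp, map_mul, DD.mul2, dp_d2_X, h1]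

/-! ## Fraction fields -/

section frac
variable (W : Type*) [CommRing W] [IsDomain W]

/-- The extension of a derivation to the fraction field. -/
noncomputable def fracHom (d : W →+ W) (hd : IsDer d) :
    FractionRing W →+* TrivSqZeroExt (FractionRing W) (FractionRing W) :=
  IsLocalization.lift (M := nonZeroDivisors W) (g := toDual (algebraMap W (FractionRing W)) d hd)
    (fun y => by
      rw [TrivSqZeroExt.isUnit_iff_isUnit_fst, toDual_fst]
      exact IsLocalization.map_units (FractionRing W) y)

theorem fracHom_algebraMap (d : W →+ W) (hd : IsDer d) (w : W) :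
    fracHom W d hd (algebraMap W (FractionRing W) w) =
      toDual (algebraMap W (FractionRing W)) d hd w := IsLocalization.lift_eq _ _

theorem fracHom_fst (d : W →+ W) (hd : IsDer d) (b : FractionRing W) :
    (fracHom W d hd b).fst = b := by
  have h : ((TrivSqZeroExt.fstHom (FractionRing W) (FractionRing W) (FractionRing W)).toRingHom.comp
      (fracHom W d hd)) = RingHom.id _ := by
    apply IsLocalization.ringHom_ext (nonZeroDivisors W)
    ext w
    change (fracHom W d hd (algebraMap W (FractionRing W) w)).fst = _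
    rw [fracHom_algebraMap, toDual_fst]; rfl
  exact RingHom.congr_fun h b

/-- The derivation of the fraction field. -/
noncomputable def fracDer (d : W →+ W) (hd : IsDer d) : FractionRing W →+ FractionRing W :=
  ofDual (fracHom W d hd)

theorem fracDer_der (d : W →+ W) (hd : IsDer d) : IsDer (fracDer W d hd) :=
  ofDual_der _ (fracHom_fst W d hd)

@[simp] theorem fracDer_algebraMap (d : W →+ W) (hd : IsDer d) (w : W) :
    fracDer W d hd (algebraMap W (FractionRing W) w) = algebraMap W (FractionRing W) (d w) := by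
  rw [fracDer, ofDual_apply, fracHom_algebraMap, toDual_snd]

theorem fracDer_comm (d d' : W →+ W) (hd : IsDer d) (hd' : IsDer d')
    (h : ∀ w, d (d' w) = d' (d w))
    (b : FractionRing W) : fracDer W d hd (fracDer W d' hd' b) =
      fracDer W d' hd' (fracDer W d hd b) := by
  obtain ⟨p, q, hq, rfl⟩ := IsFractionRing.div_surjective (A := W) b
  have hq0 : algebraMap W (FractionRing W) q ≠ 0 :=
    IsFractionRing.to_map_ne_zero_of_mem_nonZeroDivisors hq
  set D := fracDer W d hd with hD
  set D' := fracDer W d' hd' with hD'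
  have hDd : IsDer D := fracDer_der W d hd
  have hDd' : IsDer D' := fracDer_der W d' hd'
  set x := algebraMap W (FractionRing W) p / algebraMap W (FractionRing W) q with hx
  have hxq : x * algebraMap W (FractionRing W) q = algebraMap W (FractionRing W) p := by
    rw [hx]; field_simp
  have e1 := congrArg D hxq
  have e2 := congrArg D' hxq
  have e3 := congrArg D' e1
  have e4 := congrArg D e2
  rw [hDd] at e1 e3
  rw [hDd'] at e2 e4
  rw [map_add, hDd', hDd'] at e3
  rw [map_add, hDd, hDd] at e4
  simp only [hD, hD', fracDer_algebraMap] at e3 e4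
  rw [h p, h q] at e4
  have : algebraMap W (FractionRing W) q *
      (fracDer W d hd (fracDer W d' hd' x) - fracDer W d' hd' (fracDer W d hd x)) = 0 := by
    linear_combination e4 - e3
  rcases mul_eq_zero.mp this with h0 | h0
  · exact absurd h0 hq0
  · exact sub_eq_zero.mp h0

noncomputable instance [DD W] : DD (FractionRing W) where
  d1 := fracDer W DD.d1 DD.mul1
  d2 := fracDer W DD.d2 DD.mul2
  mul1 := fracDer_der _ _ _
  mul2 := fracDer_der _ _ _
  comm b := fracDer_comm W _ _ _ _ DD.comm b

theorem frac_isDD [DD W] : IsDD (algebraMap W (FractionRing W)) :=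
  ⟨fun a => (fracDer_algebraMap W DD.d1 DD.mul1 a).symm,
   fun a => (fracDer_algebraMap W DD.d2 DD.mul2 a).symm⟩

end frac

/-! ## Bundled differential fields -/

/-- A field of characteristic zero with two commuting derivations. -/
structure DF where
  K : Type
  [f : Field K]
  [c : CharZero K]
  [d : DD K]

attribute [instance] DF.f DF.c DF.d

/-- One step of the differential closure. -/
def Step : Prop :=
  ∀ E : DF, ∃ (E' : DF) (φ : E.K →+* E'.K), IsDD φ ∧
    ∀ P : DP E.K Unit, P ∉ Set.range (C : E.K → DP E.K Unit) →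
      ∃ y : E'.K, subst φ (fun _ : Unit => y) P = 0

/-! ## Power series in two variables -/

noncomputable instance (L : Type*) [CommRing L] : DD (MvPowerSeries (Fin 2) L) where
  d1 := (MvPowerSeries.pderiv L (0 : Fin 2)).toLinearMap.toAddMonoidHom
  d2 := (MvPowerSeries.pderiv L (1 : Fin 2)).toLinearMap.toAddMonoidHom
  mul1 := fun a b => (MvPowerSeries.pderiv L (0 : Fin 2)).leibniz a b
  mul2 := fun a b => (MvPowerSeries.pderiv L (1 : Fin 2)).leibniz a b
  comm := fun a => by
    ext n
    change MvPowerSeries.coeff n (MvPowerSeries.pderiv L (0 : Fin 2)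
      (MvPowerSeries.pderiv L (1 : Fin 2) a)) = MvPowerSeries.coeff n
      (MvPowerSeries.pderiv L (1 : Fin 2) (MvPowerSeries.pderiv L (0 : Fin 2) a))
    simp only [MvPowerSeries.coeff_pderiv]
    have h : n + Finsupp.single (0 : Fin 2) 1 + Finsupp.single 1 1 =
        n + Finsupp.single (1 : Fin 2) 1 + Finsupp.single 0 1 := by abel
    rw [h]
    simp
    ring

theorem mvps_d1 {L : Type*} [CommRing L] (a : MvPowerSeries (Fin 2) L) :
    DD.d1 a = MvPowerSeries.pderiv L (0 : Fin 2) a := rfl

theorem mvps_d2 {L : Type*} [CommRing L] (a : MvPowerSeries (Fin 2) L) :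
    DD.d2 a = MvPowerSeries.pderiv L (1 : Fin 2) a := rfl

/-! ## Generalised polynomials, syntactically -/

/-- Noncommutative expressions in elements of `R` and one unknown. -/
abbrev Syn (R : Type*) := FreeAlgebra ℤ (R ⊕ Unit)

/-- Evaluation of an expression: `a ∈ R` goes to `j a`, the unknown goes to `b`. -/
noncomputable def ev {R B : Type*} [Ring B] (j : R → B) (b : B) : Syn R →+* B :=
  (FreeAlgebra.lift ℤ (Sum.elim j (fun _ : Unit => b))).toRingHom

/-- The operator `p ⊗ q ↦ p z q`. -/
noncomputable def opz (P : Type*) {B : Type*} [CommRing P] [Ring B] [Algebra P B] (z : B) :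
    TensorProduct P B B →ₗ[P] B :=
  TensorProduct.lift ((LinearMap.mul P B).comp (LinearMap.mulRight P z))

theorem opz_tmul (P : Type*) {B : Type*} [CommRing P] [Ring B] [Algebra P B] (z p q : B) :
    opz P z (p ⊗ₜ[P] q) = p * z * q := by simp [opz]

end Run7.h432.AC
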