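import Pool.Agent.Run7.h432.AC.Stm2

/-!
# Glue: from the pieces to the existence of algebraically closed algebras
-/

set_option autoImplicit false

namespace Run7.h432.AC

open MvPolynomial TensorProduct

section div
variable (hDIV : S_DIV) (E : Type) [Field E] [CharZero E] [DD E]

include hDIV in
theorem mr_isUnit (a : MR E) : IsUnit a ∨ a = 0 := by
  by_cases ha : a = 0
  · exact Or.inr ha
  · left
    obtain ⟨b, hb⟩ := hDIV E a ha
    have hb0 : b ≠ 0 := by
      rintro rfl
      rw [mul_zero] at hb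
      exact zero_ne_one hb
    obtain ⟨c, hc⟩ := hDIV E b hb0
    have hac : a = c := by
      calc a = a * (b * c) := by rw [hc, mul_one]
        _ = c := by rw [← mul_assoc, hb, one_mul]
    exact ⟨⟨a, b, hb, by rw [hac]; exact hc⟩, rfl⟩

/-- The division ring structure of the Moyal ring over a field. -/
noncomputable abbrev mrDiv : DivisionRing (MR E) := DivisionRing.ofIsUnitOrEqZero (mr_isUnit hDIV E)

end div

section const
variable (E : Type) [Field E] [CharZero E] [DD E]

/-- the embedding of `MR E` in the Moyal ring over the field of differential rational functions -/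
noncomputable abbrev FR : Type := FractionRing (DP E Unit)

noncomputable instance : CharZero (FR E) := by
  have : Function.Injective ((algebraMap (DP E Unit) (FR E)).comp (C : E →+* DP E Unit)) :=
    RingHom.injective _
  exact charZero_of_injective_ringHom this

noncomputable def iF : E →+* FR E := (algebraMap (DP E Unit) (FR E)).comp C

theorem iF_isDD : IsDD (iF E) := (frac_isDD (DP E Unit)).comp (C_isDD E Unit)

noncomputable def jF : MR E →+* MR (FR E) := mp (iF E) (iF_isDD E)

noncomputable def kF : MR (DP E Unit) →+* MR (FR E) := mp (algebraMap (DP E Unit) (FR E)) (frac_isDD _)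

theorem kF_inj : Function.Injective (kF E) := by
  intro x y h
  apply MR.ext
  intro q
  have h1 := congrArg (fun z => cf z q) h
  simp only [kF, cf_mp] at h1
  exact IsFractionRing.injective (DP E Unit) (FR E) h1

theorem kF_jC (a : MR E) : kF E (jC E Unit a) = jF E a := by
  apply MR.ext; intro q; simp [kF, jC, jF, iF]

theorem jF_inj : Function.Injective (jF E) := by
  intro x y h
  apply MR.ext
  intro q
  have h1 := congrArg (fun z => cf z q) h
  simp only [jF, cf_mp] at h1
  exact (iF E).injective h1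

end const

/-! ### Homogeneity -/

section hom
variable (E : Type) [Field E] [CharZero E] [DD E]

theorem hom_smul (c : ℚ) {n : ℕ} {Q : DP E Unit} (h : Q.IsHomogeneous n) :
    (c • Q).IsHomogeneous n := (homogeneousSubmodule _ E n).smul_of_tower_mem c h

theorem mono_v_hom (n : ℕ) (D : DP E Unit →+ DP E Unit) (hD : IsDer D)
    (hC : ∀ a : E, ∃ b : E, D (C a) = C b) (hX : ∀ v, ∃ w, D (X v) = X w)
    (Q : DP E Unit) (h : Q.IsHomogeneous n) : (D Q).IsHomogeneous n := by
  classical
  have key : ∀ (s : Unit × ℕ × ℕ →₀ ℕ) (a : E), (D (monomial s a)).IsHomogeneous (s.degree) := by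
    intro s a
    induction s using Finsupp.induction_linear generalizing a with
    | zero =>
      obtain ⟨b, hb⟩ := hC a
      rw [show (monomial (0 : Unit × ℕ × ℕ →₀ ℕ) a) = C a from rfl, hb]
      simpa using isHomogeneous_C _ b
    | add s t hs ht =>
      have e : monomial (s + t) a = monomial s a * monomial t (1 : E) := by
        rw [monomial_mul, mul_one]
      rw [e, hD]
      have h1 : (monomial s a * D (monomial t (1 : E))).IsHomogeneous (s + t).degree := by
        rw [map_add Finsupp.degree]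
        exact (isHomogeneous_monomial _ rfl).mul (ht 1)
      have h2 : (monomial t (1 : E) * D (monomial s a)).IsHomogeneous (s + t).degree := by
        rw [map_add Finsupp.degree, add_comm]
        exact (isHomogeneous_monomial _ rfl).mul (hs a)
      exact h1.add h2
    | single v k =>
      induction k generalizing a with
      | zero =>
        obtain ⟨b, hb⟩ := hC a
        rw [Finsupp.single_zero, show (monomial (0 : Unit × ℕ × ℕ →₀ ℕ) a) = C a from rfl, hb]
        simpa using isHomogeneous_C _ b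
      | succ k ih =>
        have e : monomial (Finsupp.single v (k + 1)) a = monomial (Finsupp.single v k) a * X v := by
          rw [X, monomial_mul, mul_one, ← Finsupp.single_add]
        obtain ⟨w, hw⟩ := hX v
        rw [e, hD, hw, Finsupp.single_add, map_add Finsupp.degree]
        have h1 : (monomial (Finsupp.single v k) a * X w).IsHomogeneous
            ((Finsupp.single v k).degree + (Finsupp.single v 1).degree) := by
          refine (isHomogeneous_monomial _ rfl).mul ?_
          simpa using isHomogeneous_X E w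
        have h2 : (X v * D (monomial (Finsupp.single v k) a)).IsHomogeneous
            ((Finsupp.single v k).degree + (Finsupp.single v 1).degree) := by
          rw [add_comm]
          refine IsHomogeneous.mul ?_ (ih a)
          simpa using isHomogeneous_X E v
        exact h1.add h2
  rw [Q.as_sum, map_sum]
  refine IsHomogeneous.sum _ _ _ fun s hs => ?_
  have hd : s.degree = n := by
    have := h (mem_support_iff.mp hs)
    rw [Finsupp.degree_eq_weight_one]
    exact this
  have := key s (coeff s Q)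
  rwa [hd] at this

theorem hom_d1 (n : ℕ) (Q : DP E Unit) (h : Q.IsHomogeneous n) :
    ((DD.d1 : DP E Unit →+ DP E Unit) Q).IsHomogeneous n :=
  mono_v_hom E n _ DD.mul1 (fun a => ⟨DD.d1 a, dp_d1_C a⟩)
    (fun v => ⟨(v.1, v.2.1 + 1, v.2.2), dp_d1_X v.1 v.2.1 v.2.2⟩) Q h

theorem hom_d2 (n : ℕ) (Q : DP E Unit) (h : Q.IsHomogeneous n) :
    ((DD.d2 : DP E Unit →+ DP E Unit) Q).IsHomogeneous n :=
  mono_v_hom E n _ DD.mul2 (fun a => ⟨DD.d2 a, dp_d2_C a⟩)
    (fun v => ⟨(v.1, v.2.1, v.2.2 + 1), dp_d2_X v.1 v.2.1 v.2.2⟩) Q h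

theorem hom_d1k (n k : ℕ) (Q : DP E Unit) (h : Q.IsHomogeneous n) :
    ((DD.d1 : DP E Unit →+ DP E Unit)^[k] Q).IsHomogeneous n := by
  induction k with
  | zero => exact h
  | succ k ih => rw [Function.iterate_succ_apply']; exact hom_d1 E n _ ih

theorem hom_d2k (n k : ℕ) (Q : DP E Unit) (h : Q.IsHomogeneous n) :
    ((DD.d2 : DP E Unit →+ DP E Unit)^[k] Q).IsHomogeneous n := by
  induction k with
  | zero => exact h
  | succ k ih => rw [Function.iterate_succ_apply']; exact hom_d2 E n _ ih

/-- All coefficients homogeneous of degree `n`. -/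
def Hom (n : ℕ) (x : MR (DP E Unit)) : Prop := ∀ q, (cf x q).IsHomogeneous n

variable {E}

theorem Hom.mul {n m : ℕ} {x y : MR (DP E Unit)} (hx : Hom E n x) (hy : Hom E m y) :
    Hom E (n + m) (x * y) := by
  intro q
  exact cf_mul_mem (homogeneousSubmodule _ E (n + m)).toAddSubgroup x y
    (fun s r k => hom_smul E _ ((hom_d2k E n k _ (hx s)).mul (hom_d1k E m k _ (hy r)))) q

theorem Hom.add {n : ℕ} {x y : MR (DP E Unit)} (hx : Hom E n x) (hy : Hom E n y) :
    Hom E n (x + y) := fun q => (hx q).add (hy q)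

theorem Hom.zero (n : ℕ) : Hom E n 0 := fun _ => isHomogeneous_zero _ _ _

theorem Hom.jC (a : MR E) : Hom E 0 (AC.jC E Unit a) := fun q => isHomogeneous_C _ _

theorem Hom.y (r : ℚ) : Hom E 1 (mono r (X ((), 0, 0) : DP E Unit)) := by
  intro q
  rw [cf_mono]
  split_ifs
  · exact isHomogeneous_X _ _
  · exact isHomogeneous_zero _ _ _

/-- Homogeneous elements of different degrees are independent. -/
theorem Hom.indep {N : ℕ} {p : ℕ → MR (DP E Unit)} (hp : ∀ n, Hom E n (p n))
    (h : ∑ n ∈ Finset.range N, p n = 0) (n : ℕ) (hn : n < N) : p n = 0 := by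
  classical
  apply MR.ext
  intro q
  have hcf : ∀ (s : Finset ℕ), cf (∑ n ∈ s, p n) q = ∑ n ∈ s, cf (p n) q := by
    intro s
    induction s using Finset.induction_on with
    | empty => simp
    | insert a s ha ih => rw [Finset.sum_insert ha, Finset.sum_insert ha, cf_add, ih]
  have h1 := hcf (Finset.range N)
  rw [h, cf_zero] at h1
  have h2 := congrArg (homogeneousComponent n) h1
  rw [map_zero, map_sum, Finset.sum_eq_single n] at h2
  · rw [homogeneousComponent_of_mem (hp n q), if_pos rfl] at h2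
    rw [← h2, cf_zero]
  · intro m _ hm
    rw [homogeneousComponent_of_mem (hp m q), if_neg (Ne.symm hm)]
  · intro hn'; exact absurd (Finset.mem_range.mpr hn) hn'

end hom

/-! ### Expressions and the free product -/

section rep
open Pool.Agent.Results.MP_4b1745_al.OneVariable

/-- The expression `fs` represents `f`. -/
def Rep (P R : Type) [Field P] [Ring R] [Algebra P R] (f : FreeOver P R Unit) (fs : Syn R) : Prop :=
  ∀ (B : Type) [Ring B] [Algebra P B] (j : R →ₐ[P] B) (b : B),
    lift j (fun _ => b) f = ev (fun a => j a) b fs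

theorem exists_rep (P R : Type) [Field P] [Ring R] [Algebra P R] (f : FreeOver P R Unit) :
    ∃ fs : Syn R, Rep P R f fs := by
  induction f using induct with
  | hc a =>
    refine ⟨FreeAlgebra.ι ℤ (Sum.inl a), fun B _ _ j b => ?_⟩
    rw [lift_const, ev_inl]
  | hv i =>
    refine ⟨FreeAlgebra.ι ℤ (Sum.inr ()), fun B _ _ j b => ?_⟩
    rw [lift_var, ev_inr]
  | hadd f g hf hg =>
    obtain ⟨fs, hf⟩ := hf
    obtain ⟨gs, hg⟩ := hg
    refine ⟨fs + gs, fun B _ _ j b => ?_⟩
    rw [map_add, map_add, hf, hg]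
  | hmul f g hf hg =>
    obtain ⟨fs, hf⟩ := hf
    obtain ⟨gs, hg⟩ := hg
    refine ⟨fs * gs, fun B _ _ j b => ?_⟩
    rw [map_mul, map_mul, hf, hg]

end rep

/-! ### No generalised polynomial identities -/

section main
open Pool.Agent.Results.MP_4b1745_al.OneVariable

variable (E : Type) [Field E] [CharZero E] [DD E] (P : Type) [Field P] [Algebra P (MR E)]

/-- `P` consists of series with constant coefficients. -/
def Cst : Prop := ∀ (p : P) (q : ℚ), DD.d1 (cf (algebraMap P (MR E) p) q) = 0 ∧
  DD.d2 (cf (algebraMap P (MR E) p) q) = 0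

variable {E P}

/-- The `P`-algebra structure of `MR A'` for a differential extension `A'` of `E`. -/
noncomputable abbrev algVia {A' : Type} [CommRing A'] [Algebra ℚ A'] [DD A'] (φ : E →+* A')
    (hφ : IsDD φ) (hc : Cst E P) : Algebra P (MR A') :=
  ((mp φ hφ).comp (algebraMap P (MR E))).toAlgebra' (fun p x => by
    apply const_central
    · intro q
      change DD.d1 (φ (cf (algebraMap P (MR E) p) q)) = 0
      rw [← hφ.1, (hc p q).1, map_zero]
    · intro q
      change DD.d2 (φ (cf (algebraMap P (MR E) p) q)) = 0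
      rw [← hφ.2, (hc p q).2, map_zero])

/-- `mp φ` as a map of `P`-algebras. -/
noncomputable def mpA {A' : Type} [CommRing A'] [Algebra ℚ A'] [DD A'] (φ : E →+* A')
    (hφ : IsDD φ) (hc : Cst E P) :
    letI := algVia φ hφ hc
    MR E →ₐ[P] MR A' :=
  letI := algVia φ hφ hc
  { mp φ hφ with commutes' := fun _ => rfl }

theorem mpA_apply {A' : Type} [CommRing A'] [Algebra ℚ A'] [DD A'] (φ : E →+* A')
    (hφ : IsDD φ) (hc : Cst E P) (a : MR E) :
    letI := algVia φ hφ hc
    mpA φ hφ hc a = mp φ hφ a := rfl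

/-- The value of `f` at `w ∈ MR A'`. -/
noncomputable def vl {A' : Type} [CommRing A'] [Algebra ℚ A'] [DD A'] (φ : E →+* A')
    (hφ : IsDD φ) (hc : Cst E P) (w : MR A') : FreeOver P (MR E) Unit →+* MR A' :=
  letI := algVia φ hφ hc
  (lift (mpA φ hφ hc) (fun _ : Unit => w)).toRingHom

theorem vl_rep {A' : Type} [CommRing A'] [Algebra ℚ A'] [DD A'] (φ : E →+* A')
    (hφ : IsDD φ) (hc : Cst E P) (w : MR A') (f : FreeOver P (MR E) Unit) (fs : Syn (MR E))
    (h : Rep P (MR E) f fs) : vl φ hφ hc w f = ev (mp φ hφ) w fs := by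
  letI := algVia φ hφ hc
  exact h (MR A') (mpA φ hφ hc) w

theorem vl_const {A' : Type} [CommRing A'] [Algebra ℚ A'] [DD A'] (φ : E →+* A')
    (hφ : IsDD φ) (hc : Cst E P) (w : MR A') (a : MR E) :
    vl φ hφ hc w (const P (MR E) Unit a) = mp φ hφ a := by
  letI := algVia φ hφ hc
  exact lift_const (mpA φ hφ hc) (fun _ : Unit => w) a

theorem vl_var {A' : Type} [CommRing A'] [Algebra ℚ A'] [DD A'] (φ : E →+* A')
    (hφ : IsDD φ) (hc : Cst E P) (w : MR A') :
    vl φ hφ hc w (var P (MR E) Unit ()) = w := by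
  letI := algVia φ hφ hc
  exact lift_var (mpA φ hφ hc) (fun _ : Unit => w) ()

theorem vl_hom {A' A'' : Type} [CommRing A'] [Algebra ℚ A'] [DD A'] [CommRing A''] [Algebra ℚ A'']
    [DD A''] (φ : E →+* A') (hφ : IsDD φ) (hc : Cst E P) (ψ : A' →+* A'') (hψ : IsDD ψ)
    (w : MR A') (f : FreeOver P (MR E) Unit) :
    mp ψ hψ (vl φ hφ hc w f) = vl (ψ.comp φ) (hψ.comp hφ) hc (mp ψ hψ w) f := by
  obtain ⟨fs, hfs⟩ := exists_rep P (MR E) f
  rw [vl_rep φ hφ hc w f fs hfs, vl_rep _ _ hc _ f fs hfs, ev_hom]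
  rfl

/-- Homogeneous elements have homogeneous values at `y`. -/
theorem Hn_hom (hc : Cst E P) (n : ℕ) (f : FreeOver P (MR E) Unit) (hf : f ∈ Hn P (MR E) n) :
    Hom E n (vl (C : E →+* DP E Unit) (C_isDD E Unit) hc (mono 0 (X ((), 0, 0))) f) := by
  have hsm : ∀ (n : ℕ) (p : P) (g : FreeOver P (MR E) Unit),
      Hom E n (vl (C : E →+* DP E Unit) (C_isDD E Unit) hc (mono 0 (X ((), 0, 0))) g) →
      Hom E n (vl (C : E →+* DP E Unit) (C_isDD E Unit) hc (mono 0 (X ((), 0, 0))) (p • g)) := by
    intro n p g hg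
    have e : p • g = const P (MR E) Unit (algebraMap P (MR E) p) * g := by
      rw [AlgHom.commutes, Algebra.smul_def]
    rw [e, map_mul, vl_const]
    have := (Hom.jC (algebraMap P (MR E) p)).mul hg
    rwa [zero_add] at this
  induction n generalizing f with
  | zero =>
    obtain ⟨a, rfl⟩ := hf
    change Hom E 0 (vl _ _ hc _ (const P (MR E) Unit a))
    rw [vl_const]
    exact Hom.jC a
  | succ n ih =>
    refine Submodule.span_induction ?_ ?_ ?_ ?_ hf
    · rintro z ⟨a, g, hg, rfl⟩
      rw [map_mul, map_mul, vl_const, vl_var]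
      have := ((Hom.jC a).mul (Hom.y (E := E) 0)).mul (ih g hg)
      have e : 0 + 1 + n = n + 1 := by ring
      rwa [e] at this
    · rw [map_zero]; exact Hom.zero _
    · intro x y _ _ hx hy; rw [map_add]; exact hx.add hy
    · intro p x _ hx; exact hsm _ p x hx

/-- Homogeneous elements of positive degree vanish at `0`. -/
theorem Hn_zero_eq {A' : Type} [CommRing A'] [Algebra ℚ A'] [DD A'] (φ : E →+* A')
    (hφ : IsDD φ) (hc : Cst E P) (n : ℕ) (f : FreeOver P (MR E) Unit)
    (hf : f ∈ Hn P (MR E) (n + 1)) : vl φ hφ hc 0 f = 0 := by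
  refine Submodule.span_induction ?_ ?_ ?_ ?_ hf
  · rintro z ⟨a, g, hg, rfl⟩
    rw [map_mul, map_mul, vl_var, mul_zero, zero_mul]
  · rw [map_zero]
  · intro x y _ _ hx hy; rw [map_add, hx, hy, add_zero]
  · intro p x _ hx
    have e : p • x = const P (MR E) Unit (algebraMap P (MR E) p) * x := by
      rw [AlgHom.commutes, Algebra.smul_def]
    rw [e, map_mul, hx, mul_zero]

theorem gg_eq (f : FreeOver P (MR E) Unit) (fs : Syn (MR E)) (h : Rep P (MR E) f fs)
    (hc : Cst E P) (x : MR E) (r : ℚ) :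
    gg fs x r = vl (C : E →+* DP E Unit) (C_isDD E Unit) hc
      (jC E Unit x + mono r (X ((), 0, 0))) f - jC E Unit (va fs x) := by
  rw [vl_rep _ _ hc _ f fs h]; rfl

theorem va_eq (f : FreeOver P (MR E) Unit) (fs : Syn (MR E)) (h : Rep P (MR E) f fs)
    (x : MR E) : va fs x = evalAt (fun _ : Unit => x) f :=
  (h (MR E) (AlgHom.id P (MR E)) x).symm

/-- A homogeneous element of positive degree which vanishes at `y` vanishes everywhere. -/
theorem hvan (hSup : Sup) (hDEC : S_DEC) (hc : Cst E P) (n : ℕ) (f : FreeOver P (MR E) Unit)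
    (hf : f ∈ Hn P (MR E) (n + 1))
    (h0 : vl (C : E →+* DP E Unit) (C_isDD E Unit) hc (mono 0 (X ((), 0, 0))) f = 0)
    {A' : Type} [CommRing A'] [Algebra ℚ A'] [DD A'] (φ : E →+* A')
    (hφ : IsDD φ) (w : MR A') : vl φ hφ hc w f = 0 := by
  obtain ⟨fs, hfs⟩ := exists_rep P (MR E) f
  have hva : va fs 0 = 0 := by
    have h1 := vl_hom (RingHom.id E) (IsDD.id E) hc (RingHom.id E) (IsDD.id E) 0 f
    have h2 := Hn_zero_eq (RingHom.id E) (IsDD.id E) hc n f hf
    have h3 := vl_rep (RingHom.id E) (IsDD.id E) hc 0 f fs hfs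
    rw [h2] at h3
    have h4 : (fun a : MR E => (mp (RingHom.id E) (IsDD.id E) a)) = fun a => a := by
      funext a; exact MR.ext fun q => rfl
    have h5 : va fs 0 = ev (mp (RingHom.id E) (IsDD.id E)) 0 fs := by
      change ev (fun a => a) 0 fs = ev (fun a => mp (RingHom.id E) (IsDD.id E) a) 0 fs
      rw [h4]
    rw [h5, ← h3]
  obtain ⟨N, p, hN, hp0, hph, hpz, hpr⟩ := hDEC E fs 0
  rw [hva, map_zero] at hpz
  have h00 : ev (jC E Unit) (jC E Unit 0 + mono 0 (X ((), 0, 0))) fs = 0 := by
    rw [map_zero, zero_add, ← h0, vl_rep _ _ hc _ f fs hfs]; rfl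
  have hsum : ∑ n ∈ Finset.range N, p n = 0 := by
    rw [← h00, hpr 0]
    apply Finset.sum_congr rfl
    intro n _
    rw [mul_zero, ← one_eq, one_mul]
  have hall : ∀ n, p n = 0 := by
    intro n
    by_cases hn : n < N
    · exact Hom.indep (fun n q => hph n q) hsum n hn
    · exact hp0 n (not_lt.mp hn)
  have hgg : ∀ r : ℚ, gg fs 0 r = 0 := by
    intro r
    rw [gg, hpr r, hva, map_zero, sub_zero]
    exact Finset.sum_eq_zero fun n _ => by rw [hall, mul_zero]
  obtain ⟨r, hr⟩ := exists_Ge w
  rw [vl_rep _ _ hc _ f fs hfs]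
  apply MR.ext
  intro q
  have h1 := hSup E A' φ hφ fs 0 r (q + 1) (by rw [hgg r]; intro _ _; rfl) w hr q (by linarith)
  rw [map_zero, zero_add, hva, map_zero, sub_zero] at h1
  rw [h1, cf_zero]

theorem cc_d1 (Q : DP E Unit) : constantCoeff (DD.d1 Q) = DD.d1 (constantCoeff Q) := by
  induction Q using MvPolynomial.induction_on with
  | C a => simp
  | add p q hp hq => simp only [map_add, hp, hq]
  | mul_X p n hp =>
    obtain ⟨s, i, j⟩ := n
    rw [DD.mul1, dp_d1_X]
    simp

theorem cc_d2 (Q : DP E Unit) : constantCoeff (DD.d2 Q) = DD.d2 (constantCoeff Q) := by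
  induction Q using MvPolynomial.induction_on with
  | C a => simp
  | add p q hp hq => simp only [map_add, hp, hq]
  | mul_X p n hp =>
    obtain ⟨s, i, j⟩ := n
    rw [DD.mul2, dp_d2_X]
    simp

theorem cc_d1k (Q : DP E Unit) (h : constantCoeff Q = 0) (k : ℕ) :
    constantCoeff ((DD.d1 : DP E Unit →+ DP E Unit)^[k] Q) = 0 := by
  induction k with
  | zero => exact h
  | succ k ih => rw [Function.iterate_succ_apply', cc_d1, ih, map_zero]

theorem cc_d2k (Q : DP E Unit) (h : constantCoeff Q = 0) (k : ℕ) :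
    constantCoeff ((DD.d2 : DP E Unit →+ DP E Unit)^[k] Q) = 0 := by
  induction k with
  | zero => exact h
  | succ k ih => rw [Function.iterate_succ_apply', cc_d2, ih, map_zero]

variable (E) in
/-- Images of differential polynomials without constant term. -/
noncomputable def Hp : AddSubgroup (FR E) :=
  (AddMonoidHom.ker (constantCoeff : DP E Unit →+* E).toAddMonoidHom).map
    (algebraMap (DP E Unit) (FR E)).toAddMonoidHom

theorem mem_Hp {z : FR E} : z ∈ Hp E ↔ ∃ Q : DP E Unit, constantCoeff Q = 0 ∧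
    algebraMap (DP E Unit) (FR E) Q = z := by
  unfold Hp
  constructor
  · rintro ⟨Q, hQ, rfl⟩; exact ⟨Q, hQ, rfl⟩
  · rintro ⟨Q, hQ, rfl⟩; exact ⟨Q, hQ, rfl⟩

theorem rat_smul_hom {A B : Type*} [CommRing A] [CommRing B] [Algebra ℚ A] [Algebra ℚ B]
    (φ : A →+* B) (c : ℚ) (a : A) : c • φ a = φ (c • a) :=
  (map_rat_smul φ.toAddMonoidHom c a).symm

/-- A product lies in the positive part if one factor does and the other is polynomial. -/
theorem pos_mul (x y : MR (FR E))
    (hx : ∀ q, ∃ Q : DP E Unit, algebraMap (DP E Unit) (FR E) Q = cf x q)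
    (hy : ∀ q, ∃ Q : DP E Unit, algebraMap (DP E Unit) (FR E) Q = cf y q)
    (h : (∀ q, cf x q ∈ Hp E) ∨ (∀ q, cf y q ∈ Hp E)) (q : ℚ) : cf (x * y) q ∈ Hp E := by
  have hI := frac_isDD (DP E Unit)
  apply cf_mul_mem
  intro s r k
  rcases h with h | h
  · obtain ⟨Q, hQ0, hQ⟩ := mem_Hp.mp (h s)
    obtain ⟨Q', hQ'⟩ := hy r
    rw [← hQ, ← hQ', ← (iter_hom _ hI k _).2, ← (iter_hom _ hI k _).1, ← map_mul, rat_smul_hom]
    refine mem_Hp.mpr ⟨_, ?_, rfl⟩
    rw [MvPolynomial.constantCoeff_smul, map_mul, cc_d2k Q hQ0 k, zero_mul, smul_zero]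
  · obtain ⟨Q, hQ⟩ := hx s
    obtain ⟨Q', hQ0, hQ'⟩ := mem_Hp.mp (h r)
    rw [← hQ, ← hQ', ← (iter_hom _ hI k _).2, ← (iter_hom _ hI k _).1, ← map_mul, rat_smul_hom]
    refine mem_Hp.mpr ⟨_, ?_, rfl⟩
    rw [MvPolynomial.constantCoeff_smul, map_mul, cc_d1k Q' hQ0 k, mul_zero, smul_zero]

/-- The differential indeterminate in `MR (FR E)`. -/
noncomputable def uF (E : Type) [Field E] [CharZero E] [DD E] : MR (FR E) :=
  mono 0 (algebraMap (DP E Unit) (FR E) (X ((), 0, 0)))

theorem kF_y : kF E (mono 0 (X ((), 0, 0))) = uF E := mp_mono _ _ _ _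

theorem gpi (hSup : Sup) (hDEC : S_DEC) (hDIV : S_DIV) (hCENTER : S_CENTER) (hCONST : S_CONST)
    (hHN : S_HN) (hLT : S_LT) (hINJ1 : S_INJ1) (hINJ : S_INJ)
    (a b : E) (hab : DD.d1 a * DD.d2 b - DD.d2 a * DD.d1 b ≠ 0) (hc : Cst E P)
    (hsurj : ∀ c : MR E, (∀ x, c * x = x * c) → ∃ p : P, algebraMap P (MR E) p = c)
    (f : FreeOver P (MR E) Unit) (r : MR E)
    (h : vl (C : E →+* DP E Unit) (C_isDD E Unit) hc (mono 0 (X ((), 0, 0))) f = jC E Unit r) :
    f ∈ Set.range (const P (MR E) Unit) := by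
  -- injectivity on homogeneous elements
  have inj : ∀ n, ∀ g ∈ Hn P (MR E) n,
      vl (C : E →+* DP E Unit) (C_isDD E Unit) hc (mono 0 (X ((), 0, 0))) g = 0 → g = 0 := by
    letI := mrDiv hDIV (FR E)
    letI algB : Algebra P (MR (FR E)) := algVia (iF E) (iF_isDD E) hc
    have hcz : CharZero (MR (FR E)) := by
      refine ⟨fun m n hmn => ?_⟩
      have e : ∀ m : ℕ, ((m : ℕ) : MR (FR E)) = mono 0 (m : FR E) := by
        intro m
        induction m with
        | zero => rw [Nat.cast_zero, Nat.cast_zero, mono_zero]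
        | succ m ih => rw [Nat.cast_succ, Nat.cast_succ, mono_add, ih, one_eq]
      rw [e, e] at hmn
      have := congrArg (fun z => cf z 0) hmn
      simp only [cf_mono, if_true] at this
      exact Nat.cast_injective this
    have kvl : ∀ g : FreeOver P (MR E) Unit, kF E (vl (C : E →+* DP E Unit) (C_isDD E Unit) hc
        (mono 0 (X ((), 0, 0))) g) = lift (mpA (iF E) (iF_isDD E) hc) (fun _ => uF E) g := by
      intro g
      have h1 := vl_hom (C : E →+* DP E Unit) (C_isDD E Unit) hc
        (algebraMap (DP E Unit) (FR E)) (frac_isDD _) (mono 0 (X ((), 0, 0))) g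
      rw [mp_mono] at h1
      exact h1
    let Pos : Submodule P (MR (FR E)) :=
      { carrier := {w | ∀ q, cf w q ∈ Hp E}
        add_mem' := fun {x y} hx hy q => (Hp E).add_mem (hx q) (hy q)
        zero_mem' := fun q => (Hp E).zero_mem
        smul_mem' := fun p x hx q => by
          have e : p • x = algebraMap P (MR (FR E)) p * x := Algebra.smul_def p x
          rw [e]
          refine pos_mul _ _ (fun q => ?_) (fun q => ?_) (Or.inr hx) q
          · exact ⟨C (cf (algebraMap P (MR E) p) q), rfl⟩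
          · obtain ⟨Q, _, hQ⟩ := mem_Hp.mp (hx q); exact ⟨Q, hQ⟩ }
    have hmem : ∀ w, w ∈ Pos ↔ ∀ q, cf w q ∈ Hp E := fun w => Iff.rfl
    have hpoly : ∀ w ∈ Pos, ∀ q, ∃ Q : DP E Unit, algebraMap (DP E Unit) (FR E) Q = cf w q :=
      fun w hw q => by obtain ⟨Q, _, hQ⟩ := mem_Hp.mp (hw q); exact ⟨Q, hQ⟩
    have hjpoly : ∀ (a : MR E) (q : ℚ), ∃ Q : DP E Unit, algebraMap (DP E Unit) (FR E) Q =
        cf (mpA (iF E) (iF_isDD E) hc a) q := fun a q => ⟨C (cf a q), rfl⟩
    have main := hINJ hLT hINJ1 P (MR E) (MR (FR E)) (mpA (iF E) (iF_isDD E) hc) (uF E) Pos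
      (jF_inj E) ?_ ?_ ?_ ?_ ?_ ?_
    · intro n g hg h0
      apply main n g hg
      rw [← kvl, h0, map_zero]
    · -- the centre
      intro d hd
      have hab' : DD.d1 (iF E a) * DD.d2 (iF E b) - DD.d2 (iF E a) * DD.d1 (iF E b) ≠ 0 := by
        have hI := iF_isDD E
        rw [← hI.1, ← hI.2, ← hI.2, ← hI.1, ← map_mul, ← map_mul, ← map_sub]
        intro h0
        exact hab ((iF E).injective (by rw [h0, map_zero]))
      have h1 := hCENTER (FR E) (iF E a) (iF E b) hab' d hd
      choose e he using fun q => hCONST E (cf d q) (h1 q).1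
      have he' : ∀ q, cf d q = iF E (e q) := he
      let c : MR E := ⟨⟨e, by
        refine d.s.isPWO_support.mono ?_
        intro q hq
        rw [HahnSeries.mem_support]
        intro h0
        apply hq
        have : iF E (e q) = 0 := by rw [← he' q]; exact h0
        exact (iF E).injective (by rw [this, map_zero])⟩⟩
      have hcc : ∀ x, c * x = x * c := by
        apply const_central
        · intro q
          apply (iF E).injective
          rw [map_zero, (iF_isDD E).1]
          change DD.d1 (iF E (e q)) = 0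
          rw [← he' q]; exact (h1 q).1
        · intro q
          apply (iF E).injective
          rw [map_zero, (iF_isDD E).2]
          change DD.d2 (iF E (e q)) = 0
          rw [← he' q]; exact (h1 q).2
      obtain ⟨p, hp⟩ := hsurj c hcc
      refine ⟨p, ?_⟩
      apply MR.ext
      intro q
      change iF E (cf (algebraMap P (MR E) p) q) = cf d q
      rw [hp, he' q]; rfl
    · intro a ha
      apply MR.ext
      intro q
      obtain ⟨Q, hQ0, hQ⟩ := mem_Hp.mp (ha q)
      have h1 : Q = C (cf a q) := IsFractionRing.injective (DP E Unit) (FR E) hQ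
      rw [h1] at hQ0
      simpa using hQ0
    · intro q
      rw [uF, cf_mono]
      split_ifs
      · exact mem_Hp.mpr ⟨X ((), 0, 0), by simp, rfl⟩
      · exact (Hp E).zero_mem
    · intro a p hp
      exact ⟨fun q => pos_mul _ _ (hjpoly a) (hpoly p hp) (Or.inr hp) q,
        fun q => pos_mul _ _ (hpoly p hp) (hjpoly a) (Or.inl hp) q⟩
    · intro p hp q hq r
      exact pos_mul _ _ (hpoly p hp) (hpoly q hq) (Or.inl hp) r
    · intro n hn g hg h0 w
      obtain ⟨n, rfl⟩ := Nat.exists_eq_add_of_le' hn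
      have h1 : vl (C : E →+* DP E Unit) (C_isDD E Unit) hc (mono 0 (X ((), 0, 0))) g = 0 := by
        apply kF_inj E
        rw [kvl, h0, map_zero]
      exact hvan hSup hDEC hc n g hg h1 (iF E) (iF_isDD E) w
  -- decomposition
  obtain ⟨N, g, hg, hfg⟩ := hHN P (MR E) f
  cases N with
  | zero =>
    rw [Finset.range_zero, Finset.sum_empty] at hfg
    exact ⟨0, by rw [hfg, map_zero]⟩
  | succ N =>
    have hsum : ∑ n ∈ Finset.range (N + 1), (fun n => if n = 0 then
        vl (C : E →+* DP E Unit) (C_isDD E Unit) hc (mono 0 (X ((), 0, 0))) (g 0) - jC E Unit r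
        else vl (C : E →+* DP E Unit) (C_isDD E Unit) hc (mono 0 (X ((), 0, 0))) (g n)) n = 0 := by
      rw [Finset.sum_range_succ']
      rw [hfg, map_sum, Finset.sum_range_succ'] at h
      simp only [if_true, Nat.succ_ne_zero, if_false]
      rw [← h]; abel
    have hH : ∀ n, Hom E n ((fun n => if n = 0 then
        vl (C : E →+* DP E Unit) (C_isDD E Unit) hc (mono 0 (X ((), 0, 0))) (g 0) - jC E Unit r
        else vl (C : E →+* DP E Unit) (C_isDD E Unit) hc (mono 0 (X ((), 0, 0))) (g n)) n) := by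
      intro n
      simp only
      split_ifs with hn
      · subst hn
        intro q
        rw [cf_sub]
        exact (Hn_hom hc 0 (g 0) (hg 0) q).sub (Hom.jC r q)
      · exact Hn_hom hc n (g n) (hg n)
    have hz : ∀ n, n ≠ 0 → n < N + 1 → g n = 0 := by
      intro n hn hlt
      have := Hom.indep hH hsum n hlt
      simp only [hn, if_false] at this
      exact inj n (g n) (hg n) this
    have hf0 : f = g 0 := by
      rw [hfg, Finset.sum_range_succ', Finset.sum_eq_zero, zero_add]
      intro n hn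
      exact hz (n + 1) (Nat.succ_ne_zero n) (by have := Finset.mem_range.mp hn; omega)
    obtain ⟨r0, hr0⟩ := hg 0
    exact ⟨r0, by rw [hf0]; exact hr0⟩

end main

/-! ### Conclusion -/

section final
open Pool.Agent.Results.MP_4b1745_al.OneVariable

theorem exists_closed (hLIM : ∃ E : DF, DClosed E.K) (hSup : Sup) (hDEC : S_DEC) (hDIV : S_DIV)
    (hCENTER : S_CENTER) (hGRAD : S_GRAD) (hCONST : S_CONST) (hHN : S_HN) (hLT : S_LT)
    (hINJ1 : S_INJ1) (hINJ : S_INJ)
    (hNEWT : ∀ (E : Type) [Field E] [CharZero E] [DD E], DClosed E →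
      ∀ f : Syn (MR E), gg f 0 0 ≠ 0 → ∃ x : MR E, va f x = 0) :
    ∃ (P R : Type) (_ : Field P) (_ : DivisionRing R) (_ : Algebra P R),
      (∀ r : R, (∀ s : R, r * s = s * r) ↔ ∃ p : P, algebraMap P R p = r) ∧
      AlgClosedIn P R ℕ := by
  obtain ⟨E, hE⟩ := hLIM
  obtain ⟨a, b, hab⟩ := hGRAD E.K hE
  letI iR : DivisionRing (MR E.K) := mrDiv hDIV E.K
  letI iP : Field (Subring.center (MR E.K)) := inferInstance
  letI iA : Algebra (Subring.center (MR E.K)) (MR E.K) :=
    (Subring.center (MR E.K)).subtype.toAlgebra' (fun p x => by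
      exact ((Subring.mem_center_iff.mp p.2) x).symm)
  have hc : Cst E.K (Subring.center (MR E.K)) := by
    intro p q
    exact hCENTER E.K a b hab p.1 (fun x => ((Subring.mem_center_iff.mp p.2) x).symm) q
  have hsurj : ∀ c : MR E.K, (∀ x, c * x = x * c) →
      ∃ p : Subring.center (MR E.K), algebraMap (Subring.center (MR E.K)) (MR E.K) p = c :=
    fun c hcc => ⟨⟨c, Subring.mem_center_iff.mpr fun x => (hcc x).symm⟩, rfl⟩
  refine ⟨Subring.center (MR E.K), MR E.K, iP, iR, iA, ?_, ?_⟩
  · intro r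
    constructor
    · exact hsurj r
    · rintro ⟨p, rfl⟩ s
      exact ((Subring.mem_center_iff.mp p.2) s).symm
  rw [result]
  constructor
  · intro hs
    have hcomm : ∀ x y : MR E.K, x * y = y * x := by
      intro x y
      obtain ⟨p, rfl⟩ := hs x
      exact ((Subring.mem_center_iff.mp p.2) y).symm
    have h1 := hCENTER E.K a b hab (mono 0 a) (fun x => hcomm _ x) 0
    rw [cf_mono, if_pos rfl] at h1
    apply hab
    rw [h1.1, h1.2, zero_mul, zero_mul, sub_zero]
  · intro f hf
    obtain ⟨fs, hfs⟩ := exists_rep (Subring.center (MR E.K)) (MR E.K) f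
    have hgg : gg fs 0 0 ≠ 0 := by
      intro h0
      apply hf
      rw [gg_eq f fs hfs hc, map_zero, zero_add, sub_eq_zero] at h0
      exact gpi hSup hDEC hDIV hCENTER hCONST hHN hLT hINJ1 hINJ a b hab hc hsurj f _ h0
    obtain ⟨x, hx⟩ := hNEWT E.K hE fs hgg
    refine ⟨fun _ => x, ?_⟩
    rw [← va_eq f fs hfs x, hx]

end final

end Run7.h432.AC
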