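import Pool.Agent.Run7.h432.AC.Def

/-!
# The Moyal ring
-/

set_option autoImplicit false

namespace Run7.h432.AC

open Finset Pointwise

/-- `1 / k!`. -/
noncomputable def rf (k : ℕ) : ℚ := ((k.factorial : ℚ))⁻¹

theorem rf_zero : rf 0 = 1 := by simp [rf]

theorem rf_succ (k : ℕ) : ((k : ℚ) + 1) * rf (k + 1) = rf k := by
  unfold rf
  rw [Nat.factorial_succ]
  push_cast
  have h1 : ((k : ℚ) + 1) ≠ 0 := by positivity
  have h2 : (k.factorial : ℚ) ≠ 0 := by positivity
  field_simp

section leib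
variable {V : Type*} [CommRing V] [Module ℚ V] [IsScalarTower ℚ V V] [SMulCommClass ℚ V V]

/-- Divided powers of an additive map. -/
noncomputable def dl (D : V →+ V) (k : ℕ) (a : V) : V := rf k • D^[k] a

theorem dl_zero (D : V →+ V) (a : V) : dl D 0 a = a := by simp [dl, rf_zero]

theorem D_dl (D : V →+ V) (k : ℕ) (a : V) : D (dl D k a) = ((k : ℚ) + 1) • dl D (k + 1) a := by
  unfold dl
  rw [map_rat_smul D, smul_smul, rf_succ, Function.iterate_succ_apply']

theorem leib (D : V →+ V) (hD : IsDer D) (a b : V) (k : ℕ) :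
    dl D k (a * b) = ∑ p ∈ antidiagonal k, dl D p.1 a * dl D p.2 b := by
  induction k with
  | zero => simp [dl_zero]
  | succ k ih =>
    have h := congrArg D ih
    rw [D_dl, map_sum] at h
    have h2 : ∑ p ∈ antidiagonal k, D (dl D p.1 a * dl D p.2 b) =
        ((k : ℚ) + 1) • ∑ p ∈ antidiagonal (k + 1), dl D p.1 a * dl D p.2 b := by
      have e1 : ∑ p ∈ antidiagonal (k + 1), ((p.1 : ℕ) : ℚ) • (dl D p.1 a * dl D p.2 b) =
          ∑ p ∈ antidiagonal k, ((p.1 : ℚ) + 1) • (dl D (p.1 + 1) a * dl D p.2 b) := by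
        rw [Finset.Nat.sum_antidiagonal_succ]; simp
      have e2 : ∑ p ∈ antidiagonal (k + 1), ((p.2 : ℕ) : ℚ) • (dl D p.1 a * dl D p.2 b) =
          ∑ p ∈ antidiagonal k, ((p.2 : ℚ) + 1) • (dl D p.1 a * dl D (p.2 + 1) b) := by
        rw [Finset.Nat.sum_antidiagonal_succ']; simp
      have e3 : ((k : ℚ) + 1) • ∑ p ∈ antidiagonal (k + 1), dl D p.1 a * dl D p.2 b =
          ∑ p ∈ antidiagonal (k + 1), ((p.1 : ℕ) : ℚ) • (dl D p.1 a * dl D p.2 b) +
          ∑ p ∈ antidiagonal (k + 1), ((p.2 : ℕ) : ℚ) • (dl D p.1 a * dl D p.2 b) := by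
        rw [← Finset.sum_add_distrib, Finset.smul_sum]
        apply Finset.sum_congr rfl
        intro p hp
        rw [← add_smul]
        congr 1
        have := Finset.HasAntidiagonal.mem_antidiagonal.mp hp
        have h3 : ((p.1 : ℕ) : ℚ) + (p.2 : ℕ) = ((k + 1 : ℕ) : ℚ) := by exact_mod_cast this
        rw [h3]; push_cast; ring
      rw [e3, e1, e2, ← Finset.sum_add_distrib]
      apply Finset.sum_congr rfl
      intro p _
      rw [hD, D_dl, D_dl, mul_smul_comm, mul_smul_comm, mul_comm (dl D p.2 b), add_comm]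
    rw [h2] at h
    have h4 : ((k : ℚ) + 1) ≠ 0 := by positivity
    exact smul_right_injective V h4 h

end leib

section V
variable {A : Type*} [CommRing A]

/-- Coefficientwise application of an additive map. -/
noncomputable def Dv (d : A →+ A) : HahnSeries ℚ A →+ HahnSeries ℚ A where
  toFun x := x.map d
  map_zero' := by ext; simp
  map_add' x y := by ext; simp

theorem Dv_coeff (d : A →+ A) (x : HahnSeries ℚ A) (q : ℚ) : (Dv d x).coeff q = d (x.coeff q) := rfl

theorem Dv_iter (d : A →+ A) (x : HahnSeries ℚ A) (k : ℕ) (q : ℚ) :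
    ((Dv d)^[k] x).coeff q = d^[k] (x.coeff q) := by
  induction k generalizing x with
  | zero => rfl
  | succ k ih => rw [Function.iterate_succ_apply, Function.iterate_succ_apply, ih, Dv_coeff]

theorem supp_Dv (d : A →+ A) (x : HahnSeries ℚ A) : (Dv d x).support ⊆ x.support := by
  intro q hq
  simp only [HahnSeries.mem_support, Dv_coeff] at hq ⊢
  intro h; rw [h, map_zero] at hq; exact hq rfl

theorem supp_Dv_iter (d : A →+ A) (x : HahnSeries ℚ A) (k : ℕ) :
    ((Dv d)^[k] x).support ⊆ x.support := by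
  induction k generalizing x with
  | zero => exact subset_rfl
  | succ k ih =>
    rw [Function.iterate_succ_apply]
    exact (ih _).trans (supp_Dv d x)

theorem Dv_der (d : A →+ A) (hd : IsDer d) : IsDer (Dv d) := by
  intro x y
  ext q
  rw [Dv_coeff, HahnSeries.coeff_add, HahnSeries.coeff_mul, mul_comm y (Dv d x),
    HahnSeries.coeff_mul_right' y.isPWO_support (supp_Dv d y),
    HahnSeries.coeff_mul_left' x.isPWO_support (supp_Dv d x), map_sum, ← Finset.sum_add_distrib]
  apply Finset.sum_congr rfl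
  intro p _
  rw [hd, Dv_coeff, Dv_coeff, mul_comm (y.coeff p.2)]

noncomputable instance [DD A] : DD (HahnSeries ℚ A) where
  d1 := Dv DD.d1
  d2 := Dv DD.d2
  mul1 := Dv_der _ DD.mul1
  mul2 := Dv_der _ DD.mul2
  comm a := by ext q; exact DD.comm _

variable [DD A] [Algebra ℚ A]

instance : IsScalarTower ℚ (HahnSeries ℚ A) (HahnSeries ℚ A) := ⟨fun c x y => by
  ext q
  have h1 : (c • x).support ⊆ x.support := by
    intro q hq h; apply hq; rw [HahnSeries.coeff_smul, h, smul_zero]
  rw [smul_eq_mul, smul_eq_mul, HahnSeries.coeff_smul,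
    HahnSeries.coeff_mul_left' x.isPWO_support h1, HahnSeries.coeff_mul (x := x), Finset.smul_sum]
  exact Finset.sum_congr rfl fun p _ => by rw [HahnSeries.coeff_smul, smul_mul_assoc]⟩

instance : SMulCommClass ℚ (HahnSeries ℚ A) (HahnSeries ℚ A) := ⟨fun c x y => by
  rw [smul_eq_mul, smul_eq_mul, mul_comm x, mul_comm x, ← smul_eq_mul, ← smul_eq_mul,
    smul_assoc]⟩

/-- `ħ^q`. -/
noncomputable abbrev hh (q : ℚ) : HahnSeries ℚ A := HahnSeries.single q (1 : A)

/-- `δ1`, `δ2` on Hahn series -/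
noncomputable abbrev e1 (k : ℕ) (x : HahnSeries ℚ A) : HahnSeries ℚ A := rf k • (Dv DD.d1)^[k] x
noncomputable abbrev e2 (k : ℕ) (x : HahnSeries ℚ A) : HahnSeries ℚ A := rf k • (Dv DD.d2)^[k] x

/-- The `k`-th term of the Moyal product. -/
noncomputable def tm (x y : HahnSeries ℚ A) (k : ℕ) : HahnSeries ℚ A :=
  rf k • (hh (k : ℚ) * ((Dv DD.d2)^[k] x * (Dv DD.d1)^[k] y))

theorem tm_coeff (x y : HahnSeries ℚ A) (k : ℕ) (q : ℚ) :
    (tm x y k).coeff q = rf k • ((Dv DD.d2)^[k] x * (Dv DD.d1)^[k] y).coeff (q - k) := by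
  rw [tm, HahnSeries.coeff_smul, HahnSeries.coeff_single_mul, one_mul]

/-- No coefficients below `m`. -/
def LB (m : ℚ) (x : HahnSeries ℚ A) : Prop := ∀ q < m, x.coeff q = 0

theorem exists_LB (x : HahnSeries ℚ A) : ∃ m : ℚ, LB m x := by
  by_cases hx : x = 0
  · exact ⟨0, fun q _ => by rw [hx]; rfl⟩
  · exact ⟨x.order, fun q hq => HahnSeries.coeff_eq_zero_of_lt_order hq⟩

theorem LB.mono {m m' : ℚ} {x : HahnSeries ℚ A} (h : LB m x) (hm : m' ≤ m) : LB m' x :=
  fun q hq => h q (lt_of_lt_of_le hq hm)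

theorem LB.mul {m m' : ℚ} {x y : HahnSeries ℚ A} (hx : LB m x) (hy : LB m' y) :
    LB (m + m') (x * y) := by
  intro q hq
  rw [HahnSeries.coeff_mul]
  apply Finset.sum_eq_zero
  intro p hp
  have hp2 := (Finset.mem_antidiagonal.mp hp).2.2
  by_cases h1 : p.1 < m
  · rw [hx _ h1, zero_mul]
  · rw [hy _ (by linarith), mul_zero]

theorem LB.Dv_iter {m : ℚ} {x : HahnSeries ℚ A} (hx : LB m x) (d : A →+ A) (k : ℕ) :
    LB m ((Dv d)^[k] x) := by
  intro q hq
  rw [AC.Dv_iter, hx q hq]
  exact iterate_map_zero d k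

theorem LB.add {m : ℚ} {x y : HahnSeries ℚ A} (hx : LB m x) (hy : LB m y) : LB m (x + y) :=
  fun q hq => by rw [HahnSeries.coeff_add, hx q hq, hy q hq, add_zero]

theorem LB.smul {m : ℚ} {x : HahnSeries ℚ A} (c : ℚ) (hx : LB m x) : LB m (c • x) :=
  fun q hq => by rw [HahnSeries.coeff_smul, hx q hq, smul_zero]

theorem LB.sum {m : ℚ} {ι : Type*} (s : Finset ι) (f : ι → HahnSeries ℚ A)
    (h : ∀ i ∈ s, LB m (f i)) : LB m (∑ i ∈ s, f i) := by
  classical
  induction s using Finset.induction_on with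
  | empty => intro q _; simp
  | insert a s ha ih =>
    rw [Finset.sum_insert ha]
    exact (h a (Finset.mem_insert_self _ _)).add (ih fun i hi => h i (Finset.mem_insert_of_mem hi))

theorem LB_tm {m m' : ℚ} {x y : HahnSeries ℚ A} (hx : LB m x) (hy : LB m' y) (k : ℕ) :
    LB (m + m' + k) (tm x y k) := by
  intro q hq
  rw [tm_coeff, (hx.Dv_iter DD.d2 k).mul (hy.Dv_iter DD.d1 k) _ (by linarith), smul_zero]

theorem nat_isPWO : (Set.range (Nat.cast : ℕ → ℚ)).IsPWO := by
  rw [← Set.image_univ]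
  apply Set.IsPWO.image_of_monotone _ Nat.mono_cast
  rw [Set.isPWO_iff_isWF]
  exact Set.isWF_univ_iff.mpr inferInstance

/-- The summable family of the Moyal product. -/
noncomputable def fam (x y : HahnSeries ℚ A) : HahnSeries.SummableFamily ℚ A ℕ where
  toFun := tm x y
  isPWO_iUnion_support' := by
    refine (nat_isPWO.add (x.isPWO_support.add y.isPWO_support)).mono ?_
    intro q hq
    obtain ⟨k, hk⟩ := Set.mem_iUnion.mp hq
    rw [HahnSeries.mem_support, tm_coeff] at hk
    have h1 : q - k ∈ ((Dv DD.d2)^[k] x * (Dv DD.d1)^[k] y).support := by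
      rw [HahnSeries.mem_support]; intro h; rw [h, smul_zero] at hk; exact hk rfl
    have h2 := HahnSeries.support_mul_subset h1
    have h3 : q - k ∈ x.support + y.support :=
      Set.add_subset_add (supp_Dv_iter _ _ _) (supp_Dv_iter _ _ _) h2
    exact ⟨k, ⟨k, rfl⟩, q - k, h3, by simp⟩
  finite_co_support' := by
    intro g
    obtain ⟨m, hm⟩ := exists_LB x
    obtain ⟨m', hm'⟩ := exists_LB y
    apply (Set.finite_Iic ⌈g - (m + m')⌉₊).subset
    intro k hk
    by_contra hlt
    apply hk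
    apply LB_tm hm hm' k
    have h1 : (⌈g - (m + m')⌉₊ : ℚ) < k := by
      have : ⌈g - (m + m')⌉₊ < k := not_le.mp hlt
      exact_mod_cast this
    have h2 := Nat.le_ceil (g - (m + m'))
    linarith

/-- The Moyal product. -/
noncomputable def star (x y : HahnSeries ℚ A) : HahnSeries ℚ A := (fam x y).hsum

/-- Truncated Moyal product. -/
noncomputable def tr (N : ℕ) (x y : HahnSeries ℚ A) : HahnSeries ℚ A :=
  ∑ k ∈ Finset.range N, tm x y k

theorem star_coeff {m m' : ℚ} {x y : HahnSeries ℚ A} (hx : LB m x) (hy : LB m' y) {N : ℕ} {q : ℚ}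
    (hq : q < m + m' + N) : (star x y).coeff q = (tr N x y).coeff q := by
  rw [star, HahnSeries.SummableFamily.coeff_hsum, tr, HahnSeries.coeff_sum]
  apply finsum_eq_sum_of_support_subset
  intro k hk
  rw [Finset.coe_range, Set.mem_Iio]
  by_contra hlt
  apply hk
  apply LB_tm hx hy k
  have : (N : ℚ) ≤ k := by exact_mod_cast not_lt.mp hlt
  linarith

theorem LB_star {m m' : ℚ} {x y : HahnSeries ℚ A} (hx : LB m x) (hy : LB m' y) :
    LB (m + m') (star x y) := by
  intro q hq
  rw [star_coeff hx hy (N := 0) (by simpa using hq), tr]; simp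

theorem LB_tr {m m' : ℚ} {x y : HahnSeries ℚ A} (hx : LB m x) (hy : LB m' y) (N : ℕ) :
    LB (m + m') (tr N x y) :=
  LB.sum _ _ fun k _ => (LB_tm hx hy k).mono (by linarith [(Nat.cast_nonneg k : (0:ℚ) ≤ k)])

theorem tm_add_left (x x' y : HahnSeries ℚ A) (k : ℕ) : tm (x + x') y k = tm x y k + tm x' y k := by
  unfold tm
  rw [iterate_map_add, add_mul, mul_add, smul_add]

theorem tm_add_right (x y y' : HahnSeries ℚ A) (k : ℕ) : tm x (y + y') k = tm x y k + tm x y' k := by
  unfold tm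
  rw [iterate_map_add, mul_add, mul_add, smul_add]

theorem star_add_left (x x' y : HahnSeries ℚ A) : star (x + x') y = star x y + star x' y := by
  rw [star, star, star, ← HahnSeries.SummableFamily.hsum_add]
  congr 1
  ext1 k
  exact tm_add_left x x' y k

theorem star_add_right (x y y' : HahnSeries ℚ A) : star x (y + y') = star x y + star x y' := by
  rw [star, star, star, ← HahnSeries.SummableFamily.hsum_add]
  congr 1
  ext1 k
  exact tm_add_right x y y' k

theorem star_zero_left (y : HahnSeries ℚ A) : star 0 y = 0 := by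
  have := star_add_left 0 0 y
  rw [add_zero] at this
  exact (left_eq_add.mp this)

theorem star_zero_right (y : HahnSeries ℚ A) : star y 0 = 0 := by
  have := star_add_right y 0 0
  rw [add_zero] at this
  exact (left_eq_add.mp this)

/-- Dependence on coefficients below a bound. -/
theorem star_congr_left {m : ℚ} {x x' y : HahnSeries ℚ A} {b : ℚ}
    (hy : LB m y) (h : ∀ q < b, x.coeff q = x'.coeff q) (q : ℚ) (hq : q < b + m) :
    (star x y).coeff q = (star x' y).coeff q := by
  have h1 : star x y = star x' y + star (x - x') y := by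
    rw [← star_add_left]; congr 1; abel
  have h2 : LB b (x - x') := fun q hq => by rw [HahnSeries.coeff_sub, h q hq, sub_self]
  rw [h1, HahnSeries.coeff_add, LB_star h2 hy q hq, add_zero]

theorem star_congr_right {m : ℚ} {x y y' : HahnSeries ℚ A} {b : ℚ}
    (hx : LB m x) (h : ∀ q < b, y.coeff q = y'.coeff q) (q : ℚ) (hq : q < m + b) :
    (star x y).coeff q = (star x y').coeff q := by
  have h1 : star x y = star x y' + star x (y - y') := by
    rw [← star_add_right]; congr 1; abel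
  have h2 : LB b (y - y') := fun q hq => by rw [HahnSeries.coeff_sub, h q hq, sub_self]
  rw [h1, HahnSeries.coeff_add, LB_star hx h2 q hq, add_zero]

/-! ### Associativity -/

theorem hh_mul (a b : ℚ) : (hh a * hh b : HahnSeries ℚ A) = hh (a + b) := by
  simp [HahnSeries.single_mul_single]

theorem Dv_hh_mul (d : A →+ A) (hd : IsDer d) (r : ℚ) (x : HahnSeries ℚ A) :
    Dv d (hh r * x) = hh r * Dv d x := by
  ext q
  rw [Dv_coeff, HahnSeries.coeff_single_mul, HahnSeries.coeff_single_mul, one_mul, one_mul,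
    Dv_coeff]

theorem Dv_iter_hh_mul (d : A →+ A) (hd : IsDer d) (r : ℚ) (x : HahnSeries ℚ A) (k : ℕ) :
    (Dv d)^[k] (hh r * x) = hh r * (Dv d)^[k] x := by
  induction k with
  | zero => rfl
  | succ k ih => rw [Function.iterate_succ_apply', ih, Dv_hh_mul d hd, Function.iterate_succ_apply']

theorem iter_smul {V : Type*} [AddCommGroup V] [Module ℚ V] (D : V →+ V) (k : ℕ) (c : ℚ) (a : V) :
    D^[k] (c • a) = c • D^[k] a := by
  induction k with
  | zero => rfl
  | succ k ih => rw [Function.iterate_succ_apply', ih, map_rat_smul, Function.iterate_succ_apply']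

theorem iter_sum {V ι : Type*} [AddCommGroup V] (D : V →+ V) (k : ℕ) (s : Finset ι) (f : ι → V) :
    D^[k] (∑ i ∈ s, f i) = ∑ i ∈ s, D^[k] (f i) := by
  induction k with
  | zero => rfl
  | succ k ih => simp only [Function.iterate_succ_apply', ih, map_sum]

theorem iter_comm {V : Type*} [AddCommGroup V] (D D' : V →+ V) (h : ∀ a, D (D' a) = D' (D a))
    (k l : ℕ) (a : V) : D^[k] (D'^[l] a) = D'^[l] (D^[k] a) := by
  have h1 : Function.Commute (D : V → V) (D' : V → V) := h
  exact (h1.iterate_iterate k l) a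

/-- The general term of a triple product. -/
noncomputable def TT (x y z : HahnSeries ℚ A) (j i m : ℕ) : HahnSeries ℚ A :=
  (rf j * rf i * rf m) • (hh ((j : ℚ) + i + m) * ((Dv DD.d2)^[i + j] x *
    ((Dv DD.d2)^[m] ((Dv DD.d1)^[j] y)) * (Dv DD.d1)^[i + m] z))

theorem LB_TT {a b c : ℚ} {x y z : HahnSeries ℚ A} (hx : LB a x) (hy : LB b y) (hz : LB c z)
    (j i m : ℕ) : LB (a + b + c + (j + i + m)) (TT x y z j i m) := by
  intro q hq
  rw [TT, HahnSeries.coeff_smul, HahnSeries.coeff_single_mul, one_mul,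
    (((hx.Dv_iter DD.d2 _).mul ((hy.Dv_iter DD.d1 _).Dv_iter DD.d2 _)).mul
      (hz.Dv_iter DD.d1 _)) _ (by linarith), smul_zero]

theorem tm_tr_left (x y z : HahnSeries ℚ A) (N k : ℕ) :
    tm (tr N x y) z k = ∑ j ∈ range N, ∑ p ∈ HasAntidiagonal.antidiagonal k, TT x y z j p.1 p.2 := by
  have hs : (Dv DD.d2)^[k] (tr N x y) = ∑ j ∈ range N, (Dv DD.d2)^[k] (tm x y j) := by
    rw [tr]
    exact iter_sum _ _ _ _
  rw [tm, hs, Finset.sum_mul, Finset.mul_sum, Finset.smul_sum]
  apply Finset.sum_congr rfl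
  intro j _
  have h1 := leib (Dv (DD.d2 : A →+ A)) (Dv_der _ DD.mul2) ((Dv DD.d2)^[j] x) ((Dv DD.d1)^[j] y) k
  have h2 : rf k • ((Dv DD.d2)^[k] (tm x y j)) = rf j • (hh (j : ℚ) *
      ∑ p ∈ HasAntidiagonal.antidiagonal k, dl (Dv DD.d2) p.1 ((Dv DD.d2)^[j] x) *
        dl (Dv DD.d2) p.2 ((Dv DD.d1)^[j] y)) := by
    rw [← h1, tm, iter_smul, Dv_iter_hh_mul _ DD.mul2, smul_comm, dl, mul_smul_comm]
  have h3 : rf k • (hh (k : ℚ) * ((Dv DD.d2)^[k] (tm x y j) * (Dv DD.d1)^[k] z)) =
      hh (k : ℚ) * ((rf k • (Dv DD.d2)^[k] (tm x y j)) * (Dv DD.d1)^[k] z) := by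
    rw [smul_mul_assoc, mul_smul_comm]
  rw [h3, h2, Finset.mul_sum, Finset.smul_sum, Finset.sum_mul, Finset.mul_sum]
  apply Finset.sum_congr rfl
  intro p hp
  have hpk : p.1 + p.2 = k := HasAntidiagonal.mem_antidiagonal.mp hp
  rw [TT, ← hpk, dl, dl, ← Function.iterate_add_apply]
  have e : (hh ((j : ℚ) + p.1 + p.2) : HahnSeries ℚ A) = hh (((p.1 + p.2 : ℕ) : ℚ)) * hh (j : ℚ) := by
    rw [hh_mul]; congr 1; push_cast; ring
  rw [e]
  simp only [smul_mul_assoc, mul_smul_comm, smul_smul]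
  congr 1
  · ring
  · ring

theorem tm_tr_right (x y z : HahnSeries ℚ A) (N k : ℕ) :
    tm x (tr N y z) k = ∑ m ∈ range N, ∑ p ∈ HasAntidiagonal.antidiagonal k, TT x y z p.1 p.2 m := by
  have hs : (Dv DD.d1)^[k] (tr N y z) = ∑ j ∈ range N, (Dv DD.d1)^[k] (tm y z j) := by
    rw [tr]
    exact iter_sum _ _ _ _
  rw [tm, hs, Finset.mul_sum, Finset.mul_sum, Finset.smul_sum]
  apply Finset.sum_congr rfl
  intro m _
  have h1 := leib (Dv (DD.d1 : A →+ A)) (Dv_der _ DD.mul1) ((Dv DD.d2)^[m] y) ((Dv DD.d1)^[m] z) k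
  have h2 : rf k • ((Dv DD.d1)^[k] (tm y z m)) = rf m • (hh (m : ℚ) *
      ∑ p ∈ HasAntidiagonal.antidiagonal k, dl (Dv DD.d1) p.1 ((Dv DD.d2)^[m] y) *
        dl (Dv DD.d1) p.2 ((Dv DD.d1)^[m] z)) := by
    rw [← h1, tm, iter_smul, Dv_iter_hh_mul _ DD.mul1, smul_comm, dl, mul_smul_comm]
  have h3 : rf k • (hh (k : ℚ) * ((Dv DD.d2)^[k] x * (Dv DD.d1)^[k] (tm y z m))) =
      hh (k : ℚ) * ((Dv DD.d2)^[k] x * (rf k • (Dv DD.d1)^[k] (tm y z m))) := by
    rw [mul_smul_comm, mul_smul_comm]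
  rw [h3, h2, Finset.mul_sum, Finset.smul_sum, Finset.mul_sum, Finset.mul_sum]
  apply Finset.sum_congr rfl
  intro p hp
  have hpk : p.1 + p.2 = k := HasAntidiagonal.mem_antidiagonal.mp hp
  rw [TT, ← hpk, dl, dl, ← Function.iterate_add_apply,
    iter_comm (Dv (DD.d1 : A →+ A)) (Dv DD.d2) (fun a => DD.comm (A := HahnSeries ℚ A) a)]
  have e : (hh ((p.1 : ℚ) + p.2 + m) : HahnSeries ℚ A) = hh (((p.1 + p.2 : ℕ) : ℚ)) * hh (m : ℚ) := by
    rw [hh_mul]; congr 1; push_cast; ring
  rw [e, add_comm p.2 p.1]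
  simp only [smul_mul_assoc, mul_smul_comm, smul_smul]
  congr 1
  · ring
  · ring

/-- Sums over `k < N` and the antidiagonal of `k`, up to negligible terms. -/
theorem sum_tri (G : ℕ → ℕ → ℕ → A) (N : ℕ) (hG : ∀ j i m, N ≤ j + i + m → G j i m = 0) :
    ∑ k ∈ range N, ∑ j ∈ range N, ∑ p ∈ HasAntidiagonal.antidiagonal k, G j p.1 p.2 =
      ∑ t ∈ range N ×ˢ range N ×ˢ range N, G t.1 t.2.1 t.2.2 := by
  have h0 : ∀ (j : ℕ), ∑ k ∈ range N, ∑ p ∈ HasAntidiagonal.antidiagonal k, G j p.1 p.2 =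
      ∑ t ∈ range N ×ˢ range N, G j t.1 t.2 := by
    intro j
    rw [Finset.sum_sigma']
    symm
    apply Finset.sum_bij_ne_zero (fun (t : ℕ × ℕ) _ _ => (⟨t.1 + t.2, t⟩ : Σ _ : ℕ, ℕ × ℕ))
    · intro t ht hne
      rw [Finset.mem_sigma]
      refine ⟨?_, HasAntidiagonal.mem_antidiagonal.mpr rfl⟩
      rw [Finset.mem_range]
      by_contra hlt
      apply hne
      apply hG
      simp only at hlt
      omega
    · intro t _ _ t' _ _ h
      simpa using (Sigma.mk.inj_iff.mp h).2
    · intro b hb hne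
      obtain ⟨k, p⟩ := b
      rw [Finset.mem_sigma] at hb
      have h1 := Finset.mem_range.mp hb.1
      have h2 : p.1 + p.2 = k := HasAntidiagonal.mem_antidiagonal.mp hb.2
      simp only at h1 h2
      refine ⟨p, ?_, hne, ?_⟩
      · rw [Finset.mem_product, Finset.mem_range, Finset.mem_range]; omega
      · subst h2; rfl
    · intro t _ _; rfl
  rw [Finset.sum_comm]
  rw [Finset.sum_product]
  exact Finset.sum_congr rfl fun j _ => h0 j

theorem star_assoc (x y z : HahnSeries ℚ A) : star (star x y) z = star x (star y z) := by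
  obtain ⟨a, ha⟩ := exists_LB x
  obtain ⟨b, hb⟩ := exists_LB y
  obtain ⟨c, hc⟩ := exists_LB z
  ext q
  obtain ⟨N, hN⟩ := exists_nat_gt (q - (a + b + c))
  have hN' : q < a + b + c + N := by linarith
  -- left side
  have hl1 : (star (star x y) z).coeff q = (star (tr N x y) z).coeff q := by
    apply star_congr_left hc (b := a + b + N) _ q (by linarith)
    intro q' hq'
    exact star_coeff ha hb hq'
  have hl2 : (star (tr N x y) z).coeff q = (tr N (tr N x y) z).coeff q :=
    star_coeff (LB_tr ha hb N) hc (by linarith)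
  have hr1 : (star x (star y z)).coeff q = (star x (tr N y z)).coeff q := by
    apply star_congr_right ha (b := b + c + N) _ q (by linarith)
    intro q' hq'
    exact star_coeff hb hc hq'
  have hr2 : (star x (tr N y z)).coeff q = (tr N x (tr N y z)).coeff q :=
    star_coeff ha (LB_tr hb hc N) (by linarith)
  have hG : ∀ j i m, N ≤ j + i + m → (TT x y z j i m).coeff q = 0 := by
    intro j i m h
    apply LB_TT ha hb hc j i m
    have : (N : ℚ) ≤ j + i + m := by exact_mod_cast h
    linarith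
  rw [hl1, hl2, hr1, hr2]
  have hL : (tr N (tr N x y) z).coeff q =
      ∑ t ∈ range N ×ˢ range N ×ˢ range N, (TT x y z t.1 t.2.1 t.2.2).coeff q := by
    rw [← sum_tri (fun j i m => (TT x y z j i m).coeff q) N hG]
    conv_lhs => rw [tr]
    simp only [tm_tr_left, HahnSeries.coeff_sum]
  have hR : (tr N x (tr N y z)).coeff q =
      ∑ t ∈ range N ×ˢ range N ×ˢ range N, (TT x y z t.2.1 t.2.2 t.1).coeff q := by
    rw [← sum_tri (fun m j i => (TT x y z j i m).coeff q) N (fun m j i h => hG j i m (by omega))]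
    conv_lhs => rw [tr]
    simp only [tm_tr_right, HahnSeries.coeff_sum]
  rw [hL, hR]
  refine Finset.sum_nbij' (fun t => (t.2.2, t.1, t.2.1)) (fun t => (t.2.1, t.2.2, t.1)) ?_ ?_ ?_ ?_ ?_
  · intro t ht; simp only [Finset.mem_product] at ht ⊢; tauto
  · intro t ht; simp only [Finset.mem_product] at ht ⊢; tauto
  · intro t _; rfl
  · intro t _; rfl
  · intro t _; rfl

theorem IsDer.map_one' {V : Type*} [CommRing V] {d : V →+ V} (hd : IsDer d) : d 1 = 0 := by
  have h := hd 1 1
  simpa using h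

theorem iter_one {V : Type*} [CommRing V] {d : V →+ V} (hd : IsDer d) (k : ℕ) (hk : k ≠ 0) :
    d^[k] 1 = 0 := by
  obtain ⟨k, rfl⟩ := Nat.exists_eq_succ_of_ne_zero hk
  rw [Function.iterate_succ_apply, hd.map_one', iterate_map_zero]

theorem tm_zero (x y : HahnSeries ℚ A) : tm x y 0 = x * y := by
  unfold tm
  rw [rf_zero, one_smul]
  simp

theorem star_eq_of_tm (x y : HahnSeries ℚ A) (h : ∀ k, k ≠ 0 → tm x y k = 0) :
    star x y = x * y := by
  obtain ⟨a, ha⟩ := exists_LB x
  obtain ⟨b, hb⟩ := exists_LB y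
  ext q
  obtain ⟨N, hN⟩ := exists_nat_gt (q - (a + b))
  rw [star_coeff ha hb (N := N + 1) (by push_cast; linarith), tr, Finset.sum_range_succ',
    Finset.sum_eq_zero (fun k _ => h (k + 1) (Nat.succ_ne_zero k)), zero_add, tm_zero]

theorem one_star (x : HahnSeries ℚ A) : star 1 x = x := by
  rw [star_eq_of_tm, one_mul]
  intro k hk
  rw [tm, iter_one (Dv_der _ DD.mul2) k hk, zero_mul, mul_zero, smul_zero]

theorem star_one (x : HahnSeries ℚ A) : star x 1 = x := by
  rw [star_eq_of_tm, mul_one]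
  intro k hk
  rw [tm, iter_one (Dv_der _ DD.mul1) k hk, mul_zero, mul_zero, smul_zero]

end V

/-! ## The Moyal ring -/

/-- The Moyal ring: Hahn series `∑ a_q ħ^q`, `a_q ∈ A`, `q ∈ ℚ`, with the product
`a ⋆ b = ∑_k ħ^k / k! d2^k(a) d1^k(b)`. -/
structure MR (A : Type*) [CommRing A] where
  s : HahnSeries ℚ A

section MR
variable {A : Type*} [CommRing A]

/-- `MR A` is `HahnSeries ℚ A` as a set. -/
def MR.e (A : Type*) [CommRing A] : MR A ≃ HahnSeries ℚ A := ⟨MR.s, MR.mk, fun _ => rfl, fun _ => rfl⟩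

noncomputable instance : AddCommGroup (MR A) := (MR.e A).addCommGroup

/-- The coefficient of `ħ^q`. -/
def cf (x : MR A) (q : ℚ) : A := x.s.coeff q

theorem MR.ext {x y : MR A} (h : ∀ q, cf x q = cf y q) : x = y :=
  (MR.e A).injective (HahnSeries.ext (funext h))

theorem s_add (x y : MR A) : (x + y).s = x.s + y.s := rfl
theorem s_zero : (0 : MR A).s = 0 := rfl
theorem s_neg (x : MR A) : (-x).s = -x.s := rfl

@[simp] theorem cf_add (x y : MR A) (q : ℚ) : cf (x + y) q = cf x q + cf y q := rfl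
@[simp] theorem cf_zero (q : ℚ) : cf (0 : MR A) q = 0 := rfl
@[simp] theorem cf_neg (x : MR A) (q : ℚ) : cf (-x) q = - cf x q := rfl
@[simp] theorem cf_sub (x y : MR A) (q : ℚ) : cf (x - y) q = cf x q - cf y q := by
  rw [sub_eq_add_neg, cf_add, cf_neg, sub_eq_add_neg]

/-- `a ħ^q` -/
noncomputable def mono (q : ℚ) (a : A) : MR A := ⟨HahnSeries.single q a⟩

theorem cf_mono (q r : ℚ) (a : A) : cf (mono q a) r = if r = q then a else 0 := by
  change (HahnSeries.single q a).coeff r = _
  by_cases h : r = q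
  · subst h; simp
  · rw [HahnSeries.coeff_single_of_ne h, if_neg h]

theorem mono_add (q : ℚ) (a b : A) : mono q (a + b) = mono q a + mono q b :=
  MR.ext fun r => by rw [cf_add, cf_mono, cf_mono, cf_mono]; split_ifs <;> simp

theorem mono_zero (q : ℚ) : mono q (0 : A) = 0 :=
  MR.ext fun r => by rw [cf_mono, cf_zero]; split_ifs <;> rfl

variable [Algebra ℚ A]

noncomputable instance : Module ℚ (MR A) := (MR.e A).module ℚ

@[simp] theorem cf_smul (c : ℚ) (x : MR A) (q : ℚ) : cf (c • x) q = c • cf x q := rfl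

variable [DD A]

noncomputable instance : Mul (MR A) := ⟨fun x y => ⟨star x.s y.s⟩⟩
noncomputable instance : One (MR A) := ⟨⟨1⟩⟩

theorem s_mul (x y : MR A) : (x * y).s = star x.s y.s := rfl
theorem s_one : (1 : MR A).s = 1 := rfl

theorem MR.s_inj {x y : MR A} (h : x.s = y.s) : x = y := (MR.e A).injective h

noncomputable instance : Ring (MR A) :=
  { (inferInstance : AddCommGroup (MR A)) with
    mul := (· * ·)
    one := 1
    mul_assoc := fun x y z => MR.s_inj (star_assoc x.s y.s z.s)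
    one_mul := fun x => MR.s_inj (one_star x.s)
    mul_one := fun x => MR.s_inj (star_one x.s)
    left_distrib := fun x y z => MR.s_inj (star_add_right x.s y.s z.s)
    right_distrib := fun x y z => MR.s_inj (star_add_left x.s y.s z.s)
    zero_mul := fun x => MR.s_inj (star_zero_left x.s)
    mul_zero := fun x => MR.s_inj (star_zero_right x.s) }

theorem one_eq : (1 : MR A) = mono 0 1 := rfl

theorem cf_one (q : ℚ) : cf (1 : MR A) q = if q = 0 then 1 else 0 := by rw [one_eq, cf_mono]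

/-- No coefficients below `m`. -/
def Ge (m : ℚ) (x : MR A) : Prop := ∀ q < m, cf x q = 0

theorem exists_Ge (x : MR A) : ∃ m, Ge m x := exists_LB x.s

theorem Ge.mul {m m' : ℚ} {x y : MR A} (hx : Ge m x) (hy : Ge m' y) : Ge (m + m') (x * y) :=
  LB_star (x := x.s) (y := y.s) hx hy

/-- The coefficients of a product, as finite sums over the order of differentiation. -/
theorem cf_mul {m m' : ℚ} {x y : MR A} (hx : Ge m x) (hy : Ge m' y) {N : ℕ} {q : ℚ}
    (hq : q < m + m' + N) : cf (x * y) q = ∑ k ∈ range N, (tm x.s y.s k).coeff q := by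
  change (star x.s y.s).coeff q = _
  rw [star_coeff (x := x.s) (y := y.s) hx hy hq, tr, HahnSeries.coeff_sum]

/-- Every coefficient of a product lies in any additive subgroup containing the
`d2^k(a) d1^k(b) / k!`. -/
theorem cf_mul_mem (H : AddSubgroup A) (x y : MR A)
    (h : ∀ (s r : ℚ) (k : ℕ), rf k • ((DD.d2 : A →+ A)^[k] (cf x s) *
      (DD.d1 : A →+ A)^[k] (cf y r)) ∈ H) (q : ℚ) : cf (x * y) q ∈ H := by
  obtain ⟨m, hm⟩ := exists_Ge x
  obtain ⟨m', hm'⟩ := exists_Ge y
  obtain ⟨N, hN⟩ := exists_nat_gt (q - (m + m'))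
  rw [cf_mul hm hm' (N := N) (by linarith)]
  refine H.sum_mem fun k _ => ?_
  rw [tm_coeff, HahnSeries.coeff_mul, Finset.smul_sum]
  refine H.sum_mem fun p _ => ?_
  rw [Dv_iter, Dv_iter]
  exact h _ _ _

/-- The product with `a ħ^r` on the right. -/
theorem cf_mul_mono {m : ℚ} {x : MR A} (hx : Ge m x) (r : ℚ) (a : A) {N : ℕ} {q : ℚ}
    (hq : q < m + r + N) : cf (x * mono r a) q =
      ∑ k ∈ range N, rf k • ((DD.d2 : A →+ A)^[k] (cf x (q - r - k)) * (DD.d1 : A →+ A)^[k] a) := by
  have hy : Ge r (mono r a) := fun s hs => by rw [cf_mono, if_neg (ne_of_lt hs)]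
  rw [cf_mul hx hy hq]
  apply Finset.sum_congr rfl
  intro k _
  have h1 : (Dv (DD.d1 : A →+ A))^[k] (mono r a).s =
      HahnSeries.single r ((DD.d1 : A →+ A)^[k] a) := by
    ext s
    rw [Dv_iter]
    by_cases hs : s = r
    · subst hs; simp [mono]
    · simp [mono, HahnSeries.coeff_single_of_ne hs, iterate_map_zero]
  rw [tm_coeff, h1, HahnSeries.coeff_mul_single, Dv_iter]
  have : q - r - k = q - k - r := by ring
  rw [this]; rfl

/-- The product with `a ħ^r` on the left. -/
theorem cf_mono_mul {m : ℚ} {x : MR A} (hx : Ge m x) (r : ℚ) (a : A) {N : ℕ} {q : ℚ}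
    (hq : q < r + m + N) : cf (mono r a * x) q =
      ∑ k ∈ range N, rf k • ((DD.d2 : A →+ A)^[k] a * (DD.d1 : A →+ A)^[k] (cf x (q - r - k))) := by
  have hy : Ge r (mono r a) := fun s hs => by rw [cf_mono, if_neg (ne_of_lt hs)]
  rw [cf_mul hy hx hq]
  apply Finset.sum_congr rfl
  intro k _
  have h1 : (Dv (DD.d2 : A →+ A))^[k] (mono r a).s =
      HahnSeries.single r ((DD.d2 : A →+ A)^[k] a) := by
    ext s
    rw [Dv_iter]
    by_cases hs : s = r
    · subst hs; simp [mono]
    · simp [mono, HahnSeries.coeff_single_of_ne hs, iterate_map_zero]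
  rw [tm_coeff, h1, HahnSeries.coeff_single_mul, Dv_iter]
  have : q - r - k = q - k - r := by ring
  rw [this]; rfl

/-- Leading coefficients multiply. -/
theorem cf_mul_lead {m m' : ℚ} {x y : MR A} (hx : Ge m x) (hy : Ge m' y) :
    cf (x * y) (m + m') = cf x m * cf y m' := by
  rw [cf_mul hx hy (N := 1) (by push_cast; linarith), Finset.sum_range_one, tm_zero,
    HahnSeries.coeff_mul]
  have key : ∀ p : ℚ × ℚ, p.1 + p.2 = m + m' → p ≠ (m, m') →
      x.s.coeff p.1 * y.s.coeff p.2 = 0 := by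
    intro p h3 hne
    by_cases h1 : p.1 < m
    · have : x.s.coeff p.1 = 0 := hx _ h1
      rw [this, zero_mul]
    · have h2 : p.1 ≠ m := by
        intro h2
        apply hne
        have h4 : p.2 = m' := by linarith
        exact Prod.ext h2 h4
      have h5 : p.2 < m' := by
        have : m < p.1 := lt_of_le_of_ne (not_lt.mp h1) (Ne.symm h2)
        linarith
      have : y.s.coeff p.2 = 0 := hy _ h5
      rw [this, mul_zero]
  rw [Finset.sum_eq_single (m, m')]
  · rfl
  · intro p hp hne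
    exact key p (Finset.mem_antidiagonal.mp hp).2.2 hne
  · intro hn
    by_contra h
    apply hn
    rw [Finset.mem_antidiagonal]
    refine ⟨?_, ?_, rfl⟩
    · intro h0; apply h
      simp only at h0 ⊢
      rw [h0, zero_mul]
    · intro h0; apply h
      simp only at h0 ⊢
      rw [h0, mul_zero]

/-- `ħ^r` shifts the coefficients. -/
theorem cf_h_mul (r : ℚ) (x : MR A) (q : ℚ) : cf (mono r 1 * x) q = cf x (q - r) := by
  obtain ⟨m, hm⟩ := exists_Ge x
  obtain ⟨N, hN⟩ := exists_nat_gt (q - (r + m))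
  rw [cf_mono_mul hm r 1 (N := N + 1) (by push_cast; linarith), Finset.sum_range_succ',
    Finset.sum_eq_zero]
  · simp [rf_zero]
  · intro k _
    rw [iter_one DD.mul2 (k + 1) (Nat.succ_ne_zero k), zero_mul, smul_zero]

theorem cf_mul_h (r : ℚ) (x : MR A) (q : ℚ) : cf (x * mono r 1) q = cf x (q - r) := by
  obtain ⟨m, hm⟩ := exists_Ge x
  obtain ⟨N, hN⟩ := exists_nat_gt (q - (m + r))
  rw [cf_mul_mono hm r 1 (N := N + 1) (by push_cast; linarith), Finset.sum_range_succ',
    Finset.sum_eq_zero]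
  · simp [rf_zero]
  · intro k _
    rw [iter_one DD.mul1 (k + 1) (Nat.succ_ne_zero k), mul_zero, smul_zero]

theorem h_central (r : ℚ) (x : MR A) : mono r 1 * x = x * mono r 1 :=
  MR.ext fun q => by rw [cf_h_mul, cf_mul_h]

theorem h_mul_h (r s : ℚ) : (mono r 1 * mono s 1 : MR A) = mono (r + s) 1 :=
  MR.ext fun q => by
    rw [cf_h_mul, cf_mono, cf_mono]
    have : (q - r = s) ↔ (q = r + s) := by constructor <;> intro h <;> linarith
    simp only [this]

theorem h_pow (r : ℚ) (n : ℕ) : (mono r 1 : MR A) ^ n = mono (n * r) 1 := by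
  induction n with
  | zero => rw [pow_zero, one_eq]; simp
  | succ n ih => rw [pow_succ, ih, h_mul_h]; congr 1; push_cast; ring

theorem mono_eq (r : ℚ) (a : A) : mono r a = mono r 1 * mono 0 a :=
  MR.ext fun q => by
    rw [cf_h_mul, cf_mono, cf_mono]
    have : (q - r = 0) ↔ (q = r) := by constructor <;> intro h <;> linarith
    simp only [this]

/-- Series with constant coefficients are central. -/
theorem const_central (c : MR A) (h1 : ∀ q, DD.d1 (cf c q) = 0) (h2 : ∀ q, DD.d2 (cf c q) = 0)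
    (x : MR A) : c * x = x * c := by
  have e1 : ∀ k, k ≠ 0 → tm c.s x.s k = 0 := by
    intro k hk
    obtain ⟨k, rfl⟩ := Nat.exists_eq_succ_of_ne_zero hk
    have : Dv (DD.d2 : A →+ A) c.s = 0 := HahnSeries.ext (funext fun q => h2 q)
    rw [tm, Function.iterate_succ_apply, this, iterate_map_zero, zero_mul, mul_zero, smul_zero]
  have e2 : ∀ k, k ≠ 0 → tm x.s c.s k = 0 := by
    intro k hk
    obtain ⟨k, rfl⟩ := Nat.exists_eq_succ_of_ne_zero hk
    have : Dv (DD.d1 : A →+ A) c.s = 0 := HahnSeries.ext (funext fun q => h1 q)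
    rw [tm, Function.iterate_succ_apply (Dv (DD.d1 : A →+ A)), this, iterate_map_zero, mul_zero,
      mul_zero, smul_zero]
  apply MR.s_inj
  rw [s_mul, s_mul, star_eq_of_tm c.s x.s e1, star_eq_of_tm x.s c.s e2, mul_comm]

instance [IsDomain A] : NoZeroDivisors (MR A) where
  eq_zero_or_eq_zero_of_mul_eq_zero := by
    intro x y h
    by_contra hne
    rw [not_or] at hne
    have hx : x.s ≠ 0 := fun h => hne.1 (MR.s_inj h)
    have hy : y.s ≠ 0 := fun h => hne.2 (MR.s_inj h)
    have h1 : Ge x.s.order x := fun q hq => HahnSeries.coeff_eq_zero_of_lt_order hq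
    have h2 : Ge y.s.order y := fun q hq => HahnSeries.coeff_eq_zero_of_lt_order hq
    have h3 := cf_mul_lead h1 h2
    rw [h, cf_zero] at h3
    rcases mul_eq_zero.mp h3.symm with h4 | h4
    · exact hx (HahnSeries.coeff_order_eq_zero.mp h4)
    · exact hy (HahnSeries.coeff_order_eq_zero.mp h4)

instance [Nontrivial A] : Nontrivial (MR A) :=
  ⟨1, 0, fun h => by
    have := congrArg (fun x => cf x 0) h
    simp [cf_one] at this⟩

end MR

/-! ## Functoriality -/

section mp
variable {A B : Type*} [CommRing A] [CommRing B] [Algebra ℚ A] [Algebra ℚ B] [DD A] [DD B]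

theorem iter_hom (φ : A →+* B) (hφ : IsDD φ) (k : ℕ) (a : A) :
    φ ((DD.d1 : A →+ A)^[k] a) = (DD.d1 : B →+ B)^[k] (φ a) ∧
      φ ((DD.d2 : A →+ A)^[k] a) = (DD.d2 : B →+ B)^[k] (φ a) := by
  induction k generalizing a with
  | zero => exact ⟨rfl, rfl⟩
  | succ k ih =>
    rw [Function.iterate_succ_apply, Function.iterate_succ_apply, Function.iterate_succ_apply,
      Function.iterate_succ_apply, (ih _).1, (ih _).2, hφ.1, hφ.2]
    exact ⟨rfl, rfl⟩

/-- The ring homomorphism `MR A → MR B` induced by a differential homomorphism. -/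
noncomputable def mp (φ : A →+* B) (hφ : IsDD φ) : MR A →+* MR B where
  toFun x := ⟨x.s.map φ⟩
  map_one' := by
    refine MR.ext fun q => ?_
    change φ (cf (1 : MR A) q) = _
    rw [cf_one, cf_one]; split_ifs <;> simp
  map_zero' := by
    refine MR.ext fun q => ?_
    change φ (cf (0 : MR A) q) = _
    rw [cf_zero, cf_zero, map_zero]
  map_add' x y := by
    refine MR.ext fun q => ?_
    change φ (cf (x + y) q) = φ (cf x q) + φ (cf y q)
    rw [cf_add, map_add]
  map_mul' x y := by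
    refine MR.ext fun q => ?_
    change φ (cf (x * y) q) = _
    obtain ⟨m, hm⟩ := exists_Ge x
    obtain ⟨m', hm'⟩ := exists_Ge y
    obtain ⟨N, hN⟩ := exists_nat_gt (q - (m + m'))
    have hm2 : Ge m (⟨x.s.map φ⟩ : MR B) := by
      intro r hr
      change φ (cf x r) = 0
      rw [hm r hr, map_zero]
    have hm2' : Ge m' (⟨y.s.map φ⟩ : MR B) := by
      intro r hr
      change φ (cf y r) = 0
      rw [hm' r hr, map_zero]
    rw [cf_mul hm hm' (N := N) (by linarith), cf_mul hm2 hm2' (N := N) (by linarith), map_sum]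
    apply Finset.sum_congr rfl
    intro k _
    rw [tm_coeff, tm_coeff]
    have hq : ∀ (c : ℚ) (a : A), φ (c • a) = c • φ a := fun c a =>
      map_rat_smul φ.toAddMonoidHom c a
    rw [hq]
    congr 1
    have hx : (Dv (DD.d2 : B →+ B))^[k] (x.s.map φ) =
        HahnSeries.map ((Dv (DD.d2 : A →+ A))^[k] x.s) φ := by
      ext r
      rw [Dv_iter, HahnSeries.map_coeff, HahnSeries.map_coeff, Dv_iter, (iter_hom φ hφ k _).2]
    have hy : (Dv (DD.d1 : B →+ B))^[k] (y.s.map φ) =
        HahnSeries.map ((Dv (DD.d1 : A →+ A))^[k] y.s) φ := by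
      ext r
      rw [Dv_iter, HahnSeries.map_coeff, HahnSeries.map_coeff, Dv_iter, (iter_hom φ hφ k _).1]
    rw [hx, hy, ← HahnSeries.map_coeff]
    exact congrArg (fun z : HahnSeries ℚ B => z.coeff (q - k))
      (HahnSeries.map_mul (f := (φ : A →ₙ+* B)))

@[simp] theorem cf_mp (φ : A →+* B) (hφ : IsDD φ) (x : MR A) (q : ℚ) :
    cf (mp φ hφ x) q = φ (cf x q) := rfl

theorem mp_mono (φ : A →+* B) (hφ : IsDD φ) (q : ℚ) (a : A) :
    mp φ hφ (mono q a) = mono q (φ a) :=
  MR.ext fun r => by rw [cf_mp, cf_mono, cf_mono]; split_ifs <;> simp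

end mp

end Run7.h432.AC
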