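import Pool.Agent.Run7.h432.AC.Def

/-!
# Algebraically closed associative algebras exist (MP_4b1745_al): pieces, first batch

Goal: a field `P` and a nonzero associative `P`-algebra `R` in which every equation `f = 0`,
`f ∈ R * P⟨x_1, x_2, …⟩`, `f ∉ R`, has a solution. `R` will be the ring of Hahn series
`∑ a_q ħ^q` (`q ∈ ℚ`, `a_q ∈ E`) with the Moyal product
`a ⋆ b = ∑_k ħ^k / k! d2^k(a) d1^k(b)`, where `E` is a field of characteristic `0` with two
commuting derivations in which every nonconstant differential polynomial has a zero.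

This file holds the pieces which do not need the Moyal ring. Every `S_XXX` is a closed statement;
its proof is in the doc string.
-/

set_option autoImplicit false

namespace Run7.h432.AC

open MvPolynomial TensorProduct

/-- GEN. A generic zero of an irreducible polynomial at which a given partial derivative does not
vanish. PROOF. Write `L` for the algebraic closure of `Frac E[X_ρ : ρ ∈ σ]`. Put `c_ρ = X_ρ` for
`ρ ≠ θ` and let `c_θ` be a root in `L` of `A(X_{≠θ}, Y) ∈ L[Y]`; it has positive degree in `Y`
because `θ ∈ vars A` and the `X_ρ`, `ρ ≠ θ`, are algebraically independent. Let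
`R' = MvPolynomial {ρ // ρ ≠ θ} E` (a UFD), `K' = FractionRing R'`; under
`MvPolynomial σ E ≃ Polynomial R'` the polynomial `A` is irreducible of positive degree, hence
primitive and (Gauss, `Polynomial.IsPrimitive.irreducible_iff_irreducible_map_fraction_map`)
irreducible over `K'`, hence separable (characteristic 0), so its derivative (which is the image
of `pderiv θ A`) does not vanish at a root in the field `L ⊇ K'`
(`K' → L` is the extension of `R' → L`, `X_ρ ↦ X_ρ`, injective). Any other proof is fine. -/
def S_GEN : Prop := ∀ (σ E : Type) [Field E] [CharZero E] (A : MvPolynomial σ E),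
  Irreducible A → ∀ θ ∈ A.vars, ∃ c : σ → AlgebraicClosure (FractionRing (MvPolynomial σ E)),
    aeval c A = 0 ∧ aeval c (pderiv θ A) ≠ 0

/-- REC. PROOF. Order the variables `(i, j)` by `(i + j, i) ∈ ℕ ×ₗ ℕ` (a well-order `<` on the
variables with `ρ < ρ'` implying `ρ + e < ρ' + e` and `ρ < ρ + e`, `e = (1,0), (0,1)`; shifting by
`e` is `d1`, `d2` on variables). Let `θ` be the largest variable in `vars A` (the leader),
`S = pderiv θ A`, `c0` as given. For a set of variables let `Low ρ` be the subalgebra
`MvPolynomial.supported E {σ | σ < ρ}` (or `Algebra.adjoin`). (1) `d_i` maps `Low ρ` into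
`Low (ρ + e_i)` and `S, A` lie in the algebra of variables `≤ θ`.
(2) For `α ∈ ℕ × ℕ`, `α ≠ 0`: `d1^α₁ d2^α₂ A = S * X (θ + α) + R_α` with `R_α ∈ Low (θ + α)`, by
induction on `α₁ + α₂`: first step `d_i A = ∑_ρ pderiv ρ A * X (ρ + e_i) + (d_i on coefficients)`,
next steps `d_i (S X(θ+α) + R_α) = S X(θ+α+e_i) + d_i(S) X(θ+α) + d_i(R_α)`.
(3) Define `c` by well-founded recursion: `c ρ = c0 ρ` if `ρ` is not of the form `θ + α`, `α ≠ 0`,
and `c (θ + α) = - R_α(c) / S(c0)`; the variables of `S` and `A` are `≤ θ`, so
`S(c) = S(c0) ≠ 0`, `A(c) = A(c0) = 0`, and `(d^α A)(c) = S(c) c(θ+α) + R_α(c) = 0`. -/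
def S_REC : Prop := ∀ (E L : Type) [Field E] [CharZero E] [DD E] [Field L] (ι : E →+* L)
    (A : DP E Unit), A.vars.Nonempty →
  (∀ θ ∈ A.vars, ∃ c : Unit × ℕ × ℕ → L, eval₂ ι c A = 0 ∧ eval₂ ι c (pderiv θ A) ≠ 0) →
  ∃ c : Unit × ℕ × ℕ → L, ∀ i j : ℕ,
    eval₂ ι c ((DD.d1 : DP E Unit →+ DP E Unit)^[i] ((DD.d2 : DP E Unit →+ DP E Unit)^[j] A)) = 0

/-- TAY (Taylor morphism). PROOF. `T b = ∑_{i,j} ε (d1^i d2^j b) / (i! j!) s^i t^j`, i.e.
`coeff n (T b) = ε (d1^[n 0] (d2^[n 1] b)) / (n 0)! / (n 1)!`. Multiplicative by the Leibniz rule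
for iterated derivations (with divided powers), and `T (d1 b)`, `T (d2 b)` are the partial
derivatives by `MvPowerSeries.coeff_pderiv`. Convenient: do it with divided powers
`δ n a = d^[n] a / n!` (after applying `ε`). -/
def S_TAY : Prop := ∀ (B L : Type) [CommRing B] [DD B] [Field L] [CharZero L]
    (ε : B →+* L), ∃ T : B →+* MvPowerSeries (Fin 2) L, IsDD T ∧
  ∀ b, T b = 0 ↔ ∀ i j : ℕ, ε ((DD.d1 : B →+ B)^[i] ((DD.d2 : B →+ B)^[j] b)) = 0

/-- STEP (glue). PROOF. Given `E`, let `L` be the algebraic closure of
`Frac (DP E Unit)`, `W = MvPowerSeries (Fin 2) L`, `E' = FractionRing W` with its instance `DD`,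
`φ = algebraMap ∘ T` with `T` from TAY for `B = E`, `ε = algebraMap E L`. For a nonconstant `P`
take an irreducible factor `A` of `P` (`DP E Unit` is a UFD and `P` is not a unit, not `0`);
`A` is not constant, so `vars A` is nonempty; GEN and REC give `c`; TAY for `B = DP E Unit`,
`ε = eval₂Hom (algebraMap E L) c` gives `T'` with `T' A = 0`, hence `T' P = 0`; `T' ∘ C = T` since
both have the same coefficients (so state a uniqueness lemma, or construct `T` explicitly: the
Taylor morphism is unique because its coefficients are determined by `IsDD` and the constant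
coefficient; alternatively prove TAY with the explicit coefficient formula), and
`T' P = subst T (T' (X ((),0,0))) P`. Take `y` the image of `T' (X ((),0,0))` in `E'`. -/
def S_STEP : Prop := S_GEN → S_REC → S_TAY → Step

/-- LIM. PROOF. Iterate `Step` from `E_0 = ℚ` (zero derivations) to get `E_0 → E_1 → E_2 → …`, all
maps `IsDD`, and take the direct limit `E` (a field of characteristic 0; the derivations extend,
e.g. by the universal property applied to `toDual`). A nonconstant `P` over `E` has coefficients
in the image of some `E_n`, so `P = map ι_n P'`, `P'` is nonconstant, and it has a zero in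
`E_{n+1}`. -/
def S_LIM : Prop := Step → ∃ E : DF, DClosed E.K

/-- CONST (no new constants). PROOF. Write `c = p / q` with `p, q` coprime in the UFD
`DP E Unit`. From `d1 c = 0`: `q * d1 p = p * d1 q`, so `p ∣ d1 p` and `q ∣ d1 q`.
Claim: `p ∣ d1 p` implies `p` constant. If `vars p` is not empty, take `ρ = (i, j)` in `vars p`
with `i + j` maximal, and among these `i` maximal; `v = (i + 1, j)`. Then `d1 p` has degree
exactly `1` in `X v`, with coefficient `pderiv ρ p ≠ 0`, while `totalDegree (d1 p) ≤ totalDegree p`
so `d1 p = λ p` with `λ` constant (`d1 p ≠ 0`), which does not contain `X v`. Contradiction. So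
`p` and `q` are constants. -/
def S_CONST : Prop := ∀ (E : Type) [Field E] [CharZero E] [DD E] (c : FractionRing (DP E Unit)),
  DD.d1 c = 0 → ∃ e : E, c = algebraMap (DP E Unit) (FractionRing (DP E Unit)) (C e)

/-- LT. PROOF. `B ⊗[P] Bᵐᵒᵖ` is a simple ring (`Pool.Agent.Helper18.Br.TensorCSA`,
`isSimple_tensor`, in the starting tree, or directly: a shortest relation
`∑ p_i z q_i = 0` with `q_i` independent and `p_1 = 1`; replacing `z` by `d z` and subtracting
`d` times the relation gives a shorter one, so all `p_i` commute with all `d`, hence lie in `P`,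
and `z = 1` gives a dependence of the `q_i`). -/
def S_LT : Prop := ∀ (P B : Type) [Field P] [DivisionRing B] [Algebra P B],
  (∀ b : B, (∀ x : B, b * x = x * b) → ∃ p : P, algebraMap P B p = b) →
  ∀ t : B ⊗[P] B, (∀ z : B, opz P z t = 0) → t = 0

/-- POLY. PROOF. Induction on the expression `f` (`FreeAlgebra.induction`): constants and
`inl a` have `p 0` only; the unknown has `p 0 = b0`, `p 1 = b1`; sums; products by convolution,
using that `c` is central. -/
def S_POLY : Prop := ∀ (R B : Type) [Ring B] (j : R → B) (b0 b1 : B) (f : Syn R),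
  ∃ (N : ℕ) (p : ℕ → B), ∀ c : B, (∀ x, c * x = x * c) →
    ev j (b0 + c * b1) f = ∑ n ∈ Finset.range N, c ^ n * p n

/-- VAND. PROOF. Vandermonde determinant at `k = 0, …, N - 1` over `ℚ` (or pass to the quotient
`B / M` and use that a polynomial with infinitely many roots vanishes, coordinatewise or by
induction on `N` with finite differences). -/
def S_VAND : Prop := ∀ (B : Type) [AddCommGroup B] [Module ℚ B] (M : Submodule ℚ B) (N : ℕ)
    (p : ℕ → B), (∀ k : ℕ, ∑ n ∈ Finset.range N, ((k : ℚ) ^ n) • p n ∈ M) →
  ∀ n < N, p n ∈ M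

/-- ANL (abstract Newton lemma). `ord x` is the order of `F x` (when `F x ≠ 0`), `rad x` the
radius at `x`. PROOF. Zorn for the relation `x ≼ x'` iff `x = x'` or (`F x ≠ 0`, `x' - x` has no
coefficients below `rad x`, and `F x'` has no coefficients at or below `ord x`, i.e. `F x' = 0` or
`ord x' > ord x`). Transitivity: (c) gives `rad x ≤ rad x'`. Chains without maximum: define
`x∞` with coefficient at `q` equal to that of any `x` in the chain with `q < rad x`, and `0` if
there is none; well defined, the support is well-ordered (a nonempty subset has an element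
`t < rad x`, and below `t` it is contained in the support of `x`), `x∞ - x` has no coefficients
below `rad x`; for `x ≺ x'` in the chain (a) at `x'` shows that `F x∞` has no coefficient below
`ord x'`, hence none at or below `ord x`. So `x ≼ x∞`. A maximal `x` has `F x = 0`, since
otherwise (b) gives something strictly above `x`. -/
def S_ANL : Prop := ∀ (E : Type) [AddCommGroup E] (F : HahnSeries ℚ E → HahnSeries ℚ E)
    (rad ord : HahnSeries ℚ E → ℚ),
  (∀ x, F x ≠ 0 → (F x).coeff (ord x) ≠ 0 ∧ ∀ q < ord x, (F x).coeff q = 0) →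
  (∀ x z, F x ≠ 0 → (∀ q < rad x, z.coeff q = 0) → ∀ q < ord x, (F (x + z)).coeff q = 0) →
  (∀ x, F x ≠ 0 → ∃ y : E, ∀ q ≤ ord x, (F (x + HahnSeries.single (rad x) y)).coeff q = 0) →
  (∀ x z, F x ≠ 0 → F (x + z) ≠ 0 → (∀ q < rad x, z.coeff q = 0) →
    (∀ q ≤ ord x, (F (x + z)).coeff q = 0) → rad x ≤ rad (x + z)) →
  ∃ x, F x = 0

end Run7.h432.AC
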