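import Pool.Agent.Run7.h432.AC.Ring
import Pool.Agent.Run7.h432.AC.Stm
import Pool.Agent.Results.MP_4b1745_al.OneVariable

/-!
# Algebraically closed associative algebras exist (MP_4b1745_al): pieces, second batch

`MR A` (file `Ring.lean`) is the Moyal ring of Hahn series in `ħ` over `A`, `cf x q` the
coefficient of `ħ^q`, `mono q a = a ħ^q`, `Ge m x`: no coefficients below `m`, `mp φ` the map
induced by a differential homomorphism. The first batch (`Stm.lean`, theorems `p_XXX` in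
`P_XXX.lean`) may be used everywhere.
-/

set_option autoImplicit false

namespace Run7.h432.AC

open MvPolynomial TensorProduct

theorem C_isDD (A : Type*) [CommRing A] [DD A] (S : Type*) :
    IsDD (C : A →+* DP A S) := ⟨fun a => (dp_d1_C a).symm, fun a => (dp_d2_C a).symm⟩

/-- The embedding of `MR A` into `MR A{y_s : s ∈ S}`. -/
noncomputable def jC (A : Type*) [CommRing A] [Algebra ℚ A] [DD A] (S : Type*) :
    MR A →+* MR (DP A S) := mp C (C_isDD A S)

theorem ev_inl {R B : Type*} [Ring B] (j : R → B) (b : B) (a : R) :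
    ev j b (FreeAlgebra.ι ℤ (Sum.inl a)) = j a := by simp [ev]

theorem ev_inr {R B : Type*} [Ring B] (j : R → B) (b : B) (t : Unit) :
    ev j b (FreeAlgebra.ι ℤ (Sum.inr t)) = b := by simp [ev]

/-- Evaluation commutes with ring homomorphisms. -/
theorem ev_hom {R B B' : Type*} [Ring B] [Ring B'] (h : B →+* B') (j : R → B) (b : B)
    (f : Syn R) : h (ev j b f) = ev (fun a => h (j a)) (h b) f := by
  induction f using FreeAlgebra.induction with
  | grade0 r => simp [ev]
  | grade1 o =>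
    cases o with
    | inl a => rw [ev_inl, ev_inl]
    | inr t => rw [ev_inr, ev_inr]
  | mul x y hx hy => rw [map_mul, map_mul, map_mul, hx, hy]
  | add x y hx hy => rw [map_add, map_add, map_add, hx, hy]

section
variable {E : Type*} [Field E] [CharZero E] [DD E]

/-- The value of the expression `f` at `x`. -/
noncomputable def va (f : Syn (MR E)) (x : MR E) : MR E := ev (fun a => a) x f

/-- `f(x + ħ^r y) - f(x)`, with `y` a differential indeterminate. -/
noncomputable def gg (f : Syn (MR E)) (x : MR E) (r : ℚ) : MR (DP E Unit) :=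
  ev (jC E Unit) (jC E Unit x + mono r (X ((), 0, 0))) f - jC E Unit (va f x)

end

/-- FIN. PROOF. Call a finite family `b_s` (`s ∈ F`) of elements of `MR (DP E S)` good if
`Ge m (ev (x + ∑ k_s b_s) f - f(x))` for all `k : S → ℕ`. (1) `b_s = mono r (X (s,0,0))` is good:
apply `mp (subst C (fun _ => ∑ k_s X (s,0,0)))` (a differential homomorphism
`DP E Unit → DP E S` over `E`, `subst_isDD`) to the hypothesis. (2) If `b` is good and `δ ≥ 0`,
then the family with `b_t` replaced by `mono δ 1 * b_t` is good: fix `k`; by `p_POLY`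
`ev (x + ∑_{s ≠ t} k_s b_s + c * b_t) f = ∑ c^n p_n` for central `c`; for `c = k' ∈ ℕ` the
difference with `f(x)` is `Ge m`, so by `p_VAND` (coefficientwise; `MR` is a `ℚ`-module, `Ge m` a
subspace) `p_0 - f(x)` and all `p_n`, `n ≥ 1`, are `Ge m`; now take `c = k_t * mono δ 1` and use
`cf_h_mul`, `h_pow`. (3) Replace the `b_s` one after another, `δ = e s - r`,
`mono (e s - r) 1 * mono r y = mono (e s) y`; `k = 1`. -/
def S_FIN : Prop := ∀ (E : Type) [Field E] [CharZero E] [DD E] (f : Syn (MR E)) (x : MR E)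
    (r m : ℚ), Ge m (gg f x r) → ∀ (S : Type) (F : Finset S) (e : S → ℚ), (∀ s ∈ F, r ≤ e s) →
  Ge m (ev (jC E S) (jC E S x + ∑ s ∈ F, mono (e s) (X (s, 0, 0))) f - jC E S (va f x))

/-- SUP. PROOF. Let `S` be the support of `b` as a type (a set of rationals `≥ r`),
`ŷ = ∑_{s ∈ S} ħ^s y_s ∈ MR (DP E S)`, i.e. the Hahn series with coefficient `X (s,0,0)` at
`s ∈ S` and `0` elsewhere. The differential homomorphism `subst i (fun s => cf b s)` maps `ŷ` to
`b`, so (`ev_hom`) it suffices to show `Ge m` for `D = ev (x + ŷ) f - f(x) ∈ MR (DP E S)`. Let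
`q < m`, `c = cf D q`, `F` the finite set of `s` such that some `(s, i, j) ∈ vars c`, and
`κ = subst C (fun s => if s ∈ F then X (s,0,0) else 0)`. Then `κ c = c` (all variables of `c` are
fixed by `κ`, note `κ (X (s,i,j)) = X (s,i,j)` for `s ∈ F`), and `mp κ` maps `ŷ` to the finite sum
`∑_{s ∈ F} mono s (X (s,0,0))`, so `c = κ c` is the coefficient at `q` of
`ev (x + ∑_{s ∈ F} mono s (X (s,0,0))) f - f(x)`, which is `0` by FIN. -/
def S_SUP : Prop := S_FIN → ∀ (E : Type) [Field E] [CharZero E] [DD E] (A' : Type) [CommRing A']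
    [Algebra ℚ A'] [DD A'] (i : E →+* A') (hi : IsDD i) (f : Syn (MR E)) (x : MR E) (r m : ℚ),
  Ge m (gg f x r) → ∀ b : MR A', Ge r b →
    Ge m (ev (mp i hi) (mp i hi x + b) f - mp i hi (va f x))

/-- DEC. PROOF. As in POLY by induction on `f`, keeping track of homogeneity: `p n` has
coefficients homogeneous of degree `n` in the variables. Products: `cf_mul_mem` with
`H = homogeneousSubmodule _ _ (n + n')` as additive subgroup; `d1`, `d2` preserve homogeneity
(induction on monomials) and so do rational multiples. `mono r y = mono r 1 * mono 0 y` and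
`h_central`, `h_pow`. Take `N ≥ 1`, `p n = 0` for `n ≥ N`. -/
def S_DEC : Prop := ∀ (E : Type) [Field E] [CharZero E] [DD E] (f : Syn (MR E)) (x : MR E),
  ∃ (N : ℕ) (p : ℕ → MR (DP E Unit)), 1 ≤ N ∧ (∀ n ≥ N, p n = 0) ∧
    (∀ n q, (cf (p n) q).IsHomogeneous n) ∧ p 0 = jC E Unit (va f x) ∧
    ∀ r : ℚ, ev (jC E Unit) (jC E Unit x + mono r (X ((), 0, 0))) f =
      ∑ n ∈ Finset.range N, mono (n * r) 1 * p n

/-- The conclusion of SUP. -/
def Sup : Prop := ∀ (E : Type) [Field E] [CharZero E] [DD E] (A' : Type) [CommRing A']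
    [Algebra ℚ A'] [DD A'] (i : E →+* A') (hi : IsDD i) (f : Syn (MR E)) (x : MR E) (r m : ℚ),
  Ge m (gg f x r) → ∀ b : MR A', Ge r b →
    Ge m (ev (mp i hi) (mp i hi x + b) f - mp i hi (va f x))

/-- P1 (scaling). PROOF. By DEC at `x`, `gg f x r = ∑_{1 ≤ n < N} ħ^{nr} p_n` with
`p_n` homogeneous of degree `n`; different `n` do not interfere in a coefficient (take homogeneous
components of `cf (gg f x r) q = ∑ cf (p n) (q - n r)`), so `gg f x r` is `Ge m` iff all
`ħ^{nr} p_n`, `1 ≤ n < N`, are. Then `ħ^{n(r+δ)} p_n` is `Ge (m + nδ)`. -/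
def P1C : Prop := ∀ (E : Type) [Field E] [CharZero E] [DD E] (f : Syn (MR E)) (x : MR E)
  (r m δ : ℚ), 0 ≤ δ → Ge m (gg f x r) → Ge (m + δ) (gg f x (r + δ))

def S_P1 : Prop := S_DEC → P1C

/-- P3 (invariance). PROOF. Sup with `A' = DP E Unit`, `i = C`, once for `b = jC z + ħ^r y` and
once for `b = jC z`; subtract. -/
def P3C : Prop := ∀ (E : Type) [Field E] [CharZero E] [DD E] (f : Syn (MR E)) (x z : MR E)
  (r m : ℚ), Ge r z → Ge m (gg f x r) → Ge m (gg f (x + z) r)

def S_P3 : Prop := Sup → P3C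

/-- RAD. PROOF. With the notation of P1: `gg f x r = 0` for one `r` iff all `p_n = 0`, `n ≥ 1`, iff
for all `r`. `gg f x r ≠ 0` for all `x, r`: for `x = 0` by this and the hypothesis; in general let
`Ge r₁ x`: if `gg f x r₁ = 0` then P3 (all `m`, with `z = - x`) gives `gg f 0 r₁ = 0`. Now let
`μ_n` be the order of `p_n` for the `n ≥ 1` with `p_n ≠ 0` (there is one), and
`r = max_n (ρ - μ_n) / n` over these `n` (`Finset.exists_max_image`): all `n r + μ_n ≥ ρ`, with
equality for some `n₀`, and the homogeneous component of degree `n₀` of `cf (gg f x r) ρ` is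
`cf (p n₀) μ_{n₀} ≠ 0`. No constant term: all `p_n`, `n ≥ 1`, have none. -/
def RADC : Prop := ∀ (E : Type) [Field E] [CharZero E] [DD E] (f : Syn (MR E)), gg f 0 0 ≠ 0 →
  ∀ (x : MR E) (ρ : ℚ), ∃ r : ℚ, Ge ρ (gg f x r) ∧ cf (gg f x r) ρ ≠ 0 ∧
    constantCoeff (cf (gg f x r) ρ) = 0

def S_RAD : Prop := S_DEC → P3C → RADC

/-- NEWT. PROOF. `p_ANL` with `F x = va f x`, `ord x` the order of `F x`, `rad x` the
`r` of RADC for `ρ = ord x`: (a) is Sup with `A' = E`, `i = id` (`Ge ρ (F(x+z) - F x)`);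
(b) `a = cf (gg f x r) ρ ∈ E{y}` is nonzero and has no constant term, so `a + C (cf (F x) ρ)` is
not constant; by `DClosed` it has a zero `y₀`; apply `mp (subst id y₀)` to `gg f x r` (use
`ev_hom`, `subst_isDD`) to see that `F (x + ħ^r y₀) - F x` has no coefficients `< ρ` and the
coefficient `a(y₀)` at `ρ`, so `F (x + ħ^r y₀)` has no coefficients `≤ ρ`; (c) with
`x' = x + z`, `ρ' = ord x' > ρ`, `r' = rad x'`: if `r' < r = rad x`, P1 at `x'` gives
`Ge (ρ' + (r - r')) (gg f x' r)`, hence (P3 with `-z`) `Ge (ρ' + (r - r')) (gg f x r)`,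
contradicting `cf (gg f x r) ρ ≠ 0`. -/
def S_NEWT : Prop := Sup → P1C → P3C → RADC →
  ∀ (E : Type) [Field E] [CharZero E] [DD E], DClosed E →
    ∀ f : Syn (MR E), gg f 0 0 ≠ 0 → ∃ x : MR E, va f x = 0

/-- DIV. PROOF. `p_ANL` with `F x = a * x - 1`, `ord x` the order of `F x`,
`rad x = ord x - order a`: (a) `F (x + z) = F x + a * z`, `Ge.mul`; (b) `y = - cf (F x) (ord x) / cf a (order a)` by
`cf_mul_lead`; (c) clear. -/
def S_DIV : Prop := ∀ (E : Type) [Field E] [CharZero E] [DD E] (a : MR E), a ≠ 0 →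
  ∃ b : MR E, a * b = 1

/-- CENTER. PROOF. Let `s` be minimal in the support of `c` with `cf c s` not constant (for
`d1` and `d2`) if there is one (the support is well-ordered). For `v ∈ {a, b}` compare the
coefficients of `ħ^{s+1}` in `c * mono 0 v = mono 0 v * c` (`cf_mul_mono`, `cf_mono_mul`): the terms
with `k = 0` agree, the terms with `k ≥ 2` and all `s + 1 - k < s` vanish as those coefficients are
constant, and `k = 1` gives `d2 (cf c s) * d1 v = d2 v * d1 (cf c s)`. Two linear equations with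
nonzero determinant. -/
def S_CENTER : Prop := ∀ (E : Type) [Field E] [CharZero E] [DD E] (a b : E),
  DD.d1 a * DD.d2 b - DD.d2 a * DD.d1 b ≠ 0 → ∀ c : MR E,
    (∀ x : MR E, c * x = x * c) → ∀ q, DD.d1 (cf c q) = 0 ∧ DD.d2 (cf c q) = 0

/-- GRAD. PROOF. `DClosed` for `X ((),1,0) - 1` gives `a` with `d1 a = 1`; with `α = d2 a`,
`DClosed` for `X ((),0,1) - α X ((),1,0) - 1` gives `b`. -/
def S_GRAD : Prop := ∀ (E : Type) [Field E] [CharZero E] [DD E], DClosed E →
  ∃ a b : E, DD.d1 a * DD.d2 b - DD.d2 a * DD.d1 b ≠ 0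

/-! ## The free product `R * P[x]` of `OneVariable.lean` -/

open Pool.Agent.Results.MP_4b1745_al.OneVariable in
/-- Homogeneous elements of degree `n` in the unknown. -/
noncomputable def Hn (P R : Type) [Field P] [Ring R] [Algebra P R] :
    ℕ → Submodule P (FreeOver P R Unit)
  | 0 => LinearMap.range (const P R Unit).toLinearMap
  | n + 1 => Submodule.span P {z | ∃ a : R, ∃ g ∈ Hn P R n,
      z = const P R Unit a * var P R Unit () * g}

open Pool.Agent.Results.MP_4b1745_al.OneVariable in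
/-- HN. PROOF. `Hn n * Hn m ⊆ Hn (n + m)` (induction on `n`), so the finite sums of homogeneous
elements are closed under sums and products and contain the constants and the unknown; use
`OneVariable.induct`. -/
def S_HN : Prop := ∀ (P R : Type) [Field P] [Ring R] [Algebra P R] (f : FreeOver P R Unit),
  ∃ (N : ℕ) (g : ℕ → FreeOver P R Unit), (∀ n, g n ∈ Hn P R n) ∧ f = ∑ n ∈ Finset.range N, g n

open Pool.Agent.Results.MP_4b1745_al.OneVariable in
/-- INJ1 (derivative of a generalised polynomial as a tensor). PROOF. `OneVariable.induct` on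
`g`: constants: `τ = 0`, `p 0 = j a`; the unknown: `τ = 1 ⊗ 1`, `p 0 = u`, `p 1 = z`; sums; products:
`τ_{gh} = τ_g · (1 ⊗ h(u)) + (g(u) ⊗ 1) · τ_h` and convolution of the `p`'s
(`opz P z (τ * (1 ⊗ b)) = opz P z τ * b`, `opz P z ((a ⊗ 1) * τ) = a * opz P z τ`; `g(u) ∈ D`). -/
def S_INJ1 : Prop := ∀ (P R B : Type) [Field P] [Ring R] [Algebra P R] [DivisionRing B]
    [CharZero B] [Algebra P B] (j : R →ₐ[P] B) (u : B) (D : Submodule P B),
  (∀ a : R, j a ∈ D) → u ∈ D → (∀ p ∈ D, ∀ q ∈ D, p * q ∈ D) →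
  ∀ g : FreeOver P R Unit, lift j (fun _ => u) g ∈ D ∧
    ∃ τ ∈ Submodule.span P {t : B ⊗[P] B | ∃ p ∈ D, ∃ q : B, t = p ⊗ₜ[P] q},
      ∀ z : B, ∃ (N : ℕ) (p : ℕ → B), 2 ≤ N ∧ p 0 = lift j (fun _ => u) g ∧ p 1 = opz P z τ ∧
        ∀ k : ℕ, lift j (fun _ => u + (k : B) * z) g = ∑ n ∈ Finset.range N, (k : B) ^ n * p n

open Pool.Agent.Results.MP_4b1745_al.OneVariable in
/-- INJ (no generalised polynomial identities). PROOF. Write `g(w)` for `lift j (fun _ => w) g`.
Induction on `n`; `n = 0` is injectivity of `j`. Let `f ∈ Hn (n+1)`, `f(u) = 0`. Take a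
`P`-basis `β` of `R`; write `f = ∑_{i ∈ I} const (β i) * x * g_i`, `I` finite, `g_i ∈ Hn n` (span
induction). By the last hypothesis `f(w) = 0` for all `w ∈ B`. Let `D = j(R) + Pos` (closed under
products) and `τ_i` the tensor of INJ1 for `g_i`. For the tensor
`t = ∑_i j(β i) ⊗ g_i(u) + ∑_i (j(β i) u ⊗ 1) τ_i` and every `z`, INJ1 for the `g_i` shows that
`opz P z t` is the coefficient of `k` in the polynomial `k ↦ f(u + k z) = 0` (`k ∈ ℕ`), so
`opz P z t = 0` (`p_VAND`), and `t = 0` by `p_LT`. The second sum is in the span of the `p ⊗ q` with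
`p ∈ Pos`. As `j(R) ∩ Pos = 0` and `j` is injective there is, for each `i₀ ∈ I`, a `P`-linear
`φ : B → P` with `φ(j(β i)) = δ_{i i₀}` and `φ = 0` on `Pos`; applying `φ ⊗ id` to `t = 0` gives
`g_{i₀}(u) = 0`, so `g_{i₀} = 0` by induction, and `f = 0`. -/
def S_INJ : Prop := S_LT → S_INJ1 → ∀ (P R B : Type) [Field P] [Ring R] [Algebra P R]
    [DivisionRing B] [CharZero B] [Algebra P B] (j : R →ₐ[P] B) (u : B) (Pos : Submodule P B),
  Function.Injective j →
  (∀ b : B, (∀ x : B, b * x = x * b) → ∃ p : P, algebraMap P B p = b) →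
  (∀ a : R, j a ∈ Pos → a = 0) → u ∈ Pos →
  (∀ a : R, ∀ p ∈ Pos, j a * p ∈ Pos ∧ p * j a ∈ Pos) →
  (∀ p ∈ Pos, ∀ q ∈ Pos, p * q ∈ Pos) →
  (∀ n, 1 ≤ n → ∀ f ∈ Hn P R n, lift j (fun _ => u) f = 0 → ∀ w : B, lift j (fun _ => w) f = 0) →
  ∀ n, ∀ f ∈ Hn P R n, lift j (fun _ => u) f = 0 → f = 0

end Run7.h432.AC
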